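import Pool.Agent.Y177.Dg.Grp
import Pool.Agent.Y177.Tor.Gen

/-! Groups of automorphisms of products of a torus and a vector space. -/

set_option autoImplicit false
set_option linter.unusedSectionVars false

universe u v

namespace Pool.Agent.Y177.Dg

open AlgebraicGeometry CategoryTheory Pool.Agent.H920R2 Pool.Agent.H519R3.RS
  Pool.Agent.Y177.Tor

section fixed

variable {k B : Type u} [Field k] [CommRing B] [IsDomain B] [Algebra k B] {p : ℕ}

/-- The ring of invariants of an automorphism of order `p` is good. -/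
theorem good_fixed (hp : p.Prime) (hpk : (p : k) = 0) (σ : B ≃ₐ[k] B) (hσ : ∀ b, σ^[p] b = b)
    {F : ℕ → Ideal B} (hF : IsFilt F) (hG : Good k hF) (hne : F 1 ≠ ⊥) {l : ℕ} (hl : 0 < l)
    (hdiv : ∀ d, ∀ a ∈ F d, σ a - a ∈ F (d + l))
    (hfix : ∀ P : Ideal B, P.IsPrime → (∀ a, σ a - a ∈ P) → F 1 ≤ P)
    (hlead : ∀ d, 1 ≤ d → ∀ a ∈ F d, ∃ N : ℕ, a ^ N ∈ leadI (fun c => σ c - c) F l (N * d)) :
    Good k (isFilt_restr hF (fixedAlg σ)) ∧ restr F (fixedAlg σ) 1 ≠ ⊥ := by
  refine ⟨good_fix hp hpk σ hσ hF hG hl hdiv hfix hlead (fixedAlg σ).val Subtype.val_injective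
    (fun c => ⟨fun h => ⟨⟨c, mem_fixedAlg.2 h⟩, rfl⟩, fun ⟨c', hc'⟩ => by
      rw [← hc']; exact mem_fixedAlg.1 c'.2⟩) _ fun d c' => Iff.rfl, ?_⟩
  obtain ⟨a, ha, ha0⟩ := Submodule.exists_mem_ne_zero_of_ne_bot hne
  have hnF : H920R2.nrm σ p a ∈ F 1 := by
    obtain ⟨m, rfl⟩ : ∃ m, p = m + 1 := ⟨p - 1, by have := hp.pos; omega⟩
    rw [nrm_succ']
    exact Ideal.mul_mem_left _ _ ha
  have hn0 : H920R2.nrm σ p a ≠ 0 := by
    unfold H920R2.nrm
    rw [Finset.prod_ne_zero_iff]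
    intro i _ h6
    have h7 : ∀ (i : ℕ) (x : B), σ^[i] x = 0 → x = 0 := by
      intro i
      induction i with
      | zero => intro x hx; exact hx
      | succ i ih =>
        intro x hx
        rw [Function.iterate_succ_apply] at hx
        exact (map_eq_zero_iff σ σ.injective).1 (ih _ hx)
    exact ha0 (h7 i a h6)
  intro hbot
  have h6 : (⟨H920R2.nrm σ p a, mem_fixedAlg.2 (map_nrm σ p hσ a)⟩ : fixedAlg σ) ∈
      restr F (fixedAlg σ) 1 := hnF
  rw [hbot, Ideal.mem_bot] at h6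
  exact hn0 (congrArg (fun z : fixedAlg σ => (z : B)) h6)

end fixed

section stab

variable {k : Type u} [Field k] {B : Type u} [CommRing B] [Algebra k B] {r m : ℕ}
    {χ : (Fin r → ℤ) → B} {ℓ : (Fin m → k) →ₗ[k] B} {p : ℕ}
variable [hp : Fact p.Prime] [CharP k p]

/-- The filtration is stable under the automorphisms which normalize. -/
theorem stab (T : TV k B χ ℓ) (σ : B ≃ₐ[k] B)
    (s : Module.End ℤ (Fin r → ℤ)) (hs : s ^ p = 1) (hχ : ∀ a, σ (χ a) = χ (s a))
    (N : Module.End k (Fin m → k)) (hℓ : ∀ v, σ (ℓ v) = ℓ v + ℓ (N v))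
    (g : B ≃ₐ[k] B) (hgχ : ∀ a, ∃ c : k, c ≠ 0 ∧ ∃ b, g (χ a) = algebraMap k B c * χ b)
    (hgℓ : ∀ v, ∃ u t, g (ℓ v) = ℓ u + algebraMap k B t)
    (e : ℕ) (hge : ∀ b, g (σ b) = σ^[e] (g b)) (d : ℕ) :
    ∀ b ∈ Gf (Gp χ ℓ s N p) d, g b ∈ Gf (Gp χ ℓ s N p) d := by
  -- the action on the characters
  choose c hc s0 hs0 using hgχ
  have h0 : s0 0 = 0 ∧ c 0 = 1 := by
    apply T.chi_inj (hc 0)
    rw [← hs0, T.zero, map_one, map_one, mul_one]
  have hadd : ∀ a b, s0 (a + b) = s0 a + s0 b ∧ c (a + b) = c a * c b := by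
    intro a b
    apply T.chi_inj (hc _)
    rw [← hs0, T.add, map_mul, hs0, hs0, T.add, map_mul]
    ring
  let s1 : (Fin r → ℤ) →+ (Fin r → ℤ) :=
    { toFun := s0, map_zero' := h0.1, map_add' := fun a b => (hadd a b).1 }
  let sg : Module.End ℤ (Fin r → ℤ) := s1.toIntLinearMap
  have hsg : ∀ a, g (χ a) = algebraMap k B (c a) * χ (sg a) := hs0
  have hσe : ∀ (n : ℕ) a, σ^[n] (χ a) = χ ((s ^ n) a) := by
    intro n
    induction n with
    | zero => intro a; rfl
    | succ n ih =>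
      intro a
      rw [Function.iterate_succ_apply', ih, hχ, pow_succ']
      rfl
  have hσalg : ∀ (n : ℕ) (t : k), σ^[n] (algebraMap k B t) = algebraMap k B t := by
    intro n t
    induction n with
    | zero => rfl
    | succ n ih => rw [Function.iterate_succ_apply', ih, AlgEquiv.commutes]
  have hσmul : ∀ (n : ℕ) (x y : B), σ^[n] (x * y) = σ^[n] x * σ^[n] y := by
    intro n
    induction n with
    | zero => intro x y; rfl
    | succ n ih =>
      intro x y
      rw [Function.iterate_succ_apply', Function.iterate_succ_apply',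
        Function.iterate_succ_apply', ih, map_mul]
  have hσadd : ∀ (n : ℕ) (x y : B), σ^[n] (x + y) = σ^[n] x + σ^[n] y := by
    intro n
    induction n with
    | zero => intro x y; rfl
    | succ n ih =>
      intro x y
      rw [Function.iterate_succ_apply', Function.iterate_succ_apply',
        Function.iterate_succ_apply', ih, map_add]
  have hrel : ∀ a, sg (s a) = (s ^ e) (sg a) ∧ c (s a) = c a := by
    intro a
    apply T.chi_inj (hc _)
    have h1 := hge (χ a)
    rw [hχ, hsg, hsg, hσmul, hσalg, hσe] at h1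
    exact h1
  have hcn : ∀ a, c (-a) * c a = 1 := fun a => by
    rw [← (hadd _ _).2, neg_add_cancel, h0.2]
  have hcs : ∀ a, c ((s - 1) a) = 1 := by
    intro a
    rw [LinearMap.sub_apply, Module.End.one_apply, sub_eq_add_neg, (hadd _ _).2, (hrel a).2,
      mul_comm, hcn]
  have hcK : ∀ μ, μ ∈ KJ s p 0 → c μ = 1 := by
    intro μ hμ
    obtain ⟨ν, -, h3⟩ := exists_pi_of_p hμ
    have h4 : ∀ n : ℕ, c ((n : ℤ) • μ) = c μ ^ n := by
      intro n
      induction n with
      | zero => rw [Nat.cast_zero, zero_smul, h0.2, pow_zero]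
      | succ n ih => rw [Nat.cast_succ, add_smul, one_smul, (hadd _ _).2, ih, pow_succ]
    have h5 : c μ ^ p = 1 := by rw [← h4, h3, hcs]
    have h6 : (c μ - 1) ^ p = 0 := by rw [sub_pow_char, h5, one_pow, sub_self]
    exact sub_eq_zero.1 ((pow_eq_zero_iff hp.out.ne_zero).1 h6)
  let U : Module.End ℤ (Fin r → ℤ) := ∑ i ∈ Finset.range e, s ^ i
  have hU : s ^ e - 1 = (s - 1) * U := (mul_geom_sum s e).symm
  have hsgpi : ∀ a, sg ((s - 1) a) = (s - 1) (U (sg a)) := by
    intro a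
    have h1 : sg ((s - 1) a) = (s ^ e - 1) (sg a) := by
      rw [LinearMap.sub_apply, LinearMap.sub_apply, map_sub, (hrel a).1, Module.End.one_apply,
        Module.End.one_apply]
    rw [h1, hU]
    rfl
  have hK0 : ∀ μ, μ ∈ KJ s p 0 → sg μ ∈ KJ s p 0 := by
    intro μ hμ
    obtain ⟨ν, -, h3⟩ := exists_pi_of_p hμ
    have hp0 : (p : ℤ) ≠ 0 := by exact_mod_cast hp.out.ne_zero
    refine KJ_sat hp0 ?_
    rw [← map_smul, h3, hsgpi]
    exact pi_mem_zero hs _
  have hUK : ∀ j μ, μ ∈ KJ s p j → U μ ∈ KJ s p j := by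
    intro j μ hμ
    change (∑ i ∈ Finset.range e, s ^ i) μ ∈ _
    rw [LinearMap.sum_apply]
    refine Submodule.sum_mem _ fun i _ => ?_
    have h1 : ∀ (i : ℕ) (μ), μ ∈ KJ s p j → (s ^ i) μ ∈ KJ s p j := by
      intro i
      induction i with
      | zero => intro μ hμ; exact hμ
      | succ i ih =>
        intro μ hμ
        rw [pow_succ']
        change s ((s ^ i) μ) ∈ _
        have h2 := ih μ hμ
        have h3 : s ((s ^ i) μ) = (s ^ i) μ + (s - 1) ((s ^ i) μ) := by
          rw [LinearMap.sub_apply, Module.End.one_apply]; abel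
        rw [h3]
        exact Submodule.add_mem _ h2 (KJ_succ_le hs j (pi_mem_succ h2))
    exact h1 i μ hμ
  have hKj : ∀ j μ, μ ∈ KJ s p j → sg μ ∈ KJ s p j := by
    intro j
    induction j with
    | zero => exact hK0
    | succ j ih =>
      intro μ hμ
      obtain ⟨ν, h1, rfl⟩ := exists_of_succ hμ
      rw [hsgpi]
      exact pi_mem_succ (hUK j _ (ih ν h1))
  -- the action on the linear forms
  choose h' t ht using hgℓ
  have hladd : ∀ u v, h' (u + v) = h' u + h' v ∧ t (u + v) = t u + t v := by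
    intro u v
    apply T.ell_inj
    rw [← ht, map_add ℓ u v, map_add g, ht, ht, map_add, map_add]
    ring
  have hlsmul : ∀ (c : k) v, h' (c • v) = c • h' v ∧ t (c • v) = c * t v := by
    intro c v
    apply T.ell_inj
    rw [← ht, map_smul ℓ c v, map_smul g, ht, map_smul, map_mul, smul_add, Algebra.smul_def,
      Algebra.smul_def]
  let H : Module.End k (Fin m → k) :=
    { toFun := h', map_add' := fun u v => (hladd u v).1, map_smul' := fun c v => (hlsmul c v).1 }
  have hH : ∀ v, g (ℓ v) = ℓ (H v) + algebraMap k B (t v) := ht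
  have hσl : ∀ (n : ℕ) v, σ^[n] (ℓ v) = ℓ (((1 + N) ^ n) v) := by
    intro n
    induction n with
    | zero => intro a; rfl
    | succ n ih =>
      intro v
      rw [Function.iterate_succ_apply', ih, hℓ, pow_succ', ← map_add]
      rfl
  let U' : Module.End k (Fin m → k) := ∑ i ∈ Finset.range e, (1 + N) ^ i
  have hU' : (1 + N) ^ e - 1 = N * U' := by
    rw [← mul_geom_sum (1 + N) e, add_sub_cancel_left]
  have hrelN : ∀ v, H (N v) = N (U' (H v)) ∧ t (N v) = 0 := by
    intro v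
    have h1 := hge (ℓ v)
    rw [hℓ, map_add, hH, hH, hσadd, hσalg, hσl] at h1
    have h2 : ℓ (H (N v)) + algebraMap k B (t (N v)) =
        ℓ (N (U' (H v))) + algebraMap k B 0 := by
      have h3 : N (U' (H v)) = ((1 + N) ^ e) (H v) - H v := by
        have := congrArg (fun f : Module.End k (Fin m → k) => f (H v)) hU'
        simp only [LinearMap.sub_apply, Module.End.one_apply] at this
        exact this.symm
      rw [h3, map_sub, map_zero]
      linear_combination h1
    exact T.ell_inj h2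
  have hrange : ∀ w v, v ∈ LinearMap.range (N ^ w) → H v ∈ LinearMap.range (N ^ w) := by
    intro w
    induction w with
    | zero => intro v _; exact ⟨H v, rfl⟩
    | succ w ih =>
      rintro _ ⟨v, rfl⟩
      rw [pow_succ']
      obtain ⟨u, hu⟩ := ih _ ⟨v, rfl⟩
      have hcomm : Commute U' (N ^ w) := by
        refine Commute.sum_left _ _ _ fun i _ => ?_
        exact (((Commute.one_left (N ^ w)).add_left ((Commute.refl N).pow_right w)).pow_left i)
      refine ⟨U' u, ?_⟩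
      change N ((N ^ w) (U' u)) = H (N ((N ^ w) v))
      rw [(hrelN _).1, ← hu]
      have h2 := congrArg (fun f : Module.End k (Fin m → k) => f u) hcomm.eq
      exact congrArg N h2.symm
  -- the conclusion
  have hle : Gf (Gp χ ℓ s N p) d ≤ (Gf (Gp χ ℓ s N p) d).comap (g : B →+* B) := by
    refine Gf_le (W := fun d => (Gf (Gp χ ℓ s N p) d).comap (g : B →+* B)) _ ?_ ?_ ?_ ?_ d
    · rw [Gf_zero, Ideal.comap_top]
    · intro a b hab x hx
      exact Gf_anti _ _ _ hab hx
    · intro a b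
      refine Ideal.mul_le.2 fun x hx y hy => ?_
      change g (x * y) ∈ Gf (Gp χ ℓ s N p) (a + b)
      rw [map_mul]
      exact mul_mem_Gf _ hx hy
    · rintro b w (⟨j, μ, hj, hμ, rfl, rfl⟩ | ⟨v, hv, rfl⟩)
      · change g (χ μ - 1) ∈ Gf (Gp χ ℓ s N p) (j + 1)
        rw [map_sub, map_one, hsg, hcK μ (KJ_anti hs (Nat.zero_le j) hμ), map_one, one_mul]
        exact gen_mem _ (gp_tor hj (hKj j μ hμ))
      · change g (ℓ v) ∈ Gf (Gp χ ℓ s N p) w
        rcases Nat.eq_zero_or_pos w with rfl | hw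
        · rw [Gf_zero]; trivial
        · obtain ⟨w', rfl⟩ := Nat.exists_eq_succ_of_ne_zero hw.ne'
          have h1 := hrange _ v hv
          obtain ⟨u, rfl⟩ := hv
          have h2 : (N ^ (w' + 1)) u = N ((N ^ w') u) := by rw [pow_succ']; rfl
          rw [hH]
          have h3 : t ((N ^ (w' + 1)) u) = 0 := by rw [h2]; exact (hrelN _).2
          rw [h3, map_zero, add_zero]
          exact gen_mem _ (gp_lin h1)
  exact fun b hb => hle hb

end stab

section main

variable {k : Type u} [Field k] {B : Type u} [CommRing B] [IsDomain B] [Algebra k B] {r m : ℕ}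
    {χ : (Fin r → ℤ) → B} {ℓ : (Fin m → k) →ₗ[k] B} {p : ℕ}
variable [hp : Fact p.Prime] [CharP k p] [Algebra.FiniteType k B]

lemma smooth_TV (p : ℕ) [hp : Fact p.Prime] [CharP k p] (T : TV k B χ ℓ) :
    Algebra.Smooth k B := by
  obtain ⟨lam, w, E, n, hA⟩ := exists_adapted (s := (1 : Module.End ℤ (Fin r → ℤ))) (p := p)
    (one_pow p)
  have hE : (E : k) ≠ 0 := fun h => hA.hE ((CharP.cast_eq_zero_iff k p E).1 h)
  exact T.smooth hE hA.sum hA.dual

/-- The canonical filtration. -/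
theorem exists_filt [PerfectRing k p] (T : TV k B χ ℓ) (σ : B ≃ₐ[k] B)
    (hσ : ∀ b, σ^[p] b = b)
    (hχ : ∀ a, ∃ c : k, c ≠ 0 ∧ ∃ b, σ (χ a) = algebraMap k B c * χ b)
    (hℓ : ∀ v, ∃ u t, σ (ℓ v) = ℓ u + algebraMap k B t) :
    ∃ (F : ℕ → Ideal B) (hF : IsFilt F), Good k (isFilt_restr hF (fixedAlg σ)) ∧
      restr F (fixedAlg σ) 1 ≠ ⊥ ∧ ∀ g : B ≃ₐ[k] B,
      (∀ a, ∃ c : k, c ≠ 0 ∧ ∃ b, g (χ a) = algebraMap k B c * χ b) →
      (∀ v, ∃ u t, g (ℓ v) = ℓ u + algebraMap k B t) →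
      (∃ e : ℕ, ∀ b, g (σ b) = σ^[e] (g b)) → ∀ d, ∀ b ∈ F d, g b ∈ F d := by
  have hsm : Algebra.Smooth k B := smooth_TV p T
  have hpk : (p : k) = 0 := CharP.cast_eq_zero k p
  by_cases htriv : ∀ b, σ b = b
  · have h2 : fixedAlg σ = ⊤ := by
      rw [eq_top_iff]
      intro b _
      exact mem_fixedAlg.2 (htriv b)
    obtain ⟨h3, h4⟩ := good_top isFilt_triv (good_triv (k := k) (B := B)) (by simp) h2
    exact ⟨_, isFilt_triv, h3, h4, fun _ _ _ _ _ _ _ => trivial⟩
  push Not at htriv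
  obtain ⟨b0, hb0⟩ := htriv
  obtain ⟨s, c, hs, hsχ, h0, ha, hc⟩ := exists_s T σ hσ hχ
  obtain ⟨ψ, hψ0, hψa, hψs⟩ := exists_psi s hs c h0 ha hc
  obtain ⟨N, τ, hN, hNτ⟩ := exists_A T σ hσ hℓ
  have hψn : ∀ a, ψ a ≠ 0 := by
    intro a h5
    have h6 : ψ a * ψ (-a) = 1 := by rw [← hψa, add_neg_cancel, hψ0]
    rw [h5, zero_mul] at h6
    exact zero_ne_one h6
  by_cases hker : LinearMap.ker N ≤ LinearMap.ker τ
  · obtain ⟨g, hg⟩ := N.rangeRestrict.exists_rightInverse_of_surjective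
      (LinearMap.range_rangeRestrict N)
    obtain ⟨φ, hφ⟩ := LinearMap.exists_extend (τ.comp g)
    have hφN : ∀ v, φ (N v) = τ v := by
      intro v
      have h1 := DFunLike.congr_fun hφ (N.rangeRestrict v)
      rw [LinearMap.comp_apply, LinearMap.comp_apply] at h1
      have h2 : N (g (N.rangeRestrict v)) = N v := by
        have h3 := DFunLike.congr_fun hg (N.rangeRestrict v)
        exact congrArg Subtype.val h3
      have h3 : g (N.rangeRestrict v) - v ∈ LinearMap.ker τ := by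
        apply hker
        rw [LinearMap.mem_ker, map_sub, h2, sub_self]
      rw [LinearMap.mem_ker, map_sub, sub_eq_zero] at h3
      rw [← h3, ← h1]
      rfl
    have _ : CharP B p := charP_of_injective_algebraMap (algebraMap k B).injective p
    have T' := T.twist ψ hψ0 hψa φ
    have hχ' : ∀ a, σ (algebraMap k B (ψ a) * χ a) = algebraMap k B (ψ (s a)) * χ (s a) := by
      intro a
      rw [map_mul, AlgEquiv.commutes, hsχ, hψs, map_mul]
      ring
    have hℓ' : ∀ v, σ ((ℓ + (Algebra.linearMap k B).comp φ) v) =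
        (ℓ + (Algebra.linearMap k B).comp φ) v + (ℓ + (Algebra.linearMap k B).comp φ) (N v) := by
      intro v
      simp only [LinearMap.add_apply, LinearMap.comp_apply, Algebra.linearMap_apply, map_add,
        AlgEquiv.commutes, hNτ, hφN]
      ring
    set χ' : (Fin r → ℤ) → B := fun a => algebraMap k B (ψ a) * χ a with hχd
    set ℓ' : (Fin m → k) →ₗ[k] B := ℓ + (Algebra.linearMap k B).comp φ with hℓd
    have hRW : RegularWeightedCentre k (Gf (Gp χ' ℓ' s N p)) :=
      { zero := Gf_zero _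
        anti := Gf_anti _
        mul := Gf_mul _
        coord := fun P hP hFP => centre_coord T' hs hN P hP hFP }
    have hF : IsFilt (Gf (Gp χ' ℓ' s N p)) := ⟨Gf_zero _, Gf_anti _, Gf_mul _⟩
    have hne : Gf (Gp χ' ℓ' s N p) 1 ≠ ⊥ := by
      intro h3
      have h4 := sig_one T' hs σ hχ' hℓ' b0
      rw [h3, Submodule.mem_bot, sub_eq_zero] at h4
      exact hb0 h4
    obtain ⟨h3, h4⟩ := good_fixed hp.out hpk σ hσ hF (good_of_centre hF hRW) hne one_pos
      (sigma_raise _ σ (sig_one T' hs σ hχ' hℓ') (sig_gen T' hs σ hχ' hℓ'))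
      (sig_fix T' hs σ hχ' hℓ') (sig_lead T' hs σ hχ' hℓ')
    refine ⟨_, hF, h3, h4, ?_⟩
    rintro g' hg1 hg2 ⟨e, he⟩ d
    refine stab T' σ s hs hχ' N hℓ' g' ?_ ?_ e he d
    · intro a
      obtain ⟨c', hc', b, hb⟩ := hg1 a
      refine ⟨ψ a * c' * (ψ b)⁻¹, mul_ne_zero (mul_ne_zero (hψn a) hc') (inv_ne_zero (hψn b)),
        b, ?_⟩
      change g' (algebraMap k B (ψ a) * χ a) = _ * (algebraMap k B (ψ b) * χ b)
      rw [map_mul, AlgEquiv.commutes, hb, ← mul_assoc, ← mul_assoc, ← map_mul, ← map_mul,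
        inv_mul_cancel_right₀ (hψn b)]
    · intro v
      obtain ⟨u, t, ht⟩ := hg2 v
      refine ⟨u, t + φ v - φ u, ?_⟩
      simp only [hℓd, LinearMap.add_apply, LinearMap.comp_apply, Algebra.linearMap_apply, map_add,
        map_sub, AlgEquiv.commutes, ht]
      ring
  · rw [SetLike.not_le_iff_exists] at hker
    obtain ⟨v, hv, hv'⟩ := hker
    rw [LinearMap.mem_ker] at hv hv'
    obtain ⟨h3, h4⟩ := good_fixed hp.out hpk σ hσ isFilt_triv (good_triv (k := k) (B := B))
      (by simp) one_pos (fun _ _ _ => trivial) (fun P hP h => by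
        exfalso
        have h5 := h (ℓ v)
        rw [hNτ, hv, map_zero, add_zero, add_sub_cancel_left] at h5
        exact hP.ne_top (P.eq_top_of_isUnit_mem h5 ((IsUnit.mk0 _ hv').map _)))
      (fun d _ a _ => ⟨0, (le_sup_left : (⊤ : Ideal B) ≤ _) trivial⟩)
    exact ⟨_, isFilt_triv, h3, h4, fun _ _ _ _ _ _ _ => trivial⟩

/-- Quotients by groups with a normal subgroup of order `p`. -/
theorem tor_group [PerfectRing k p] (T : TV k B χ ℓ) {G : Type} [Group G] [Finite G]
    (θ : G →* (B ≃ₐ[k] B)) (P : Subgroup G) [P.Normal] (hP : Nat.card P ∣ p)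
    (hab : ∀ g h : G, g * h * g⁻¹ * h⁻¹ ∈ P)
    [HasEnoughRootsOfUnity k (Monoid.exponent (G ⧸ P))] (hQ : (P.index : k) ≠ 0)
    (hχ : ∀ g a, ∃ c : k, c ≠ 0 ∧ ∃ b, θ g (χ a) = algebraMap k B c * χ b)
    (hℓ : ∀ g v, ∃ u t, θ g (ℓ v) = ℓ u + algebraMap k B t) (D : Subalgebra k B)
    (hD : ∀ b, b ∈ D ↔ ∀ g, θ g b = b) :
    IsVariety (X := Spec (CommRingCat.of D))
      (Spec.map (CommRingCat.ofHom (algebraMap k D))) ∧
    HasResolution (X := Spec (CommRingCat.of D))
      (Spec.map (CommRingCat.ofHom (algebraMap k D))) := by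
  obtain ⟨g0, hg0, hgen⟩ : ∃ g0 ∈ P, ∀ h ∈ P, ∃ n : ℕ, h = g0 ^ n := by
    have hcyc : IsCyclic P := by
      rcases (Nat.dvd_prime hp.out).1 hP with h1 | h1
      · have : Subsingleton P := (Nat.card_eq_one_iff_unique.1 h1).1
        infer_instance
      · exact isCyclic_of_prime_card h1
    obtain ⟨g0, hg0⟩ := hcyc.exists_generator
    refine ⟨g0, g0.2, fun h hh => ?_⟩
    obtain ⟨n, hn⟩ := mem_powers_iff_mem_zpowers.2 (hg0 ⟨h, hh⟩)
    exact ⟨n, congrArg Subtype.val hn.symm⟩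
  have hg0p : g0 ^ p = 1 := by
    obtain ⟨n, hn⟩ := hP
    have h1 : (⟨g0, hg0⟩ : P) ^ Nat.card P = 1 := pow_card_eq_one'
    have h2 : g0 ^ Nat.card P = 1 := congrArg Subtype.val h1
    rw [hn, pow_mul, h2, one_pow]
  have hpow : ∀ (n : ℕ) b, θ (g0 ^ n) b = (θ g0)^[n] b := by
    intro n
    induction n with
    | zero => intro b; rw [pow_zero, map_one]; rfl
    | succ n ih =>
      intro b
      rw [pow_succ', map_mul, Function.iterate_succ_apply', ← ih]
      rfl
  have hσ : ∀ b, (θ g0)^[p] b = b := fun b => by rw [← hpow, hg0p, map_one]; rfl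
  have hfix : fixedAlg (θ g0) = ivP θ P := by
    ext b
    rw [mem_fixedAlg, mem_ivP]
    constructor
    · intro hb h hh
      obtain ⟨n, rfl⟩ := hgen h hh
      rw [hpow]
      exact Function.iterate_fixed hb n
    · intro hb
      exact hb g0 hg0
  obtain ⟨F, hF, h1, h2, h3⟩ := exists_filt T (θ g0) hσ (hχ g0) (hℓ g0)
  rw [hfix] at h2
  have h1' : Good k (isFilt_restr hF (ivP θ P)) := hfix ▸ h1
  refine concl_ivP θ P hab hQ hF h1' h2 (fun g d x hx => ?_) D hD
  refine h3 (θ g) (hχ g) (hℓ g) ?_ d x hx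
  obtain ⟨e, he⟩ := hgen (g * g0 * g⁻¹) ((inferInstance : P.Normal).conj_mem g0 hg0 g)
  refine ⟨e, fun b => ?_⟩
  rw [← hpow, ← he]
  calc θ g (θ g0 b) = θ (g * g0) b := by rw [map_mul]; rfl
    _ = θ (g * g0 * g⁻¹ * g) b := by rw [inv_mul_cancel_right]
    _ = θ (g * g0 * g⁻¹) (θ g b) := by rw [map_mul θ (g * g0 * g⁻¹)]; rfl

end main

end Pool.Agent.Y177.Dg
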