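import Pool.Agent.Y177.Dg.Res
import Pool.Agent.Y177.Ga.Lin

/-! Actions of semidirect products of subgroup schemes of the additive group and diagonalizable
groups. -/

set_option autoImplicit false
set_option linter.unusedSectionVars false

universe u v

namespace Pool.Agent.Y177.Dg

open AlgebraicGeometry CategoryTheory Polynomial Pool.Agent.H920R2 Pool.Agent.H519R3.RS
  Pool.Agent.Y177.Ga

section ft

variable {k C : Type u} [Field k] [CommRing C] [Algebra k C] {Λ : Type}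
  [AddCommGroup Λ] [Fintype Λ] [DecidableEq Λ] {p : Λ → C →ₗ[k] C} (h : PG p)

lemma finiteType_zr [hft : Algebra.FiniteType k C] : Algebra.FiniteType k (Dg.zr h) := by
  have h3 : Algebra.FiniteType (Dg.zr h) C :=
    Algebra.FiniteType.of_restrictScalars_finiteType k _ _
  have h4 : Algebra.IsIntegral (Dg.zr h) C := ⟨h.isIntegral⟩
  have h5 : Module.Finite (Dg.zr h) C := Algebra.IsIntegral.finite
  exact ⟨fg_of_fg_of_fg k (Dg.zr h) C hft.out h5.fg_top Subtype.val_injective⟩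

end ft

section tp

variable {k B : Type u} [Field k] [CommRing B] [Algebra k B] {Λ : Type}
  [AddCommGroup Λ] [Fintype Λ] [DecidableEq Λ] {p : Λ → B →ₗ[k] B} (h : PG p) (β : Λ)

/-- The twisted projection. -/
noncomputable def tp (p : Λ → B →ₗ[k] B) (β i : Λ) (f : B[X]) : B[X] :=
  ∑ j ∈ f.support, monomial j (p (i + j • β) (f.coeff j))

lemma coeff_tp (i : Λ) (f : B[X]) (j : ℕ) :
    (tp p β i f).coeff j = p (i + j • β) (f.coeff j) := by
  unfold tp
  rw [finsetSum_coeff]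
  simp only [coeff_monomial]
  rw [Finset.sum_ite_eq']
  split_ifs with h1
  · rfl
  · rw [notMem_support_iff.1 h1, map_zero]

lemma tp_mul {P : k[X]} (hP : ∀ j, P.coeff j ≠ 0 → j • β = β) (i : Λ) (g : B[X]) :
    tp p β i (P.map (algebraMap k B) * g) = P.map (algebraMap k B) * tp p β (i + β) g := by
  ext n
  rw [coeff_tp, coeff_mul, coeff_mul, map_sum]
  refine Finset.sum_congr rfl fun x hx => ?_
  rw [coeff_map, ← Algebra.smul_def, ← Algebra.smul_def, map_smul, coeff_tp]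
  by_cases h1 : P.coeff x.1 = 0
  · rw [h1, zero_smul, zero_smul]
  · rw [← Finset.HasAntidiagonal.mem_antidiagonal.1 hx, add_smul, hP _ h1, add_assoc]

variable {ρ : B →ₐ[k] B[X]} (hρp : ∀ i b j, (ρ (p i b)).coeff j = p (i + j • β) ((ρ b).coeff j))

include hρp in
lemma frs_stable {q : ℕ} (i : Λ) : ∀ x ∈ frs ρ q, p i x ∈ frs ρ q := by
  intro x hx j hj hjq
  rw [hρp, hx j hj hjq, map_zero]

include hρp in
lemma inv_stable (A : AddSubgroup k) [Fintype A]
    (hA : ∀ j, (∏ a : A, (X - C (a : k))).coeff j ≠ 0 → j • β = β) (i : Λ) :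
    ∀ x ∈ inv ρ A, p i x ∈ inv ρ A := by
  intro x hx
  have hmap : (∏ a : A, (X - C (a : k))).map (algebraMap k B) =
      ∏ a : A, (X - C (algebraMap k B a)) := by
    rw [Polynomial.map_prod]
    refine Finset.prod_congr rfl fun a _ => ?_
    rw [Polynomial.map_sub, map_X, map_C]
  have h1 : (∏ a : A, (X - C (algebraMap k B a))) ∣ ρ x - C x := by
    refine Finset.prod_dvd_of_coprime ?_ ?_
    · intro a _ b _ hab
      refine isCoprime_X_sub_C_of_isUnit_sub ?_
      rw [← map_sub]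
      refine IsUnit.map _ (IsUnit.mk0 _ ?_)
      intro h0
      exact hab (Subtype.ext (sub_eq_zero.1 h0))
    · intro a _
      rw [dvd_iff_isRoot, IsRoot, eval_sub, eval_C, ← sg_apply, hx a a.2, sub_self]
  obtain ⟨g, hg⟩ := h1
  have h2 : ρ (p i x) - C (p i x) = tp p β i (ρ x - C x) := by
    ext j
    rw [coeff_tp, coeff_sub, coeff_sub, hρp, map_sub, coeff_C, coeff_C]
    split_ifs with h3
    · rw [h3, zero_smul, add_zero]
    · rw [map_zero]
  intro a ha
  have h3 : (ρ (p i x) - C (p i x)).eval (algebraMap k B a) = 0 := by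
    rw [h2, hg, ← hmap, tp_mul β hA, hmap, eval_mul, eval_prod,
      Finset.prod_eq_zero (Finset.mem_univ (⟨a, ha⟩ : A)), zero_mul]
    rw [eval_sub, eval_X, eval_C, sub_self]
  rw [eval_sub, eval_C, sub_eq_zero] at h3
  rw [sg_apply]
  exact h3

end tp

section main

variable {k B : Type u} [Field k] [CommRing B] [IsDomain B] [Algebra k B] {Λ : Type}
  [AddCommGroup Λ] [Fintype Λ] [DecidableEq Λ]

/-- The quotient of a good filtered ring by a diagonalizable group. -/
theorem concl_zr {C : Subalgebra k B} {F : ℕ → Ideal B} (hF : IsFilt F)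
    (hG : Good k (isFilt_restr hF C)) (hne : restr F C 1 ≠ ⊥) {P : Λ → B →ₗ[k] B} (h : PG P)
    (hC : ∀ i, ∀ x ∈ C, P i x ∈ C) (hom : ∀ d, ∀ c ∈ F d, ∀ i, P i c ∈ F d)
    (D : Subalgebra k B) (hD : ∀ b, b ∈ D ↔ b ∈ C ∧ P 0 b = b) :
    IsVariety (X := Spec (CommRingCat.of D))
      (Spec.map (CommRingCat.ofHom (algebraMap k D))) ∧
    HasResolution (X := Spec (CommRingCat.of D))
      (Spec.map (CommRingCat.ofHom (algebraMap k D))) := by
  have hp := h.res C hC
  have h1 := hasResolution_zr hp (isFilt_restr hF C) (fun d c hc i => hom d c hc i) hG hne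
  have hft : Algebra.FiniteType k C := by
    have hinj : Function.Injective (IsScalarTower.toAlgHom k C (FractionRing C)) :=
      IsFractionRing.injective C (FractionRing C)
    exact finiteType_goodE _ (isFilt_restr hF C) hinj ((good_iff _ _ hinj).1 hG)
  have hft' := finiteType_zr hp
  let e : Dg.zr hp ≃ₐ[k] D :=
    AlgEquiv.ofBijective
      ((C.val.comp (Dg.zr hp).val).codRestrict D fun x => (hD _).2 ⟨x.1.2,
        congrArg Subtype.val x.2⟩)
      ⟨fun x y hxy => by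
        apply Subtype.ext
        apply Subtype.ext
        exact congrArg (fun z : D => (z : B)) hxy, fun y => by
        obtain ⟨h2, h3⟩ := (hD _).1 y.2
        exact ⟨⟨⟨y, h2⟩, Subtype.ext h3⟩, rfl⟩⟩
  have hft'' : Algebra.FiniteType k D := Algebra.FiniteType.equiv hft' e
  exact ⟨isVariety_spec, hasResolution_congr e h1⟩

variable {p : ℕ} [hp : Fact p.Prime] [CharP k p] [CharP B p]

/-- Quotients by semidirect products. -/
theorem semi_main {ρ : B →ₐ[k] B[X]} (hρ : IsAct ρ) {F : ℕ → Ideal B} (hF : IsFilt F) {l : ℕ}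
    (hdiv : ∀ d, ∀ b ∈ F d, ∀ j, (ρ b).coeff j ∈ F (d + j * l))
    (hlead : ∀ d, 1 ≤ d → ∀ a ∈ F d, ∃ N : ℕ, a ^ N ∈ leadI (fun c => (ρ c).coeff 1) F l (N * d))
    (hl : 0 < l) (hG : Good k hF) (hne : F 1 ≠ ⊥) (r : ℕ) (A : AddSubgroup k) [Fintype A]
    (hfix : r ≠ 0 → ∀ P : Ideal B, P.IsPrime → (∀ b, (ρ b).coeff 1 ∈ P) → F 1 ≤ P)
    (hfixA : ∀ a ∈ A, a ≠ 0 → ∀ P : Ideal B, P.IsPrime → (∀ b, sg ρ a b - b ∈ P) → F 1 ≤ P)
    {P : Λ → B →ₗ[k] B} (h : PG P) (β : Λ)
    (hρp : ∀ i b j, (ρ (P i b)).coeff j = P (i + j • β) ((ρ b).coeff j))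
    (hom : ∀ d, ∀ c ∈ F d, ∀ i, P i c ∈ F d)
    (hA : ∀ j, (∏ a : A, (X - C (a : k))).coeff j ≠ 0 → j • β = β)
    (D : Subalgebra k B) (hD : ∀ b, b ∈ D ↔ b ∈ frs ρ (p ^ r) ⊓ inv ρ A ∧ P 0 b = b) :
    IsVariety (X := Spec (CommRingCat.of D))
      (Spec.map (CommRingCat.ofHom (algebraMap k D))) ∧
    HasResolution (X := Spec (CommRingCat.of D))
      (Spec.map (CommRingCat.ofHom (algebraMap k D))) := by
  obtain ⟨h1, h2⟩ := good_main p hρ hF hdiv hlead hl hG hne r A hfix hfixA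
  exact concl_zr hF h1 h2 h (fun i x hx => ⟨frs_stable β hρp i x hx.1,
    inv_stable β hρp A hA i x hx.2⟩) hom D hD

end main

end Pool.Agent.Y177.Dg
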