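import Pool.Agent.Y177.Dg.Cht2

/-! The atlas of the quotient by a diagonalizable group. -/

set_option autoImplicit false
set_option linter.unusedSectionVars false

universe u v

namespace Pool.Agent.Y177.Dg

open AddMonoidAlgebra Pool.Agent.H920R2 Pool.Agent.H519R3.RS Pool.Agent.W559.Mg

section cv

variable {k B K : Type u} [Field k] [CommRing B] [Algebra k B] [Field K] [Algebra k K]
  {gB : B →ₐ[k] K} {R : Subalgebra k (LP K)} {T : Type u} {e : T → ℕ} {η : T → K}

/-- The charts cover all valuations, with norms. -/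
lemma cv_aux (hR : ∀ t, hm (e t) (η t) ∈ R) (cR : ∀ f ∈ R, ∀ d, ∃ b, f.coeff d = gB b)
    (ft : Algebra.FiniteType k R) (grR : Pool.Agent.H920R2.Gr R)
    (pos : ∃ (d : ℕ) (a : K), 0 < d ∧ a ≠ 0 ∧ hm d a ∈ R)
    (rad : ∀ (d : ℕ) (a : K) (h : hm d a ∈ R), 0 < d → ∃ N : ℕ,
      (⟨hm d a, h⟩ : R) ^ N ∈ Ideal.span (Set.range fun t => (⟨hm (e t) (η t), hR t⟩ : R)))
    (V : ValuationSubring K) (hV : ∀ b, gB b ∈ V) :
    ∃ (t : T) (D : ℕ) (γ : V.ValueGroup), 0 < D ∧ γ ≠ 0 ∧
      (∀ x ∈ R, ∀ m : ℤ, V.valuation (x.coeff m) ^ D ≤ γ ^ m) ∧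
      V.valuation (η t) ^ D = γ ^ (e t : ℤ) := by
  classical
  obtain ⟨J, hJ, hJn, d, y, hy, hgen⟩ := exists_pos_gens ft grR pos
  have hJf : Fintype J := Fintype.ofFinite J
  let D : ℕ := ∏ j, d j
  have hD0 : 0 < D := Finset.prod_pos fun j _ => (hy j).1
  have hdvd : ∀ j, d j ∣ D := fun j => Finset.dvd_prod_of_mem d (Finset.mem_univ j)
  have hq : ∀ j, D / d j * d j = D := fun j => Nat.div_mul_cancel (hdvd j)
  obtain ⟨j0, hj0⟩ := Finite.exists_max fun j : J => V.valuation (y j) ^ (D / d j)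
  have hmax : ∀ j, V.valuation (y j) ^ d j0 ≤ V.valuation (y j0) ^ d j := by
    intro j
    have h1 := hj0 j
    have h2 : (V.valuation (y j) ^ d j0) ^ D ≤ (V.valuation (y j0) ^ d j) ^ D := by
      have h3 := pow_le_pow_left' h1 (d j * d j0)
      rw [← pow_mul, ← pow_mul] at h3 ⊢
      have e3 : D / d j * (d j * d j0) = d j0 * D := by rw [← mul_assoc, hq j]; ring
      have e4 : D / d j0 * (d j * d j0) = d j * D := by
        rw [mul_comm (d j), ← mul_assoc, hq j0]; ring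
      rwa [e3, e4] at h3
    exact le_of_pow_le_pow_left₀ hD0.ne' zero_le h2
  set v := V.valuation with hv
  have hval : ∀ {x : LP K}, x ∈ R → ∀ m : ℤ, v (x.coeff m) ^ d j0 ≤ v (y j0) ^ m := by
    intro x hx m
    exact val_R cR d y hgen V hV j0 (hy j0).1 (hy j0).2.1 (hy j0).2.2 hmax hx m
  have hpos : 0 < v (y j0) := by
    rw [zero_lt_iff, Ne, map_eq_zero]
    exact (hy j0).2.1
  obtain ⟨N, hN⟩ := rad (d j0) (y j0) (hy j0).2.2 (hy j0).1
  obtain ⟨m, f, t, hsum⟩ := Submodule.mem_span_set'.1 hN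
  choose t' ht' using fun i => (t i).2
  have h2 : (∑ i, ((f i : R) : LP K) * hm (e (t' i)) (η (t' i))) = hm (d j0) (y j0) ^ N := by
    have h3 := congrArg (fun z : R => (z : LP K)) hsum
    simp only [AddSubmonoidClass.coe_finsetSum, smul_eq_mul, MulMemClass.coe_mul] at h3
    refine Eq.trans ?_ h3
    refine Finset.sum_congr rfl fun i _ => ?_
    rw [← ht' i]
  have h5 : ∀ s : Finset (Fin m),
      (∑ i ∈ s, ((f i : R) : LP K) * hm (e (t' i)) (η (t' i))).coeff (N * d j0) =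
      ∑ i ∈ s, ((f i : R) : LP K).coeff (N * d j0 - e (t' i)) * η (t' i) := by
    intro s
    rw [AddMonoidAlgebra.coeff_sum, Finsupp.finsetSum_apply]
    refine Finset.sum_congr rfl fun i _ => ?_
    rw [mul_comm, coeff_hm_mul, mul_comm]
  have h4 := congrArg (fun z => z.coeff (N * d j0 : ℤ)) h2
  have h6 : (hm (d j0) (y j0) ^ N).coeff (N * d j0 : ℤ) = y j0 ^ N := by
    rw [hm_pow, coeff_hm_same]
  simp only [h6, h5] at h4
  have hex : ∃ i, v (y j0) ^ N ≤
      v (((f i : R) : LP K).coeff (N * d j0 - e (t' i)) * η (t' i)) := by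
    by_contra hcon
    push Not at hcon
    have h7 : v (∑ i, ((f i : R) : LP K).coeff (N * d j0 - e (t' i)) * η (t' i)) <
        v (y j0) ^ N := Valuation.map_sum_lt _ (pow_pos hpos N).ne' fun i _ => hcon i
    rw [h4, map_pow] at h7
    exact lt_irrefl _ h7
  obtain ⟨i, hi⟩ := hex
  set t0 := t' i with ht0
  have h8 := hval (f i).2 (N * d j0 - e t0)
  have h9 : v (y j0) ^ (e t0 : ℤ) ≤ v (η t0) ^ d j0 := by
    rw [map_mul] at hi
    have h10 := pow_le_pow_left' hi (d j0)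
    rw [mul_pow] at h10
    have h11 : v (y j0) ^ (N * d j0 - e t0 : ℤ) * v (y j0) ^ (e t0 : ℤ) ≤
        v (y j0) ^ (N * d j0 - e t0 : ℤ) * v (η t0) ^ d j0 := by
      rw [← zpow_add₀ hpos.ne', sub_add_cancel]
      have h12 : v (y j0) ^ (N * d j0 : ℤ) = (v (y j0) ^ N) ^ d j0 := by
        rw [← pow_mul, ← zpow_natCast]
        push_cast
        rfl
      rw [h12]
      exact h10.trans (mul_le_mul' h8 le_rfl)
    by_contra hcon
    rw [not_le] at hcon
    exact absurd h11 (not_le.2 (mul_lt_mul_of_pos_left hcon (zpow_pos hpos _)))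
  refine ⟨t0, d j0, v (y j0), (hy j0).1, hpos.ne', fun x hx m => hval hx m, ?_⟩
  refine le_antisymm ?_ h9
  have h10 := hval (hR t0) (e t0)
  rwa [coeff_hm_same] at h10

end cv

section atlas

variable {k C K : Type u} [Field k] [CommRing C] [IsDomain C] [Algebra k C] [Field K]
  [Algebra k K] {Λ : Type} [AddCommGroup Λ] [Fintype Λ] [DecidableEq Λ] {p : Λ → C →ₗ[k] C}
  (h : PG p) (g : C →ₐ[k] K) (hg : Function.Injective g) {q : Λ → K →ₗ[k] K} (hq : PG q)
  (hqg : ∀ i c, q i (g c) = g (p i c)) {F : ℕ → Ideal C} (hF : IsFilt F)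
  (hom : ∀ d, ∀ c ∈ F d, ∀ i, p i c ∈ F d) {L : Type} [AddCommGroup L] (π : L →+ Λ)

/-- The inclusion of the invariants. -/
noncomputable abbrev gz (h : PG p) (g : C →ₐ[k] K) : Dg.zr h →ₐ[k] K := g.comp (Dg.zr h).val

include hg hqg in
lemma exists_zr {η : K} (hη : q 0 η = η) {e : ℤ} (he : hm e η ∈ rG g hF) :
    ∃ a : Dg.zr h, (a : C) ∈ F e.toNat ∧ g a = η := by
  obtain ⟨b, hb, hgb⟩ := of_hm_mem_rG g hF he
  refine ⟨⟨b, ?_⟩, hb, hgb⟩
  change p 0 b = b
  apply hg
  rw [← hqg, hgb, hη]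

include hg hqg in
lemma mo_mem_SS' {η : K} (hη : q 0 η = η) {e : ℤ} (he : hm e η ∈ rG g hF) :
    mo ((e, 0) : ℤ × L) η ∈ SS h g hF π := by
  obtain ⟨a, ha, rfl⟩ := exists_zr h g hg hqg hF hη he
  refine mo_mem_SS h g hF π ha ?_
  rw [map_zero]
  exact a.2

include hg hq hqg hom in
/-- The atlas. -/
theorem ma_of_gens [AddMonoid.FG L] [Module.Projective ℤ π.ker]
    (hsup : ∀ i c, p i c = c → c ≠ 0 → i ∈ π.range) (hsup' : ∀ μ, ∃ c, c ≠ 0 ∧ p (π μ) c = c)
    (hG : GoodE g hF) (hne : F 1 ≠ ⊥) {T : Type u} [Fintype T] {e : T → ℕ} {η : T → K}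
    (he0 : ∀ t, 0 < e t) (hη0 : ∀ t, η t ≠ 0) (hη : ∀ t, q 0 (η t) = η t)
    (hR : ∀ t, hm (e t) (η t) ∈ rG g hF)
    (rad : ∀ (d : ℕ) (a : K) (h : hm d a ∈ rG g hF), 0 < d → ∃ N : ℕ,
      (⟨hm d a, h⟩ : rG g hF) ^ N ∈
        Ideal.span (Set.range fun t => (⟨hm (e t) (η t), hR t⟩ : rG g hF))) :
    MA (gz h g) ((∏ t, e t) * Fintype.card Λ)
      (fun t => lc (SS h g hF π) (mo ((e t, 0) : ℤ × L) (η t))
        (mo_mem_SS' h g hg hqg hF π (hη t) (hR t)))
      (fun t => η t ^ ((∏ t, e t) / e t)) := by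
  classical
  set E := ∏ t, e t with hE
  have hE0 : 0 < E := Finset.prod_pos fun t _ => he0 t
  have hdvd : ∀ t, e t ∣ E := fun t => Finset.dvd_prod_of_mem e (Finset.mem_univ t)
  have hEe : ∀ t, E / e t * e t = E := fun t => Nat.div_mul_cancel (hdvd t)
  have hEe0 : ∀ t, 0 < E / e t := fun t => Nat.div_pos (Nat.le_of_dvd hE0 (hdvd t)) (he0 t)
  have hxS : ∀ t, mo ((e t, 0) : ℤ × L) (η t) ∈ SS h g hF π := fun t =>
    mo_mem_SS' h g hg hqg hF π (hη t) (hR t)
  have hpowE : ∀ t, mo (((e t : ℤ), (0 : L)) : ℤ × L) (η t) ^ (E / e t) =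
      mo (((E : ℤ), (0 : L)) : ℤ × L) (η t ^ (E / e t)) := by
    intro t
    rw [mo_pow]
    congr 1
    ext
    · change (E / e t) • (e t : ℤ) = E
      rw [nsmul_eq_mul]
      exact_mod_cast hEe t
    · change (E / e t) • (0 : L) = 0
      rw [smul_zero]
  choose a haF ha using fun t => exists_zr h g hg hqg hF (hη t) (hR t)
  have hmz : ∀ x : K, (mo (0 : ℤ × L) x) = mo (((0 : ℤ), (0 : L)) : ℤ × L) x := fun _ => rfl
  have hz : ∀ c : Dg.zr h, mo (0 : ℤ × L) (g c) ∈ SS h g hF π := by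
    intro c
    refine mo_mem_SS h g hF π ?_ ?_
    · change (c : C) ∈ F 0
      rw [hF.zero]; trivial
    · rw [map_zero]; exact c.2
  refine { pa := ?_, sm := ?_ }
  · refine
      { H0 := fun t => pow_ne_zero _ (hη0 t)
        hA := fun t => ⟨a t ^ (E / e t), ?_⟩
        gr := fun t => ?_
        aa := fun t c => ⟨le_lc _ _ _ (hz c), trivial⟩
        Fi := fun _ _ _ _ => trivial
        rt := fun t t' => ⟨?_, trivial⟩
        gl := ?_
        dn := ?_
        cv := ?_
        E0 := Nat.mul_pos hE0 Fintype.card_pos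
        un := ?_
        gen := ?_ }
    · rw [map_pow]
      change _ = g (a t) ^ _
      rw [ha]
    · rw [inf_top_eq]
      exact gr_lc (gr_SS h g hF π) (hxS t)
    · refine ⟨E / e t, ?_⟩
      rw [hpowE, mo_mul, add_zero, mul_div_cancel₀ _ (pow_ne_zero _ (hη0 t)), ← hpowE]
      exact (SS h g hF π).pow_mem (hxS t') _
    · rintro t t' f ⟨⟨m, hm'⟩, -⟩
      refine ⟨m, E / e t * m, ?_⟩
      rw [pow_mul, hpowE, ← mul_assoc, ← mul_pow, mo_mul, add_zero,
        mul_div_cancel₀ _ (pow_ne_zero _ (hη0 t)), ← hpowE, ← pow_mul]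
      have h1 : E / e t' * m = (E / e t' - 1) * m + m := by
        obtain ⟨n, hn⟩ := Nat.exists_eq_succ_of_ne_zero (hEe0 t').ne'
        rw [hn]
        simp [Nat.succ_mul]
      rw [h1, pow_add, mul_assoc]
      exact (SS h g hF π).mul_mem ((SS h g hF π).pow_mem (hxS t') _) hm'
    · rintro t x ⟨⟨n, hn⟩, -⟩
      rw [mo_pow, mo_mul] at hn
      obtain ⟨c, -, hc, hgc⟩ := of_mo_mem_SS h g hF π hn
      have hc' : c ∈ Dg.zr h := by
        have h2 : π (n • (((e t : ℤ), (0 : L)) : ℤ × L) + 0).2 = 0 := by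
          change π (n • (0 : L) + 0) = 0
          rw [smul_zero, add_zero, map_zero]
        rwa [h2] at hc
      refine ⟨n, a t ^ ((E / e t - 1) * n) * ⟨c, hc'⟩, ?_⟩
      rw [map_mul, map_pow]
      change _ = g (a t) ^ _ * g c
      rw [ha, hgc, ← mul_assoc, ← pow_add, ← pow_mul]
      congr 2
      obtain ⟨n', hn'⟩ := Nat.exists_eq_succ_of_ne_zero (hEe0 t).ne'
      rw [hn']
      simp [Nat.succ_mul]
    · intro V hV
      have hVC : ∀ c, g c ∈ V := by
        intro c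
        have h1 : IsIntegral (Dg.zr h) c := h.isIntegral c
        obtain ⟨P, hP, hP0⟩ := h1
        have h2 : IsIntegral V (g c) := by
          let φ : Dg.zr h →+* V := (gz h g : Dg.zr h →+* K).codRestrict V.toSubring hV
          refine ⟨P.map φ, hP.map _, ?_⟩
          rw [Polynomial.eval₂_map]
          have h3 : (algebraMap V K).comp φ = (g : C →+* K).comp (algebraMap (Dg.zr h) C) := rfl
          rw [h3]
          have h4 := congrArg g hP0
          rw [map_zero] at h4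
          rw [← h4]
          exact (Polynomial.hom_eval₂ P (algebraMap (Dg.zr h) C) (g : C →+* K) c).symm
        obtain ⟨y, hy⟩ := IsIntegrallyClosed.isIntegral_iff.1 h2
        rw [← hy]
        exact y.2
      obtain ⟨t, D, γ, hD, hγ, hb, hγt⟩ := cv_aux (gB := g) hR
        (fun f hf d => by obtain ⟨b, -, hb⟩ := hf d; exact ⟨b, hb.symm⟩) hG.ft (gr_rG g hF) (by
          obtain ⟨b, hb, hb0⟩ := Submodule.exists_mem_ne_zero_of_ne_bot hne
          refine ⟨1, g b, one_pos, ?_, hm_mem_rG g hF (d := ((1 : ℕ) : ℤ)) (by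
            rw [Int.toNat_natCast]; exact hb)⟩
          intro h0
          exact hb0 ((map_eq_zero_iff g hg).1 h0)) rad V hVC
      refine ⟨t, D, fun m => γ ^ m.1, ?_⟩
      refine nrm_lc (ψ := fun m : ℤ × L => γ ^ m.1) ⟨hD, fun m => zpow_ne_zero _ hγ,
        fun m m' => zpow_add₀ hγ _ _, ?_⟩ _ hγt
      intro f hf m
      obtain ⟨c, hc, -, hgc⟩ := hf m
      rw [← hgc]
      have h1 := hb _ (hm_mem_rG g hF hc) m.1
      rwa [coeff_hm_same] at h1
    · rintro t ⟨d, μ⟩
      have hu : ∀ μ' : L, mo (((0 : ℤ), (E * Fintype.card Λ) • μ') : ℤ × L) (1 : K) ∈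
          SS h g hF π := by
        intro μ'
        rw [← map_one g]
        refine mo_mem_SS h g hF π ?_ ?_
        · change (1 : C) ∈ F 0
          rw [hF.zero]; trivial
        · rw [map_nsmul, mul_comm, mul_nsmul, card_nsmul_eq_zero, smul_zero, h.one]
      have hinv : mo (-((e t : ℤ), (0 : L)) : ℤ × L) (η t)⁻¹ ∈
          lc (SS h g hF π) (mo ((e t, 0) : ℤ × L) (η t)) (hxS t) :=
        inv_mem_lc _ _ _ _ (mo_inv (hη0 t))
      have hz1 := zpow_mem' (le_lc _ _ (hxS t) (hxS t)) hinv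
        (((E / e t * Fintype.card Λ : ℕ) : ℤ) * d)
      have hz2 := zpow_mem' (le_lc _ _ (hxS t) (hxS t)) hinv
        (-(((E / e t * Fintype.card Λ : ℕ) : ℤ) * d))
      have e1 : (((E / e t * Fintype.card Λ : ℕ) : ℤ) * d) • (((e t : ℤ), (0 : L)) : ℤ × L) =
          (((E * Fintype.card Λ : ℕ) : ℤ) * d, 0) := by
        ext
        · change (((E / e t * Fintype.card Λ : ℕ) : ℤ) * d) * (e t : ℤ) =
            ((E * Fintype.card Λ : ℕ) : ℤ) * d
          have h3 : ((E / e t * Fintype.card Λ : ℕ) : ℤ) * (e t : ℤ) =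
              ((E * Fintype.card Λ : ℕ) : ℤ) := by
            rw [← Nat.cast_mul, mul_right_comm, hEe t]
          rw [← h3, mul_right_comm]
        · change (((E / e t * Fintype.card Λ : ℕ) : ℤ) * d) • (0 : L) = 0
          rw [smul_zero]
      refine ⟨η t ^ (((E / e t * Fintype.card Λ : ℕ) : ℤ) * d),
        zpow_ne_zero _ (hη0 t), ⟨?_, trivial⟩, ⟨?_, trivial⟩⟩
      · have h1 := Subalgebra.mul_mem _ hz1 (le_lc _ _ (hxS t) (hu μ))
        rw [mo_mul, mul_one, e1] at h1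
        have h2 : (E * Fintype.card Λ) • ((d, μ) : ℤ × L) =
            ((((E * Fintype.card Λ : ℕ) : ℤ) * d, 0) + (0, (E * Fintype.card Λ) • μ)) := by
          ext
          · change (E * Fintype.card Λ) • d = _ + 0
            rw [nsmul_eq_mul, add_zero]
          · change (E * Fintype.card Λ) • μ = 0 + _
            rw [zero_add]
        rw [h2]
        exact h1
      · have h1 := Subalgebra.mul_mem _ hz2 (le_lc _ _ (hxS t) (hu (-μ)))
        rw [mo_mul, mul_one, neg_smul, e1, zpow_neg] at h1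
        have h2 : -((E * Fintype.card Λ) • ((d, μ) : ℤ × L)) =
            (-(((E * Fintype.card Λ : ℕ) : ℤ) * d, (0 : L)) + (0, (E * Fintype.card Λ) • (-μ))) := by
          ext
          · change -((E * Fintype.card Λ) • d) = -_ + 0
            rw [nsmul_eq_mul, add_zero]
          · change -((E * Fintype.card Λ) • μ) = -0 + _
            rw [neg_zero, zero_add, smul_neg]
        rw [h2]
        exact h1
    · intro t
      rw [eq_top_iff]
      set W := AddSubgroup.closure {m : ℤ × L | ∃ a : K, a ≠ 0 ∧ mo m a ∈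
        lc (SS h g hF π) (mo ((e t, 0) : ℤ × L) (η t)) (hxS t) ⊓ (⊤ : Subalgebra k _)} with hW
      have h1 : ((-1, 0) : ℤ × L) ∈ W := by
        refine AddSubgroup.subset_closure ⟨1, one_ne_zero, le_lc _ _ _ ?_, trivial⟩
        rw [← map_one g]
        refine mo_mem_SS h g hF π ?_ ?_
        · change (1 : C) ∈ F 0
          rw [hF.zero]; trivial
        · rw [map_zero, h.one]
      have h2 : ∀ μ : L, ((0, μ) : ℤ × L) ∈ W := by
        intro μ
        obtain ⟨c, hc0, hc⟩ := hsup' μ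
        refine AddSubgroup.subset_closure ⟨g c, ?_, le_lc _ _ _ ?_, trivial⟩
        · intro h0
          exact hc0 ((map_eq_zero_iff g hg).1 h0)
        · refine mo_mem_SS h g hF π ?_ hc
          change c ∈ F 0
          rw [hF.zero]; trivial
      rintro ⟨d, μ⟩ -
      have h3 : ((d, μ) : ℤ × L) = (-d) • (-1, 0) + (0, μ) := by
        ext
        · change d = (-d) * (-1) + 0
          ring
        · change μ = (-d) • (0 : L) + μ
          rw [smul_zero, zero_add]
      rw [h3]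
      exact W.add_mem (W.zsmul_mem h1 _) (h2 μ)
  · intro t
    exact smooth_lc_SS h g hg hq hqg hF hom π hsup (hη t) (hη0 t) (hR t)
      (hG.sm (e t) (η t) (hR t) (he0 t) (hη0 t)) (hxS t)

end atlas

end Pool.Agent.Y177.Dg
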