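import Pool.Agent.Y177.Dg.Des
import Pool.Agent.W559.Mg.A7
import Pool.Agent.H519R3.RS.Clo

/-! The charts of the quotient by a diagonalizable group. -/

set_option autoImplicit false
set_option linter.unusedSectionVars false

universe u v

namespace Pool.Agent.Y177.Dg

open AddMonoidAlgebra Pool.Agent.H920R2 Pool.Agent.H519R3.RS Pool.Agent.W559.Mg

section ft

variable {k : Type u} {R : Type u} [Field k] [CommRing R] [Algebra k R] {Λ : Type}
  [AddCommGroup Λ] [Fintype Λ] [DecidableEq Λ] {p : Λ → R →ₗ[k] R} (h : PG p) {L : Type}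
  [AddCommGroup L] (π : L →+ Λ)

lemma isIntegral_tw (x : AddMonoidAlgebra R L) : IsIntegral (tw h π) x := by
  rw [← AddMonoidAlgebra.sum_coeff_single x]
  refine IsIntegral.sum _ fun μ _ => ?_
  have h1 : single μ (x.coeff μ) = ∑ i, (single μ (p i (x.coeff μ)) : AddMonoidAlgebra R L) := by
    conv_lhs => rw [← h.sum (x.coeff μ)]
    exact map_sum (AddMonoidAlgebra.singleAddHom μ) _ _
  rw [h1]
  refine IsIntegral.sum _ fun i _ => ?_
  refine IsIntegral.of_pow (n := Fintype.card Λ) Fintype.card_pos ?_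
  have h2 : (single μ (p i (x.coeff μ)) : AddMonoidAlgebra R L) ^ Fintype.card Λ ∈ tw h π := by
    rw [AddMonoidAlgebra.single_pow]
    refine single_mem_tw ?_
    rw [map_nsmul, card_nsmul_eq_zero]
    exact h.pow_zr (h.idem i _)
  exact isIntegral_algebraMap (x := (⟨_, h2⟩ : tw h π))

lemma finiteType_tw [Algebra.FiniteType k R] [AddMonoid.FG L] :
    Algebra.FiniteType k (tw h π) := by
  have h1 : Algebra.FiniteType R (AddMonoidAlgebra R L) := AddMonoidAlgebra.finiteType_of_fg R L
  have h2 : Algebra.FiniteType k (AddMonoidAlgebra R L) := Algebra.FiniteType.trans ‹_› h1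
  have h3 : Algebra.FiniteType (tw h π) (AddMonoidAlgebra R L) :=
    Algebra.FiniteType.of_restrictScalars_finiteType k _ _
  have h4 : Algebra.IsIntegral (tw h π) (AddMonoidAlgebra R L) := ⟨isIntegral_tw h π⟩
  have h5 : Module.Finite (tw h π) (AddMonoidAlgebra R L) := Algebra.IsIntegral.finite
  exact ⟨fg_of_fg_of_fg k (tw h π) (AddMonoidAlgebra R L) h2.out h5.fg_top
    Subtype.val_injective⟩

theorem smooth_tw [Algebra.Smooth k R] [AddMonoid.FG L] [Module.Projective ℤ π.ker]
    (hsup : ∀ i x, p i x = x → x ≠ 0 → i ∈ π.range) : Algebra.Smooth k (tw h π) := by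
  have h1 := finiteType_tw h π
  exact { formallySmooth := formallySmooth_tw h π hsup
          finitePresentation := Algebra.FinitePresentation.of_finiteType.1 h1 }

end ft

section res

variable {k : Type u} {A : Type v} [Field k] [CommRing A] [Algebra k A] {Λ : Type}
  [AddCommGroup Λ] [Fintype Λ] [DecidableEq Λ] {P : Λ → A →ₗ[k] A} (h : PG P)
  (B : Subalgebra k A) (hB : ∀ i, ∀ x ∈ B, P i x ∈ B)

/-- The restriction of a linear map to a stable subalgebra. -/
def rs (f : A →ₗ[k] A) (B : Subalgebra k A) (hB : ∀ x ∈ B, f x ∈ B) : B →ₗ[k] B where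
  toFun x := ⟨f x, hB x x.2⟩
  map_add' _ _ := Subtype.ext (map_add f _ _)
  map_smul' _ _ := Subtype.ext (map_smul f _ _)

lemma coe_rs (f : A →ₗ[k] A) (B : Subalgebra k A) (hB : ∀ x ∈ B, f x ∈ B) (x : B) :
    ((rs f B hB x : B) : A) = f x := rfl

include h in
lemma PG.res : PG (fun i => rs (P i) B (hB i)) where
  sum x := by
    apply Subtype.ext
    rw [AddSubmonoidClass.coe_finsetSum]
    exact h.sum x
  orth i j x := by
    apply Subtype.ext
    change P i (P j x) = _
    rw [h.orth]
    split_ifs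
    · rfl
    · rfl
  mul i j x y hx hy := Subtype.ext (h.mul i j x y (congrArg Subtype.val hx)
    (congrArg Subtype.val hy))

end res

section PL

variable {k K : Type u} [Field k] [Field K] [Algebra k K] {Λ : Type}
  [AddCommGroup Λ] [Fintype Λ] [DecidableEq Λ] {q : Λ → K →ₗ[k] K} (h : PG q)
  {M : Type} [AddCommGroup M]

/-- The componentwise projection. -/
noncomputable def PL (M : Type) (f : K →ₗ[k] K) :
    AddMonoidAlgebra K M →ₗ[k] AddMonoidAlgebra K M where
  toFun x := .ofCoeff (x.coeff.mapRange f (map_zero f))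
  map_add' x y := by
    apply AddMonoidAlgebra.coeff_injective
    ext m
    change f ((x + y).coeff m) = f (x.coeff m) + f (y.coeff m)
    rw [AddMonoidAlgebra.coeff_add, Finsupp.add_apply, map_add]
  map_smul' c x := by
    apply AddMonoidAlgebra.coeff_injective
    ext m
    change f ((c • x).coeff m) = c • f (x.coeff m)
    rw [AddMonoidAlgebra.coeff_smul_apply, map_smul]

lemma coeff_PL (f : K →ₗ[k] K) (x : AddMonoidAlgebra K M) (m : M) :
    (PL M f x).coeff m = f (x.coeff m) := rfl

include h in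
lemma pg_PL : PG fun i => PL M (q i) where
  sum x := by
    apply AddMonoidAlgebra.coeff_injective
    ext m
    rw [AddMonoidAlgebra.coeff_sum, Finsupp.finsetSum_apply]
    exact h.sum _
  orth i j x := by
    apply AddMonoidAlgebra.coeff_injective
    ext m
    rw [coeff_PL, coeff_PL, h.orth]
    split_ifs
    · rfl
    · rfl
  mul i j x y hx hy := by
    apply AddMonoidAlgebra.coeff_injective
    ext m
    rw [coeff_PL, AddMonoidAlgebra.coeff_mul_apply_left, Finsupp.sum, map_sum]
    refine Finset.sum_congr rfl fun ν _ => ?_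
    refine h.mul _ _ _ _ ?_ ?_
    · have h1 := congrArg (fun z => z.coeff ν) hx
      exact h1
    · have h1 := congrArg (fun z => z.coeff (-ν + m)) hy
      exact h1

end PL

section chart

variable {k C K : Type u} [Field k] [CommRing C] [IsDomain C] [Algebra k C] [Field K]
  [Algebra k K] {Λ : Type} [AddCommGroup Λ] [Fintype Λ] [DecidableEq Λ] {p : Λ → C →ₗ[k] C}
  (h : PG p) (g : C →ₐ[k] K) (hg : Function.Injective g) {q : Λ → K →ₗ[k] K} (hq : PG q)
  (hqg : ∀ i c, q i (g c) = g (p i c)) {F : ℕ → Ideal C} (hF : IsFilt F)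
  (hom : ∀ d, ∀ c ∈ F d, ∀ i, p i c ∈ F d) {L : Type} [AddCommGroup L] (π : L →+ Λ)

/-- The multigraded extended Rees algebra. -/
noncomputable def SS (h : PG p) (g : C →ₐ[k] K) (hF : IsFilt F) (π : L →+ Λ) :
    Subalgebra k (ML K (ℤ × L)) where
  carrier := {f | ∀ m : ℤ × L, ∃ c ∈ F m.1.toNat, p (π m.2) c = c ∧ g c = f.coeff m}
  mul_mem' := by
    intro f f' hf hf' m
    choose c hc hcp hcg using hf
    choose c' hc' hcp' hcg' using hf'
    refine ⟨f.coeff.sum fun m' _ => c m' * c' (-m' + m), ?_, ?_, ?_⟩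
    · refine Ideal.sum_mem _ fun m' _ => ?_
      refine hF.anti _ _ ?_ (hF.mul _ _ (Ideal.mul_mem_mul (hc m') (hc' (-m' + m))))
      change m.1.toNat ≤ m'.1.toNat + (-m'.1 + m.1).toNat
      omega
    · rw [Finsupp.sum, map_sum]
      refine Finset.sum_congr rfl fun m' _ => ?_
      have h1 := h.mul _ _ _ _ (hcp m') (hcp' (-m' + m))
      rw [← map_add] at h1
      have h2 : m'.2 + (-m' + m).2 = m.2 := by
        change m'.2 + (-m'.2 + m.2) = m.2
        abel
      rwa [h2] at h1
    · rw [AddMonoidAlgebra.coeff_mul_apply_left, Finsupp.sum, Finsupp.sum, map_sum]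
      refine Finset.sum_congr rfl fun m' _ => ?_
      rw [map_mul, hcg, hcg']
  add_mem' := by
    intro f f' hf hf' m
    obtain ⟨c, hc, hcp, hcg⟩ := hf m
    obtain ⟨c', hc', hcp', hcg'⟩ := hf' m
    refine ⟨c + c', Ideal.add_mem _ hc hc', by rw [map_add, hcp, hcp'], ?_⟩
    rw [map_add, hcg, hcg', AddMonoidAlgebra.coeff_add, Finsupp.add_apply]
  algebraMap_mem' := by
    classical
    intro r m
    rw [algebraMap_ML, coeff_mo]
    split_ifs with h1
    · subst h1
      refine ⟨algebraMap k C r, ?_, ?_, AlgHom.commutes _ _⟩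
      · change _ ∈ F 0
        rw [hF.zero]; trivial
      · change p (π 0) _ = _
        rw [map_zero, Algebra.algebraMap_eq_smul_one, map_smul, h.one]
    · exact ⟨0, Ideal.zero_mem _, map_zero _, map_zero _⟩

lemma mem_SS {f : ML K (ℤ × L)} : f ∈ SS h g hF π ↔
    ∀ m : ℤ × L, ∃ c ∈ F m.1.toNat, p (π m.2) c = c ∧ g c = f.coeff m := Iff.rfl

lemma mo_mem_SS {d : ℤ} {μ : L} {c : C} (hc : c ∈ F d.toNat) (hp : p (π μ) c = c) :
    mo (d, μ) (g c) ∈ SS h g hF π := by
  classical
  intro m
  rw [coeff_mo]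
  split_ifs with h1
  · subst h1
    exact ⟨c, hc, hp, rfl⟩
  · exact ⟨0, Ideal.zero_mem _, map_zero _, map_zero _⟩

lemma of_mo_mem_SS {m : ℤ × L} {x : K} (hx : mo m x ∈ SS h g hF π) :
    ∃ c ∈ F m.1.toNat, p (π m.2) c = c ∧ g c = x := by
  obtain ⟨c, hc, hp, hgc⟩ := hx m
  rw [coeff_mo_same] at hgc
  exact ⟨c, hc, hp, hgc⟩

lemma gr_SS : Pool.Agent.W559.Mg.Gr (SS h g hF π) := by
  intro f hf m
  obtain ⟨c, hc, hp, hgc⟩ := hf m
  rw [← hgc]
  exact mo_mem_SS h g hF π hc hp

/-- The inclusion of the Laurent polynomials in one variable. -/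
noncomputable def iL (k K : Type u) [Field k] [Field K] [Algebra k K] (L : Type)
    [AddCommGroup L] : LP K →ₐ[k] ML K (ℤ × L) :=
  AddMonoidAlgebra.mapDomainAlgHom k K (AddMonoidHom.inl ℤ L)

lemma coeff_iL [DecidableEq L] (r : LP K) (d : ℤ) (μ : L) : (iL k K L r).coeff (d, μ) =
    if μ = 0 then r.coeff d else 0 := by
  induction r using AddMonoidAlgebra.induction_linear with
  | zero =>
    rw [map_zero]
    simp
  | add a b ha hb =>
    rw [map_add, AddMonoidAlgebra.coeff_add, Finsupp.add_apply, ha, hb, AddMonoidAlgebra.coeff_add,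
      Finsupp.add_apply]
    split_ifs
    · rfl
    · rw [add_zero]
  | single e a =>
    have h1 : iL k K L (single e a) = single (e, 0) a :=
      AddMonoidAlgebra.mapDomain_single
    rw [h1, coeff_single, coeff_single, Finsupp.single_apply, Finsupp.single_apply]
    by_cases h2 : μ = 0
    · subst h2
      simp
    · rw [if_neg h2, if_neg]
      intro h3
      exact h2 (congrArg Prod.snd h3).symm

variable (Rt : Subalgebra k (LP K))

/-- The comparison map. -/
noncomputable def Th (L : Type) [AddCommGroup L] (Rt : Subalgebra k (LP K)) :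
    AddMonoidAlgebra Rt L →ₐ[k] ML K (ℤ × L) :=
  AddMonoidAlgebra.liftNCAlgHom ((iL k K L).comp Rt.val)
    { toFun := fun μ => mo (0, μ.toAdd) 1
      map_one' := rfl
      map_mul' := fun a b => by
        rw [mo_mul, one_mul]
        rfl } fun _ _ => Commute.all _ _

lemma coeff_Th (f : AddMonoidAlgebra Rt L) (d : ℤ) (μ : L) :
    (Th L Rt f).coeff (d, μ) = ((f.coeff μ : Rt) : LP K).coeff d := by
  classical
  induction f using AddMonoidAlgebra.induction_linear with
  | zero =>
    rw [map_zero]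
    rfl
  | add a b ha hb =>
    rw [map_add, AddMonoidAlgebra.coeff_add, Finsupp.add_apply, ha, hb, AddMonoidAlgebra.coeff_add,
      Finsupp.add_apply]
    rfl
  | single ν r =>
    have h1 : Th L Rt (single ν r) = iL k K L r * mo (0, ν) 1 :=
      AddMonoidAlgebra.liftNC_single _ _ _ _
    have h2 : (iL k K L (r : LP K) * mo (0, ν) 1).coeff (d, μ) =
        (iL k K L (r : LP K)).coeff (d, μ - ν) := by
      unfold mo
      rw [AddMonoidAlgebra.coeff_mul_single_apply, mul_one]
      congr 1
      ext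
      · change d + -0 = d
        rw [neg_zero, add_zero]
      · change μ + -ν = μ - ν
        rw [sub_eq_add_neg]
    rw [h1, h2, coeff_iL, coeff_single, Finsupp.single_apply]
    by_cases h3 : ν = μ
    · subst h3
      rw [sub_self, if_pos rfl, if_pos rfl]
    · rw [if_neg (fun h4 => h3 (sub_eq_zero.1 h4).symm), if_neg h3]
      rfl

lemma Th_injective : Function.Injective (Th L Rt) := by
  rw [injective_iff_map_eq_zero]
  intro f hf
  apply AddMonoidAlgebra.coeff_injective
  ext μ : 1
  apply Subtype.ext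
  apply AddMonoidAlgebra.coeff_injective
  ext d : 1
  rw [← coeff_Th, hf]
  rfl

end chart

end Pool.Agent.Y177.Dg
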