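import Pool.Agent.Y177.Dg.Cht

/-! The charts of the quotient by a diagonalizable group are smooth. -/

set_option autoImplicit false
set_option linter.unusedSectionVars false

universe u v

namespace Pool.Agent.Y177.Dg

open AddMonoidAlgebra Pool.Agent.H920R2 Pool.Agent.H519R3.RS Pool.Agent.W559.Mg

section chart

variable {k C K : Type u} [Field k] [CommRing C] [IsDomain C] [Algebra k C] [Field K]
  [Algebra k K] {Λ : Type} [AddCommGroup Λ] [Fintype Λ] [DecidableEq Λ] {p : Λ → C →ₗ[k] C}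
  (h : PG p) (g : C →ₐ[k] K) (hg : Function.Injective g) {q : Λ → K →ₗ[k] K} (hq : PG q)
  (hqg : ∀ i c, q i (g c) = g (p i c)) {F : ℕ → Ideal C} (hF : IsFilt F)
  (hom : ∀ d, ∀ c ∈ F d, ∀ i, p i c ∈ F d) {L : Type} [AddCommGroup L] (π : L →+ Λ)

include hqg hom in
lemma PL_rG (i : Λ) : ∀ x ∈ rG g hF, PL ℤ (q i) x ∈ rG g hF := by
  intro x hx d
  obtain ⟨b, hb, hgb⟩ := hx d
  refine ⟨p i b, hom _ _ hb i, ?_⟩
  rw [coeff_PL, ← hgb, hqg]

include hq in
lemma q_pow {η : K} (hη : q 0 η = η) (n : ℕ) : q 0 (η ^ n) = η ^ n :=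
  (Dg.zr hq).pow_mem (show η ∈ Dg.zr hq from hη) n

lemma PL_hm (f : K →ₗ[k] K) (d : ℤ) (a : K) : PL ℤ f (hm d a) = hm d (f a) := by
  apply AddMonoidAlgebra.coeff_injective
  ext e
  rw [coeff_PL, coeff_hm, coeff_hm]
  split_ifs
  · rfl
  · rw [map_zero]

include hq in
lemma PL_pow_mul {η : K} (hη : q 0 η = η) (e : ℤ) (i : Λ) (n : ℕ) (x : LP K) :
    PL ℤ (q i) (hm e η ^ n * x) = hm e η ^ n * PL ℤ (q i) x := by
  refine (pg_PL hq (M := ℤ)).mul0 ?_ i x
  rw [hm_pow, PL_hm, q_pow hq hη]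

include hq hqg hom in
lemma PL_loc {η : K} (hη : q 0 η = η) {e : ℤ} (he : hm e η ∈ rG g hF) (i : Λ) :
    ∀ x ∈ loc (rG g hF) (hm e η) he, PL ℤ (q i) x ∈ loc (rG g hF) (hm e η) he := by
  rintro x ⟨n, hn⟩
  refine ⟨n, ?_⟩
  rw [← PL_pow_mul hq hη]
  exact PL_rG g hqg hF hom i _ hn

/-- The grading of the charts. -/
lemma pgRt {η : K} (hη : q 0 η = η) {e : ℤ} (he : hm e η ∈ rG g hF) :
    PG fun i => rs (PL ℤ (q i)) (loc (rG g hF) (hm e η) he) (PL_loc g hq hqg hF hom hη he i) :=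
  (pg_PL hq).res _ _

include hg in
lemma hsup_Rt {η : K} (hη : q 0 η = η) (hη0 : η ≠ 0) {e : ℤ} (he : hm e η ∈ rG g hF)
    (hsup : ∀ i c, p i c = c → c ≠ 0 → i ∈ π.range) (i : Λ)
    (x : loc (rG g hF) (hm e η) he)
    (hx : rs (PL ℤ (q i)) (loc (rG g hF) (hm e η) he) (PL_loc g hq hqg hF hom hη he i) x = x)
    (hx0 : x ≠ 0) : i ∈ π.range := by
  have h1 : PL ℤ (q i) (x : LP K) = x := congrArg Subtype.val hx
  obtain ⟨n, hn⟩ := x.2
  obtain ⟨d, hd⟩ : ∃ d, ((x : LP K)).coeff d ≠ 0 := by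
    by_contra hcon
    push Not at hcon
    apply hx0
    apply Subtype.ext
    apply AddMonoidAlgebra.coeff_injective
    ext d
    exact hcon d
  obtain ⟨c, -, hc⟩ := hn (n * e + d)
  rw [hm_pow, coeff_hm_mul, add_sub_cancel_left] at hc
  refine hsup i c ?_ ?_
  · apply hg
    have h2 : q i ((x : LP K).coeff d) = (x : LP K).coeff d := by
      conv_rhs => rw [← h1]
      rfl
    rw [← hqg, hc, hq.mul0 (q_pow hq hη n), h2]
  · intro h0
    rw [h0, map_zero] at hc
    exact mul_ne_zero (pow_ne_zero _ hη0) hd hc.symm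

/-- A slice of an element. -/
noncomputable def sl (f : ML K (ℤ × L)) (μ : L) : LP K :=
  .ofCoeff (f.coeff.comapDomain (fun d : ℤ => (d, μ)) (fun _ _ _ _ hab => congrArg Prod.fst hab))

lemma coeff_sl (f : ML K (ℤ × L)) (μ : L) (d : ℤ) : (sl f μ).coeff d = f.coeff (d, μ) := rfl

lemma coeff_mo_pow_mul (e d : ℤ) (μ : L) (η : K) (n : ℕ) (f : ML K (ℤ × L)) :
    (mo ((e, 0) : ℤ × L) η ^ n * f).coeff (d, μ) = η ^ n * f.coeff (d - n * e, μ) := by
  rw [mo_pow, coeff_mo_mul]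
  congr 2
  ext
  · change d - n • e = _
    rw [nsmul_eq_mul]
  · change μ - n • (0 : L) = _
    rw [smul_zero, sub_zero]

lemma coeff_hm_pow_mul (e d : ℤ) (η : K) (n : ℕ) (f : LP K) :
    (hm e η ^ n * f).coeff d = η ^ n * f.coeff (d - n * e) := by
  rw [hm_pow, coeff_hm_mul]

include hg in
/-- The chart. -/
theorem lc_SS_eq {η : K} (hη : q 0 η = η) (hη0 : η ≠ 0) {e : ℤ} (he : hm e η ∈ rG g hF)
    (hx : mo ((e, 0) : ℤ × L) η ∈ SS h g hF π) :
    lc (SS h g hF π) (mo ((e, 0) : ℤ × L) η) hx =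
      (tw (pgRt g hq hqg hF hom hη he) π).map (Th L (loc (rG g hF) (hm e η) he)) := by
  classical
  apply le_antisymm
  · rintro f ⟨n, hn⟩
    have h1 : ∀ μ, sl f μ ∈ loc (rG g hF) (hm e η) he := by
      intro μ
      refine ⟨n, ?_⟩
      intro d
      obtain ⟨c, hc, -, hgc⟩ := hn (d, μ)
      refine ⟨c, hc, ?_⟩
      rw [hgc, coeff_mo_pow_mul, coeff_hm_pow_mul, coeff_sl]
    let f' : AddMonoidAlgebra (loc (rG g hF) (hm e η) he) L :=
      ∑ μ ∈ f.coeff.support.image Prod.snd, single μ ⟨sl f μ, h1 μ⟩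
    have h2 : ∀ μ, ((f'.coeff μ : loc (rG g hF) (hm e η) he) : LP K) = sl f μ := by
      intro μ
      have h3 : f'.coeff μ = if μ ∈ f.coeff.support.image Prod.snd then
          (⟨sl f μ, h1 μ⟩ : loc (rG g hF) (hm e η) he) else 0 := by
        change (∑ μ ∈ f.coeff.support.image Prod.snd, single μ _ : AddMonoidAlgebra _ L).coeff μ = _
        rw [AddMonoidAlgebra.coeff_sum, Finsupp.finsetSum_apply]
        simp_rw [coeff_single, Finsupp.single_apply]
        rw [Finset.sum_ite_eq']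
      rw [h3]
      split_ifs with h4
      · rfl
      · apply AddMonoidAlgebra.coeff_injective
        ext d
        rw [coeff_sl]
        by_contra h5
        apply h4
        rw [Finset.mem_image]
        refine ⟨(d, μ), ?_, rfl⟩
        rw [Finsupp.mem_support_iff]
        intro h6
        apply h5
        rw [h6]
        rfl
    refine ⟨f', ?_, ?_⟩
    · intro μ
      apply Subtype.ext
      change PL ℤ (q (π μ)) ((f'.coeff μ : loc (rG g hF) (hm e η) he) : LP K) = _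
      rw [h2]
      apply AddMonoidAlgebra.coeff_injective
      ext d
      rw [coeff_PL, coeff_sl]
      obtain ⟨c, hc, hp, hgc⟩ := hn (n * e + d, μ)
      rw [coeff_mo_pow_mul, add_sub_cancel_left] at hgc
      apply mul_left_cancel₀ (pow_ne_zero n hη0)
      rw [← hq.mul0 (q_pow hq hη n), ← hgc, hqg, hp]
    · apply AddMonoidAlgebra.coeff_injective
      ext ⟨d, μ⟩
      change (Th L (loc (rG g hF) (hm e η) he) f').coeff (d, μ) = _
      rw [coeff_Th, h2, coeff_sl]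
  · rintro _ ⟨f, hf, rfl⟩
    have h1 : Th L (loc (rG g hF) (hm e η) he) f = ∑ μ ∈ f.coeff.support,
        Th L (loc (rG g hF) (hm e η) he) (single μ (f.coeff μ)) := by
      rw [← map_sum]
      congr 1
      exact (AddMonoidAlgebra.sum_coeff_single f).symm
    change Th L (loc (rG g hF) (hm e η) he) f ∈ _
    rw [h1]
    refine Subalgebra.sum_mem _ fun μ _ => ?_
    have hr : PL ℤ (q (π μ)) ((f.coeff μ : loc (rG g hF) (hm e η) he) : LP K) = f.coeff μ :=
      congrArg Subtype.val (hf μ)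
    generalize f.coeff μ = r at hr
    obtain ⟨n, hn⟩ := r.2
    refine ⟨n, ?_⟩
    rintro ⟨d, ν⟩
    rw [coeff_mo_pow_mul, coeff_Th, coeff_single, Finsupp.single_apply]
    by_cases h3 : μ = ν
    · subst h3
      rw [if_pos rfl]
      obtain ⟨c, hc, hgc⟩ := hn d
      rw [coeff_hm_pow_mul] at hgc
      refine ⟨c, hc, ?_, hgc⟩
      apply hg
      rw [← hqg, hgc, hq.mul0 (q_pow hq hη n)]
      congr 1
      conv_rhs => rw [← hr]
      rfl
    · rw [if_neg h3]
      refine ⟨0, Ideal.zero_mem _, map_zero _, ?_⟩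
      rw [map_zero]
      change 0 = η ^ n * (0 : LP K).coeff _
      simp

include hg hq hqg hom in
/-- The charts are smooth. -/
theorem smooth_lc_SS [AddMonoid.FG L] [Module.Projective ℤ π.ker]
    (hsup : ∀ i c, p i c = c → c ≠ 0 → i ∈ π.range) {η : K} (hη : q 0 η = η) (hη0 : η ≠ 0)
    {e : ℤ} (he : hm e η ∈ rG g hF) (hsm : Algebra.Smooth k (loc (rG g hF) (hm e η) he))
    (hx : mo ((e, 0) : ℤ × L) η ∈ SS h g hF π) :
    Algebra.Smooth k (lc (SS h g hF π) (mo ((e, 0) : ℤ × L) η) hx) := by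
  rw [lc_SS_eq h g hg hq hqg hF hom π hη hη0 he hx]
  have h1 := smooth_tw (pgRt g hq hqg hF hom hη he) π
    (hsup_Rt g hg hq hqg hF hom π hη hη0 he hsup)
  exact Algebra.Smooth.of_equiv ((tw (pgRt g hq hqg hF hom hη he) π).equivMapOfInjective _
    (Th_injective _))

end chart

end Pool.Agent.Y177.Dg
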