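import Pool.Agent.Y177.Dg.PG

/-! Descent of formal smoothness along torsors under diagonalizable groups. -/

set_option autoImplicit false
set_option linter.unusedSectionVars false

universe u v

namespace Pool.Agent.Y177.Dg

open AddMonoidAlgebra

section tw

variable {k : Type u} {R : Type u} [Field k] [CommRing R] [Algebra k R] {Λ : Type}
  [AddCommGroup Λ] [Fintype Λ] [DecidableEq Λ] {p : Λ → R →ₗ[k] R} (h : PG p) {L : Type}
  [AddCommGroup L] (π : L →+ Λ)

/-- The twisted algebra of Laurent polynomials. -/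
noncomputable def tw (h : PG p) (π : L →+ Λ) : Subalgebra k (AddMonoidAlgebra R L) where
  carrier := {f | ∀ μ, p (π μ) (f.coeff μ) = f.coeff μ}
  mul_mem' := by
    intro f g hf hg μ
    rw [AddMonoidAlgebra.coeff_mul_apply_left, Finsupp.sum, map_sum]
    refine Finset.sum_congr rfl fun ν _ => ?_
    have h1 := h.mul _ _ _ _ (hf ν) (hg (-ν + μ))
    rwa [← map_add, add_neg_cancel_left] at h1
  add_mem' := by
    intro f g hf hg μ
    rw [AddMonoidAlgebra.coeff_add, Finsupp.add_apply, map_add, hf, hg]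
  algebraMap_mem' := by
    intro c μ
    have h1 : (algebraMap k (AddMonoidAlgebra R L)) c = single 0 (algebraMap k R c) := rfl
    classical
    rw [h1, coeff_single, Finsupp.single_apply]
    split_ifs with h2
    · rw [← h2, map_zero, Algebra.algebraMap_eq_smul_one, map_smul, h.one]
    · rw [map_zero]

variable {h π}

lemma mem_tw {f : AddMonoidAlgebra R L} : f ∈ tw h π ↔ ∀ μ, p (π μ) (f.coeff μ) = f.coeff μ :=
  Iff.rfl

lemma single_mem_tw {μ : L} {r : R} (hr : p (π μ) r = r) : single μ r ∈ tw h π := by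
  classical
  intro ν
  rw [coeff_single, Finsupp.single_apply]
  split_ifs with h2
  · rw [← h2, hr]
  · rw [map_zero]

end tw

section DD

variable {D : Type u} [CommRing D] {Λ : Type} [AddCommGroup Λ] {L : Type}
  [AddCommGroup L] (π : L →+ Λ) (ũ : π.ker → D)

/-- The relations. -/
noncomputable def JJ : Ideal (AddMonoidAlgebra D L) :=
  Ideal.span {y | ∃ κ : π.ker, y = single (κ : L) 1 - single 0 (ũ κ)}

open Classical in
/-- The weight of a monomial. -/
noncomputable def wt (μ : L) : D := if h : μ ∈ π.ker then ũ ⟨μ, h⟩ else 0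

/-- The projection. -/
noncomputable def pr0 : AddMonoidAlgebra D L →ₗ[D] D where
  toFun f := f.coeff.sum fun μ d => d * wt π ũ μ
  map_add' f g := by
    rw [AddMonoidAlgebra.coeff_add, Finsupp.sum_add_index' (fun _ => zero_mul _)
      (fun _ _ _ => add_mul _ _ _)]
  map_smul' c f := by
    rw [AddMonoidAlgebra.coeff_smul, Finsupp.sum_smul_index (fun _ => zero_mul _),
      RingHom.id_apply, smul_eq_mul, Finsupp.mul_sum]
    refine Finsupp.sum_congr fun μ _ => ?_
    rw [mul_assoc]

lemma pr0_single (μ : L) (d : D) : pr0 π ũ (single μ d) = d * wt π ũ μ := by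
  change (single μ d).coeff.sum (fun μ d => d * wt π ũ μ) = _
  rw [coeff_single, Finsupp.sum_single_index (zero_mul _)]

variable (hadd : ∀ a b, ũ (a + b) = ũ a * ũ b)

include hadd in
lemma wt_add (μ : L) (κ : π.ker) : wt π ũ (μ + κ) = wt π ũ μ * ũ κ := by
  unfold wt
  by_cases h : μ ∈ π.ker
  · have h2 : μ + κ ∈ π.ker := π.ker.add_mem h κ.2
    rw [dif_pos h, dif_pos h2, ← hadd]
    rfl
  · have h2 : μ + κ ∉ π.ker := fun h3 => h ((π.ker.add_mem_cancel_right κ.2).1 h3)
    rw [dif_neg h, dif_neg h2, zero_mul]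

include hadd in
lemma pr0_J {y : AddMonoidAlgebra D L} (hy : y ∈ JJ π ũ) : pr0 π ũ y = 0 := by
  have key : ∀ a, pr0 π ũ (a * y) = 0 := by
    unfold JJ at hy
    induction hy using Submodule.span_induction with
    | mem y hy =>
      obtain ⟨κ, rfl⟩ := hy
      intro a
      induction a using AddMonoidAlgebra.induction_linear with
      | zero => rw [zero_mul, map_zero]
      | add f g hf hg => rw [add_mul, map_add, hf, hg, add_zero]
      | single μ d =>
        rw [mul_sub, single_mul_single, single_mul_single, map_sub, pr0_single, pr0_single,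
          mul_one, add_zero, wt_add π ũ hadd]
        ring
    | zero => intro a; rw [mul_zero, map_zero]
    | add x y _ _ hx hy => intro a; rw [mul_add, map_add, hx, hy, add_zero]
    | smul r x _ hx => intro a; rw [smul_eq_mul, ← mul_assoc]; exact hx _
  have h1 := key 1
  rwa [one_mul] at h1

/-- The projection on the quotient. -/
noncomputable def pr (x : AddMonoidAlgebra D L ⧸ JJ π ũ) : D :=
  pr0 π ũ (Function.surjInv Ideal.Quotient.mk_surjective x)

include hadd in
lemma pr_mk (f : AddMonoidAlgebra D L) : pr π ũ (Ideal.Quotient.mk (JJ π ũ) f) = pr0 π ũ f := by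
  unfold pr
  have h1 := Function.surjInv_eq (Ideal.Quotient.mk_surjective (I := JJ π ũ))
    (Ideal.Quotient.mk (JJ π ũ) f)
  rw [Ideal.Quotient.eq] at h1
  have h2 := pr0_J π ũ hadd h1
  rwa [map_sub, sub_eq_zero] at h2

include hadd in
lemma pr_add (x y : AddMonoidAlgebra D L ⧸ JJ π ũ) : pr π ũ (x + y) = pr π ũ x + pr π ũ y := by
  obtain ⟨f, rfl⟩ := Ideal.Quotient.mk_surjective x
  obtain ⟨g, rfl⟩ := Ideal.Quotient.mk_surjective y
  rw [← map_add, pr_mk π ũ hadd, pr_mk π ũ hadd, pr_mk π ũ hadd, map_add]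

/-- The inclusion of the coefficients. -/
noncomputable def io (d : D) : AddMonoidAlgebra D L ⧸ JJ π ũ :=
  Ideal.Quotient.mk (JJ π ũ) (single 0 d)

/-- The classes of the monomials. -/
noncomputable def cl (μ : L) : AddMonoidAlgebra D L ⧸ JJ π ũ :=
  Ideal.Quotient.mk (JJ π ũ) (single μ 1)

lemma cl_add (μ ν : L) : cl π ũ (μ + ν) = cl π ũ μ * cl π ũ ν := by
  unfold cl
  rw [← map_mul, single_mul_single, mul_one]

lemma cl_zero : cl π ũ 0 = 1 := by
  unfold cl
  rw [← AddMonoidAlgebra.one_def, map_one]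

lemma cl_ker (κ : π.ker) : cl π ũ κ = io π ũ (ũ κ) := by
  unfold cl io
  rw [Ideal.Quotient.eq]
  exact Ideal.subset_span ⟨κ, rfl⟩

include hadd in
lemma pr_io_mul (d : D) (x : AddMonoidAlgebra D L ⧸ JJ π ũ) :
    pr π ũ (io π ũ d * x) = d * pr π ũ x := by
  obtain ⟨f, rfl⟩ := Ideal.Quotient.mk_surjective x
  unfold io
  rw [← map_mul, pr_mk π ũ hadd, pr_mk π ũ hadd, ← smul_eq_mul (a := d), ← map_smul]
  congr 1
  induction f using AddMonoidAlgebra.induction_linear with
  | zero => rw [mul_zero, smul_zero]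
  | add f g hf hg => rw [mul_add, hf, hg, smul_add]
  | single μ e => rw [single_mul_single, zero_add, smul_single, smul_eq_mul]

include hadd in
lemma pr_one (h0 : ũ 0 = 1) : pr π ũ 1 = 1 := by
  have h1 : (1 : AddMonoidAlgebra D L ⧸ JJ π ũ) = Ideal.Quotient.mk (JJ π ũ) (single 0 1) := by
    rw [← AddMonoidAlgebra.one_def, map_one]
  rw [h1, pr_mk π ũ hadd, pr0_single, one_mul]
  unfold wt
  rw [dif_pos π.ker.zero_mem]
  exact h0

end DD

/-- The properties of the twisted algebra over `D` which are used. -/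
structure TwD {k : Type u} [Field k] {Λ : Type} [AddCommGroup Λ] {L : Type} [AddCommGroup L]
    (π : L →+ Λ) {D D' : Type u} [CommRing D] [CommRing D'] [Algebra k D] [Algebra k D']
    (ũ : π.ker → D) (io : D →ₐ[k] D') (cl : L → D') (pr : D' → D) : Prop where
  cl_add : ∀ μ ν, cl (μ + ν) = cl μ * cl ν
  cl_zero : cl 0 = 1
  cl_ker : ∀ κ : π.ker, cl κ = io (ũ κ)
  pr_add : ∀ x y, pr (x + y) = pr x + pr y
  pr_io_mul : ∀ d x, pr (io d * x) = d * pr x
  pr_one : pr 1 = 1

theorem exists_twD {k : Type u} [Field k] {Λ : Type} [AddCommGroup Λ] {L : Type}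
    [AddCommGroup L] (π : L →+ Λ) {D : Type u} [CommRing D] [Algebra k D]
    (ũ : π.ker → D) (h0 : ũ 0 = 1) (hadd : ∀ a b, ũ (a + b) = ũ a * ũ b) :
    ∃ (D' : Type u) (_ : CommRing D') (_ : Algebra k D') (io : D →ₐ[k] D') (cl : L → D')
      (pr : D' → D), TwD π ũ io cl pr :=
  ⟨AddMonoidAlgebra D L ⧸ JJ π ũ, inferInstance, inferInstance,
    (Ideal.Quotient.mkₐ k (JJ π ũ)).comp AddMonoidAlgebra.singleZeroAlgHom, cl π ũ, pr π ũ,
    { cl_add := cl_add π ũ
      cl_zero := cl_zero π ũ
      cl_ker := cl_ker π ũ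
      pr_add := pr_add π ũ hadd
      pr_io_mul := pr_io_mul π ũ hadd
      pr_one := pr_one π ũ hadd h0 }⟩

section lift

variable {k : Type u} {R : Type u} [Field k] [CommRing R] [Algebra k R] {Λ : Type}
  [AddCommGroup Λ] [Fintype Λ] [DecidableEq Λ] {p : Λ → R →ₗ[k] R} (h : PG p) {L : Type}
  [AddCommGroup L] (π : L →+ Λ)

/-- Units lift modulo ideals of square zero. -/
lemma exists_units {D : Type u} [CommRing D] (I : Ideal D) (hI : I ^ 2 = ⊥)
    (L' : Type) [AddCommGroup L'] [Module.Projective ℤ L'] (φ : L' → D ⧸ I) (h0 : φ 0 = 1)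
    (hadd : ∀ a b, φ (a + b) = φ a * φ b) :
    ∃ ũ : L' → D, ũ 0 = 1 ∧ (∀ a b, ũ (a + b) = ũ a * ũ b) ∧
      ∀ a, Ideal.Quotient.mk I (ũ a) = φ a := by
  let Φ : Multiplicative L' →* D ⧸ I :=
    { toFun := fun a => φ a.toAdd, map_one' := h0, map_mul' := fun a b => hadd _ _ }
  let ΦU : Multiplicative L' →* (D ⧸ I)ˣ := Φ.toHomUnits
  let f : L' →+ Additive (D ⧸ I)ˣ := MonoidHom.toAdditiveRight ΦU
  let g : Additive Dˣ →+ Additive (D ⧸ I)ˣ :=
    (Units.map (Ideal.Quotient.mk I : D →* D ⧸ I)).toAdditive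
  have hg : Function.Surjective g := by
    intro y
    obtain ⟨a, ha⟩ := Ideal.Quotient.mk_surjective ((y.toMul : (D ⧸ I)ˣ) : D ⧸ I)
    obtain ⟨b, hb⟩ := Ideal.Quotient.mk_surjective (((y.toMul)⁻¹ : (D ⧸ I)ˣ) : D ⧸ I)
    have h1 : a * b - 1 ∈ I := by
      rw [← Ideal.Quotient.eq_zero_iff_mem, map_sub, map_mul, ha, hb, map_one, Units.mul_inv,
        sub_self]
    have h2 : (a * b - 1) * (a * b - 1) = 0 := by
      have h3 : (a * b - 1) * (a * b - 1) ∈ I ^ 2 := by
        rw [sq]; exact Ideal.mul_mem_mul h1 h1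
      rw [hI] at h3
      exact h3
    have h3 : a * (b * (2 - a * b)) = 1 := by linear_combination -h2
    refine ⟨Additive.ofMul ⟨a, b * (2 - a * b), h3, by rw [mul_comm]; exact h3⟩, ?_⟩
    apply Additive.toMul.injective
    apply Units.ext
    exact ha
  obtain ⟨l, hl⟩ := Module.projective_lifting_property g.toIntLinearMap f.toIntLinearMap hg
  have hl' : ∀ a, g (l a) = f a := fun a => congrArg (fun φ => φ a) hl
  refine ⟨fun a => ((l a).toMul : Dˣ), ?_, ?_, ?_⟩
  · change (((l 0).toMul : Dˣ) : D) = 1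
    rw [map_zero]; rfl
  · intro a b
    change (((l (a + b)).toMul : Dˣ) : D) = ((l a).toMul : Dˣ) * ((l b).toMul : Dˣ)
    rw [map_add]; rfl
  · intro a
    have h1 := congrArg (fun y : Additive (D ⧸ I)ˣ => ((y.toMul : (D ⧸ I)ˣ) : D ⧸ I)) (hl' a)
    exact h1

variable (hsup : ∀ i x, p i x = x → x ≠ 0 → i ∈ π.range)

open Classical in
/-- A lift of a degree. -/
noncomputable def sc (i : Λ) : L := if hi : i ∈ π.range then hi.choose else 0

include hsup in
lemma pi_sc {i : Λ} {x : R} (hx : p i x = x) (hx0 : x ≠ 0) : π (sc π i) = i := by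
  have h1 := hsup i x hx hx0
  unfold sc
  rw [dif_pos h1]
  exact h1.choose_spec

include hsup h in
lemma single_sc_mem (i : Λ) (x : R) : single (sc π i) (p i x) ∈ tw h π := by
  by_cases hx0 : p i x = 0
  · rw [hx0, single_zero]; exact Subalgebra.zero_mem _
  · refine single_mem_tw ?_
    rw [pi_sc π hsup (h.idem i x) hx0, h.idem]

section main

variable {D D' : Type u} [CommRing D] [Algebra k D] [CommRing D'] [Algebra k D'] {I : Ideal D}
  {ũ : π.ker → D} {io : D →ₐ[k] D'} {cl : L → D'} {pr : D' → D} (T : TwD π ũ io cl pr)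

include T in
lemma TwD.pr_zero : pr 0 = 0 := by
  have h1 := T.pr_io_mul 0 0
  rwa [mul_zero, zero_mul] at h1

include T in
lemma TwD.pr_io (d : D) : pr (io d) = d := by
  have h1 := T.pr_io_mul d 1
  rwa [mul_one, T.pr_one, mul_one] at h1

include T in
lemma TwD.pr_sub (x y : D') : pr (x - y) = pr x - pr y := by
  have h1 := T.pr_add (x - y) y
  rw [sub_add_cancel] at h1
  rw [h1, add_sub_cancel_right]

lemma map_sq (hI : I ^ 2 = ⊥) : (I.map (io : D →+* D')) ^ 2 = ⊥ := by
  rw [← Ideal.map_pow, hI, Ideal.map_bot]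

include T in
lemma TwD.pr_II {x : D'} (hx : x ∈ I.map (io : D →+* D')) : pr x ∈ I := by
  have key : ∀ y, pr (y * x) ∈ I := by
    unfold Ideal.map at hx
    induction hx using Submodule.span_induction with
    | mem x hx =>
      obtain ⟨d, hd, rfl⟩ := hx
      intro y
      change pr (y * io d) ∈ I
      rw [mul_comm, T.pr_io_mul]
      exact I.mul_mem_right _ hd
    | zero =>
      intro y
      rw [mul_zero, T.pr_zero]
      exact I.zero_mem
    | add a b _ _ ha hb =>
      intro y
      rw [mul_add, T.pr_add]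
      exact I.add_mem (ha y) (hb y)
    | smul r a _ ha => intro y; rw [smul_eq_mul, ← mul_assoc]; exact ha _
  have h1 := key 1
  rwa [one_mul] at h1

variable (I io) in
/-- The map of the quotients. -/
noncomputable def EE : D ⧸ I →ₐ[k] D' ⧸ I.map (io : D →+* D') :=
  Ideal.quotientMapₐ (I.map (io : D →+* D')) io Ideal.le_comap_map

lemma EE_mk (d : D) : EE I io (Ideal.Quotient.mk I d) = Ideal.Quotient.mk _ (io d) := rfl

variable (φ : tw h π →ₐ[k] D ⧸ I)
  (hũ : ∀ κ : π.ker, Ideal.Quotient.mk I (ũ κ) = φ ⟨single (κ : L) 1, single_mem_tw (by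
    rw [show π (κ : L) = 0 from κ.2, h.one])⟩)

variable (I io cl) in
/-- The class of a monomial. -/
noncomputable def cq (μ : L) : D' ⧸ I.map (io : D →+* D') := Ideal.Quotient.mk _ (cl μ)

include T in
lemma cq_add (μ ν : L) : cq I io cl (μ + ν) = cq I io cl μ * cq I io cl ν := by
  unfold cq
  rw [T.cl_add, map_mul]

include T in
lemma cq_zero : cq I io cl 0 = 1 := by
  unfold cq
  rw [T.cl_zero, map_one]

include T hũ in
lemma cq_ker (κ : π.ker) : cq I io cl κ = EE I io
    (φ ⟨single (κ : L) 1, single_mem_tw (by rw [show π (κ : L) = 0 from κ.2, h.one])⟩) := by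
  unfold cq
  rw [T.cl_ker, ← hũ, EE_mk]

variable (io cl) in
/-- The induced map on the base. -/
noncomputable def fR : R →ₗ[k] D' ⧸ I.map (io : D →+* D') :=
  ∑ i : Λ,
    { toFun := fun x => EE I io (φ ⟨_, single_sc_mem h π hsup i x⟩) * cq I io cl (-(sc π i))
      map_add' := fun x y => by
        rw [← add_mul, ← map_add, ← map_add]
        congr 3
        apply Subtype.ext
        change single (sc π i) (p i (x + y)) = single (sc π i) (p i x) + single (sc π i) (p i y)
        rw [map_add, single_add]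
      map_smul' := fun c x => by
        rw [RingHom.id_apply, ← smul_mul_assoc, ← map_smul, ← map_smul]
        congr 3
        apply Subtype.ext
        change single (sc π i) (p i (c • x)) = c • single (sc π i) (p i x)
        rw [map_smul, smul_single] }

lemma fR_apply (x : R) : fR h π hsup io cl φ x = ∑ i : Λ, EE I io
    (φ ⟨_, single_sc_mem h π hsup i x⟩) * cq I io cl (-(sc π i)) := by
  unfold fR
  rw [LinearMap.sum_apply]
  rfl

include T hũ in
/-- The value on homogeneous elements. -/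
lemma fR_hom {μ : L} {x : R} (hx : p (π μ) x = x) : fR h π hsup io cl φ x =
    EE I io (φ ⟨single μ x, single_mem_tw hx⟩) * cq I io cl (-μ) := by
  rw [fR_apply, Finset.sum_eq_single (π μ)]
  · by_cases hx0 : x = 0
    · subst hx0
      have e1 : ∀ (ν : L) (y : R) (hy : single ν y ∈ tw h π), y = 0 →
          φ ⟨single ν y, hy⟩ = 0 := by
        rintro ν y hy rfl
        have : (⟨single ν 0, hy⟩ : tw h π) = 0 := Subtype.ext (single_zero _)
        rw [this, map_zero]
      rw [e1 _ _ _ (map_zero _), e1 _ _ _ rfl, map_zero, zero_mul, zero_mul]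
    · have h1 := pi_sc π hsup hx hx0
      have hκ : μ - sc π (π μ) ∈ π.ker := by
        change π (μ - sc π (π μ)) = 0
        rw [map_sub, h1, sub_self]
      have h2 : (⟨single μ x, single_mem_tw hx⟩ : tw h π) =
          ⟨_, single_sc_mem h π hsup (π μ) x⟩ * ⟨single (μ - sc π (π μ)) 1, single_mem_tw (by
            rw [show π (μ - sc π (π μ)) = 0 from hκ, h.one])⟩ := by
        apply Subtype.ext
        change single μ x = single _ _ * single _ _
        rw [single_mul_single, mul_one, hx, add_sub_cancel]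
      have h3 := cq_ker h π T φ hũ ⟨_, hκ⟩
      rw [h2, map_mul, map_mul, ← h3, mul_assoc, ← cq_add π T]
      have h4 : -(sc π (π μ)) = μ - sc π (π μ) + -μ := by abel
      rw [← h4]
  · intro i _ hi
    have e1 : φ ⟨_, single_sc_mem h π hsup i x⟩ = 0 := by
      have : (⟨_, single_sc_mem h π hsup i x⟩ : tw h π) = 0 := by
        apply Subtype.ext
        change single _ (p i x) = 0
        rw [h.ne hi hx, single_zero]
      rw [this, map_zero]
    rw [e1, map_zero, zero_mul]
  · simp

include T hũ in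
lemma fR_mul (x y : R) : fR h π hsup io cl φ (x * y) =
    fR h π hsup io cl φ x * fR h π hsup io cl φ y := by
  have h1 : ∀ i j x y, p i x = x → p j y = y → fR h π hsup io cl φ (x * y) =
      fR h π hsup io cl φ x * fR h π hsup io cl φ y := by
    intro i j x y hx hy
    by_cases hx0 : x = 0
    · rw [hx0, zero_mul, map_zero, zero_mul]
    by_cases hy0 : y = 0
    · rw [hy0, mul_zero, map_zero, mul_zero]
    obtain ⟨μ, rfl⟩ := hsup i x hx hx0
    obtain ⟨ν, rfl⟩ := hsup j y hy hy0
    have h2 := h.mul _ _ _ _ hx hy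
    rw [← map_add] at h2
    rw [fR_hom h π hsup T φ hũ hx, fR_hom h π hsup T φ hũ hy, fR_hom h π hsup T φ hũ h2]
    have h3 : (⟨single (μ + ν) (x * y), single_mem_tw h2⟩ : tw h π) =
        ⟨single μ x, single_mem_tw hx⟩ * ⟨single ν y, single_mem_tw hy⟩ := by
      apply Subtype.ext
      change single (μ + ν) (x * y) = single μ x * single ν y
      rw [single_mul_single]
    have h4 : -(μ + ν) = -μ + -ν := by abel
    rw [h3, map_mul, map_mul, h4, cq_add π T]
    ring
  have h5 : ∀ x y, fR h π hsup io cl φ (x * y) = ∑ i, ∑ j, fR h π hsup io cl φ (p i x * p j y) := by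
    intro x y
    conv_lhs => rw [← h.sum x, ← h.sum y, Finset.sum_mul_sum, map_sum]
    exact Finset.sum_congr rfl fun i _ => map_sum _ _ _
  have h6 : ∀ x, fR h π hsup io cl φ x = ∑ i, fR h π hsup io cl φ (p i x) := by
    intro x
    conv_lhs => rw [← h.sum x, map_sum]
  rw [h5, h6 x, h6 y, Finset.sum_mul_sum]
  exact Finset.sum_congr rfl fun i _ => Finset.sum_congr rfl fun j _ =>
    h1 i j _ _ (h.idem i x) (h.idem j y)

include T hũ in
lemma fR_one : fR h π hsup io cl φ 1 = 1 := by
  have h1 : p (π 0) (1 : R) = 1 := by rw [map_zero, h.one]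
  rw [fR_hom h π hsup T φ hũ (μ := 0) h1]
  have h2 : (⟨single 0 1, single_mem_tw h1⟩ : tw h π) = 1 := rfl
  rw [h2, map_one, map_one, one_mul, neg_zero, cq_zero π T]

include h hsup in
/-- Descent of formal smoothness. -/
theorem formallySmooth_tw [Algebra.FormallySmooth k R] [Module.Projective ℤ π.ker] :
    Algebra.FormallySmooth k (tw h π) := by
  refine Algebra.FormallySmooth.of_comp_surjective fun D _ _ I hI φ => ?_
  obtain ⟨ũ, h0, hadd, hũ⟩ := exists_units I hI π.ker
    (fun κ => φ ⟨single (κ : L) 1, single_mem_tw (by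
      rw [show π (κ : L) = 0 from κ.2, h.one])⟩)
    (by
      have h2 : (⟨single ((0 : π.ker) : L) 1, single_mem_tw (by
          rw [show π ((0 : π.ker) : L) = 0 from (0 : π.ker).2, h.one])⟩ : tw h π) = 1 := rfl
      change φ _ = 1
      rw [h2, map_one])
    (by
      intro a b
      rw [← map_mul]
      congr 1
      apply Subtype.ext
      change single ((a : L) + b) 1 = single (a : L) 1 * single (b : L) 1
      rw [single_mul_single, one_mul])
  obtain ⟨D', _, _, io, cl, pr, T⟩ := exists_twD (k := k) π ũ h0 hadd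
  let fA : R →ₐ[k] D' ⧸ I.map (io : D →+* D') := AlgHom.ofLinearMap (fR h π hsup io cl φ)
    (fR_one h π hsup T φ hũ) (fR_mul h π hsup T φ hũ)
  obtain ⟨ψ, hψ⟩ := Algebra.FormallySmooth.exists_lift (R := k) (A := R)
    (I.map (io : D →+* D')) ⟨2, map_sq hI⟩ fA
  have hψ' : ∀ r, Ideal.Quotient.mk _ (ψ r) = fR h π hsup io cl φ r := fun r =>
    congrArg (fun f : R →ₐ[k] _ => f r) hψ
  let clM : Multiplicative L →* D' :=
    { toFun := fun μ => cl μ.toAdd
      map_one' := T.cl_zero
      map_mul' := fun a b => T.cl_add _ _ }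
  let Ψ : AddMonoidAlgebra R L →ₐ[k] D' :=
    AddMonoidAlgebra.liftNCAlgHom ψ clM fun _ _ => Commute.all _ _
  have hΨ1 : ∀ μ r, Ψ (single μ r) = ψ r * cl μ := fun μ r =>
    AddMonoidAlgebra.liftNC_single _ _ _ _
  have hΨ2 : ∀ s : tw h π, Ideal.Quotient.mk (I.map (io : D →+* D')) (Ψ s) = EE I io (φ s) := by
    intro s
    have h1 : s = ∑ μ ∈ (s : AddMonoidAlgebra R L).coeff.support,
        (⟨single μ ((s : AddMonoidAlgebra R L).coeff μ), single_mem_tw (s.2 μ)⟩ : tw h π) := by
      apply Subtype.ext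
      rw [AddSubmonoidClass.coe_finsetSum]
      exact (AddMonoidAlgebra.sum_coeff_single (s : AddMonoidAlgebra R L)).symm
    rw [h1, map_sum, map_sum, AddSubmonoidClass.coe_finsetSum, map_sum, map_sum]
    refine Finset.sum_congr rfl fun μ _ => ?_
    rw [hΨ1, map_mul, hψ', fR_hom h π hsup T φ hũ (s.2 μ)]
    have h2 : Ideal.Quotient.mk (I.map (io : D →+* D')) (cl μ) = cq I io cl μ := rfl
    rw [h2, mul_assoc, ← cq_add π T, neg_add_cancel, cq_zero π T, mul_one]
  have hmk : ∀ s : tw h π, Ideal.Quotient.mk I (pr (Ψ s)) = φ s ∧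
      Ψ s - io (pr (Ψ s)) ∈ I.map (io : D →+* D') := by
    intro s
    obtain ⟨d, hd⟩ := Ideal.Quotient.mk_surjective (φ s)
    have h1 : Ψ s - io d ∈ I.map (io : D →+* D') := by
      rw [← Ideal.Quotient.eq_zero_iff_mem, map_sub, hΨ2, ← hd, EE_mk, sub_self]
    have h2 := T.pr_II π h1
    rw [T.pr_sub, T.pr_io] at h2
    refine ⟨?_, ?_⟩
    · rw [← hd, Ideal.Quotient.eq]; exact h2
    · have h3 : Ψ s - io (pr (Ψ s)) = (Ψ s - io d) - io (pr (Ψ s) - d) := by
        rw [map_sub]; ring
      rw [h3]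
      exact Ideal.sub_mem _ h1 (Ideal.mem_map_of_mem _ h2)
  let χ : tw h π →ₐ[k] D :=
    { toFun := fun s => pr (Ψ s)
      map_one' := by
        change pr (Ψ 1) = 1
        rw [map_one, T.pr_one]
      map_mul' := by
        intro a b
        change pr (Ψ ((a : AddMonoidAlgebra R L) * b)) = pr (Ψ a) * pr (Ψ b)
        have h3 : (Ψ a - io (pr (Ψ a))) * (Ψ b - io (pr (Ψ b))) = 0 := by
          have h4 : (Ψ a - io (pr (Ψ a))) * (Ψ b - io (pr (Ψ b))) ∈
              (I.map (io : D →+* D')) ^ 2 := by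
            rw [sq]; exact Ideal.mul_mem_mul (hmk a).2 (hmk b).2
          rw [map_sq hI] at h4
          exact h4
        have h5 : Ψ a * Ψ b = io (pr (Ψ a) * pr (Ψ b)) + (io (pr (Ψ a)) * (Ψ b - io (pr (Ψ b))) +
            io (pr (Ψ b)) * (Ψ a - io (pr (Ψ a)))) := by
          rw [map_mul]
          linear_combination h3
        have h6 : ∀ s : tw h π, pr (Ψ s - io (pr (Ψ s))) = 0 := by
          intro s
          rw [T.pr_sub, T.pr_io, sub_self]
        rw [map_mul, h5, T.pr_add, T.pr_add, T.pr_io_mul, T.pr_io_mul, h6, h6, T.pr_io]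
        ring
      map_zero' := by
        change pr (Ψ 0) = 0
        rw [map_zero, T.pr_zero]
      map_add' := by
        intro a b
        change pr (Ψ ((a : AddMonoidAlgebra R L) + b)) = pr (Ψ a) + pr (Ψ b)
        rw [map_add, T.pr_add]
      commutes' := by
        intro c
        change pr (Ψ (algebraMap k (AddMonoidAlgebra R L) c)) = algebraMap k D c
        rw [AlgHom.commutes, ← io.commutes, T.pr_io] }
  refine ⟨χ, ?_⟩
  apply AlgHom.ext
  intro s
  exact (hmk s).1

end main

end lift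

end Pool.Agent.Y177.Dg
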