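import Pool.Agent.Y177.Dg.LinW

/-! Gradings given by submodules. -/

set_option autoImplicit false
set_option linter.unusedSectionVars false

universe u v

namespace Pool.Agent.Y177.Dg

open AlgebraicGeometry CategoryTheory Polynomial Pool.Agent.H920R2 Pool.Agent.H519R3.RS
  Pool.Agent.Y177.Ga Pool.Agent.Y177.Tor

section gr

variable {k B : Type u} [Field k] [CommRing B] [Algebra k B] {Λ : Type}
  [AddCommGroup Λ] [Fintype Λ] [DecidableEq Λ] (𝒜 : Λ → Submodule k B) [GradedAlgebra 𝒜]

lemma proj_eq_iff (i : Λ) (x : B) : GradedAlgebra.proj 𝒜 i x = x ↔ x ∈ 𝒜 i := by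
  rw [GradedAlgebra.proj_apply]
  constructor
  · intro h
    rw [← h]
    exact SetLike.coe_mem _
  · exact fun h => DirectSum.decompose_of_mem_same 𝒜 h

lemma pg_grd : PG (fun i => GradedAlgebra.proj 𝒜 i) where
  sum x := by
    classical
    simp only [GradedAlgebra.proj_apply]
    conv_rhs => rw [← DirectSum.sum_support_decompose 𝒜 x]
    symm
    refine Finset.sum_subset (Finset.subset_univ _) ?_
    intro i _ hi
    rw [DFinsupp.notMem_support_iff] at hi
    rw [hi]
    rfl
  orth i j x := by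
    simp only [GradedAlgebra.proj_apply]
    split_ifs with h
    · subst h
      exact DirectSum.decompose_of_mem_same 𝒜 (SetLike.coe_mem _)
    · exact DirectSum.decompose_of_mem_ne 𝒜 (SetLike.coe_mem _) (fun h' => h h'.symm)
  mul i j x y hx hy := by
    rw [proj_eq_iff] at hx hy ⊢
    exact SetLike.mul_mem_graded hx hy

end gr

section rho

variable {k B : Type u} [Field k] [CommRing B] [Algebra k B] {Λ : Type}
  [AddCommGroup Λ] [Fintype Λ] [DecidableEq Λ] {P : Λ → B →ₗ[k] B} (h : PG P)
  {ρ : B →ₐ[k] B[X]} {β : Λ}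

include h in
lemma rho_of_hom (hh : ∀ i b, P i b = b → ∀ j, P (i + j • β) ((ρ b).coeff j) = (ρ b).coeff j)
    (i : Λ) (b : B) (j : ℕ) : (ρ (P i b)).coeff j = P (i + j • β) ((ρ b).coeff j) := by
  have h1 : (ρ b).coeff j = ∑ l, (ρ (P l b)).coeff j := by
    conv_lhs => rw [← h.sum b, map_sum, finsetSum_coeff]
  rw [h1, map_sum, Finset.sum_eq_single i]
  · exact (hh i _ (h.idem i b) j).symm
  · intro l _ hl
    exact h.ne (fun h2 => hl (add_right_cancel h2).symm) (hh l _ (h.idem l b) j)
  · simp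

end rho

end Pool.Agent.Y177.Dg
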