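import Pool.Agent.Y177.Dg.Grd

/-! Quotients by finite groups with a normal subgroup whose quotient is abelian and tame. -/

set_option autoImplicit false
set_option linter.unusedSectionVars false

universe u v

namespace Pool.Agent.Y177.Dg

open AlgebraicGeometry CategoryTheory Pool.Agent.H920R2 Pool.Agent.H519R3.RS

section char

variable {k C : Type u} [Field k] [CommRing C] [Algebra k C] {Q : Type} [CommGroup Q] [Fintype Q]
  (e : Q ≃* (Q →* kˣ)) (θ : Q →* (C ≃ₐ[k] C))

/-- The characters. -/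
noncomputable def ch (e : Q ≃* (Q →* kˣ)) (i : Additive Q) (q : Q) : k := ((e i.toMul q : kˣ) : k)

lemma ch_mul (i : Additive Q) (q r : Q) : ch e i (q * r) = ch e i q * ch e i r := by
  unfold ch; rw [map_mul, Units.val_mul]

lemma ch_one (i : Additive Q) : ch e i 1 = 1 := by
  unfold ch; rw [map_one, Units.val_one]

lemma ch_zero (q : Q) : ch e 0 q = 1 := by
  unfold ch
  rw [toMul_zero, map_one]
  rfl

lemma ch_add (i j : Additive Q) (q : Q) : ch e (i + j) q = ch e i q * ch e j q := by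
  unfold ch
  rw [toMul_add, map_mul]
  rfl

lemma ch_inv (i : Additive Q) (q : Q) : ch e i q⁻¹ * ch e i q = 1 := by
  rw [← ch_mul, inv_mul_cancel, ch_one]

/-- Orthogonality. -/
lemma sum_ch (i j : Additive Q) (h : i ≠ j) : ∑ q, ch e i q⁻¹ * ch e j q = 0 := by
  obtain ⟨q0, hq0⟩ : ∃ q0, ch e i q0 ≠ ch e j q0 := by
    by_contra hcon
    push Not at hcon
    apply h
    apply Additive.toMul.injective
    apply e.injective
    ext q
    exact hcon q
  have h1 : ∑ q, ch e i q⁻¹ * ch e j q =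
      (ch e i q0⁻¹ * ch e j q0) * ∑ q, ch e i q⁻¹ * ch e j q := by
    rw [Finset.mul_sum]
    refine Fintype.sum_equiv (Equiv.mulLeft q0⁻¹) _ _ fun q => ?_
    rw [Equiv.coe_mulLeft]
    have h2 := ch_inv e i q0
    have h3 := ch_inv e j q0
    rw [mul_inv_rev, inv_inv, ch_mul, ch_mul]
    calc ch e i q⁻¹ * ch e j q = (ch e i q0⁻¹ * ch e i q0) * (ch e j q0⁻¹ * ch e j q0) *
          (ch e i q⁻¹ * ch e j q) := by rw [h2, h3]; ring
      _ = _ := by ring
  have h2 : ch e i q0⁻¹ * ch e j q0 ≠ 1 := by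
    intro h3
    apply hq0
    have h4 := ch_inv e i q0
    have h5 : ch e i q0⁻¹ ≠ 0 := fun h6 => by rw [h6, zero_mul] at h4; exact zero_ne_one h4
    exact mul_left_cancel₀ h5 (h4.trans h3.symm)
  have h3 : (1 - ch e i q0⁻¹ * ch e j q0) * ∑ q, ch e i q⁻¹ * ch e j q = 0 := by
    rw [sub_mul, one_mul, ← h1, sub_self]
  rcases mul_eq_zero.1 h3 with h4 | h4
  · exact absurd (sub_eq_zero.1 h4).symm h2
  · exact h4

/-- Dual orthogonality. -/
lemma sum_ch' [hr : HasEnoughRootsOfUnity k (Monoid.exponent Q)] (q : Q) (hq : q ≠ 1) :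
    ∑ i, ch e i q = 0 := by
  obtain ⟨χ, hχ⟩ := CommGroup.exists_apply_ne_one_of_hasEnoughRootsOfUnity Q k hq
  let i0 : Additive Q := Additive.ofMul (e.symm χ)
  have hi0 : ch e i0 q = χ q := by
    unfold ch
    rw [toMul_ofMul, MulEquiv.apply_symm_apply]
  have h1 : ∑ i, ch e i q = ch e i0 q * ∑ i, ch e i q := by
    rw [Finset.mul_sum, ← Equiv.sum_comp (Equiv.addLeft i0)]
    refine Finset.sum_congr rfl fun i _ => ?_
    rw [Equiv.coe_addLeft, ch_add]
  have h2 : ch e i0 q ≠ 1 := by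
    rw [hi0]
    intro h3
    exact hχ (Units.ext h3)
  have h3 : (1 - ch e i0 q) * ∑ i, ch e i q = 0 := by
    rw [sub_mul, one_mul, ← h1, sub_self]
  rcases mul_eq_zero.1 h3 with h4 | h4
  · exact absurd (sub_eq_zero.1 h4).symm h2
  · exact h4

/-- The projections to the isotypical components. -/
noncomputable def pc (e : Q ≃* (Q →* kˣ)) (θ : Q →* (C ≃ₐ[k] C)) (i : Additive Q) : C →ₗ[k] C :=
  (Fintype.card Q : k)⁻¹ • ∑ q : Q, ch e i q⁻¹ • ((θ q : C ≃ₐ[k] C) : C →ₗ[k] C)

lemma pc_apply (i : Additive Q) (x : C) :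
    pc e θ i x = (Fintype.card Q : k)⁻¹ • ∑ q : Q, ch e i q⁻¹ • θ q x := by
  unfold pc
  rw [LinearMap.smul_apply, LinearMap.sum_apply]
  rfl

lemma theta_pc (i : Additive Q) (x : C) (r : Q) : θ r (pc e θ i x) = ch e i r • pc e θ i x := by
  rw [pc_apply, map_smul (θ r), map_sum (θ r), smul_comm (ch e i r)]
  congr 1
  rw [Finset.smul_sum]
  refine Fintype.sum_equiv (Equiv.mulLeft r) _ _ fun q => ?_
  rw [Equiv.coe_mulLeft, map_smul (θ r), smul_smul, map_mul θ, mul_inv_rev, ch_mul]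
  have h1 : ch e i r * (ch e i q⁻¹ * ch e i r⁻¹) = ch e i q⁻¹ := by
    have := ch_inv e i r
    linear_combination ch e i q⁻¹ * this
  rw [h1]
  rfl

lemma pc_of (hQ : (Fintype.card Q : k) ≠ 0) (i : Additive Q) (x : C)
    (hx : ∀ r, θ r x = ch e i r • x) : pc e θ i x = x := by
  rw [pc_apply]
  have h1 : ∀ q, ch e i q⁻¹ • θ q x = x := fun q => by
    rw [hx, smul_smul, ch_inv, one_smul]
  simp only [h1]
  rw [Finset.sum_const, Finset.card_univ, ← Nat.cast_smul_eq_nsmul k, smul_smul,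
    inv_mul_cancel₀ hQ, one_smul]

lemma pc_ne (i j : Additive Q) (h : i ≠ j) (x : C)
    (hx : ∀ r, θ r x = ch e j r • x) : pc e θ i x = 0 := by
  rw [pc_apply]
  simp only [hx, smul_smul]
  rw [← Finset.sum_smul, sum_ch e i j h, zero_smul, smul_zero]

theorem pg_pc [DecidableEq Q] [HasEnoughRootsOfUnity k (Monoid.exponent Q)]
    (hQ : (Fintype.card Q : k) ≠ 0) : PG (pc e θ) where
  sum x := by
    simp only [pc_apply]
    rw [← Finset.smul_sum, Finset.sum_comm]
    have h1 : ∀ q : Q, ∑ i : Additive Q, ch e i q⁻¹ • θ q x =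
        if q = 1 then (Fintype.card Q : k) • x else 0 := by
      intro q
      rw [← Finset.sum_smul]
      split_ifs with h2
      · subst h2
        simp only [inv_one, ch_one]
        rw [Finset.sum_const, Finset.card_univ, map_one, nsmul_eq_mul, mul_one,
          Fintype.card_congr (Additive.toMul (α := Q)), AlgEquiv.one_apply]
      · rw [sum_ch' e q⁻¹ (fun h3 => h2 (inv_eq_one.1 h3)), zero_smul]
    simp only [h1]
    rw [Finset.sum_ite_eq']
    simp only [Finset.mem_univ, if_true]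
    rw [smul_smul, inv_mul_cancel₀ hQ, one_smul]
  orth i j x := by
    split_ifs with h
    · subst h
      exact pc_of e θ hQ i _ (theta_pc e θ i x)
    · exact pc_ne e θ i j h _ (theta_pc e θ j x)
  mul i j x y hx hy := by
    refine pc_of e θ hQ _ _ fun r => ?_
    have h1 : θ r x = ch e i r • x := by
      conv_lhs => rw [← hx]
      rw [theta_pc, hx]
    have h2 : θ r y = ch e j r • y := by
      conv_lhs => rw [← hy]
      rw [theta_pc, hy]
    rw [map_mul, h1, h2, ch_add, smul_mul_smul_comm]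

lemma pc_zero_iff (hQ : (Fintype.card Q : k) ≠ 0) (x : C) :
    pc e θ 0 x = x ↔ ∀ q, θ q x = x := by
  constructor
  · intro h q
    conv_lhs => rw [← h]
    rw [theta_pc, ch_zero, one_smul, h]
  · intro h
    refine pc_of e θ hQ _ _ fun r => ?_
    rw [ch_zero, one_smul, h]

end char

section group

variable {k C : Type u} [Field k] [CommRing C] [IsDomain C] [Algebra k C] {Q : Type}
  [CommGroup Q] [Finite Q] (θ : Q →* (C ≃ₐ[k] C)) {F : ℕ → Ideal C} (hF : IsFilt F)

/-- The ring of invariants. -/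
def ivQ (θ : Q →* (C ≃ₐ[k] C)) : Subalgebra k C where
  carrier := {x | ∀ q, θ q x = x}
  mul_mem' := fun {a b} ha hb q => by rw [map_mul, ha q, hb q]
  add_mem' := fun {a b} ha hb q => by rw [map_add, ha q, hb q]
  algebraMap_mem' := fun c q => AlgEquiv.commutes _ _

lemma mem_ivQ {x : C} : x ∈ ivQ θ ↔ ∀ q, θ q x = x := Iff.rfl

include hF in
/-- Quotients by abelian tame groups. -/
theorem concl_ivQ [HasEnoughRootsOfUnity k (Monoid.exponent Q)] (hQ : (Nat.card Q : k) ≠ 0)
    (hG : Good k hF) (hne : F 1 ≠ ⊥) (hst : ∀ q d, ∀ x ∈ F d, θ q x ∈ F d) :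
    Algebra.FiniteType k (ivQ θ) ∧ HasResolution (X := Spec (CommRingCat.of (ivQ θ)))
      (Spec.map (CommRingCat.ofHom (algebraMap k (ivQ θ)))) := by
  classical
  have _ : Fintype Q := Fintype.ofFinite Q
  rw [Nat.card_eq_fintype_card] at hQ
  obtain ⟨e'⟩ := CommGroup.monoidHom_mulEquiv_of_hasEnoughRootsOfUnity Q k
  let e : Q ≃* (Q →* kˣ) := e'.symm
  have hp : PG (pc e θ) := pg_pc e θ hQ
  have hft : Algebra.FiniteType k C := by
    have hinj : Function.Injective (IsScalarTower.toAlgHom k C (FractionRing C)) :=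
      IsFractionRing.injective C (FractionRing C)
    exact finiteType_goodE _ hF hinj ((good_iff _ _ hinj).1 hG)
  have h1 := hasResolution_zr hp hF (fun d c hc i => by
    rw [pc_apply, Algebra.smul_def]
    refine Ideal.mul_mem_left _ _ (Ideal.sum_mem _ fun q _ => ?_)
    rw [Algebra.smul_def]
    exact Ideal.mul_mem_left _ _ (hst q d c hc)) hG hne
  have h2 := finiteType_zr hp
  have h3 : Dg.zr hp = ivQ θ := by
    ext x
    rw [mem_zr, mem_ivQ, pc_zero_iff e θ hQ]
  rw [← h3]
  exact ⟨h2, h1⟩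

end group

section normal

variable {k B : Type u} [Field k] [CommRing B] [IsDomain B] [Algebra k B] {G : Type}
  [Group G] [Finite G] (θ : G →* (B ≃ₐ[k] B)) (P : Subgroup G) [P.Normal]

/-- The ring of invariants of a subgroup. -/
def ivP (θ : G →* (B ≃ₐ[k] B)) (P : Subgroup G) : Subalgebra k B where
  carrier := {x | ∀ g ∈ P, θ g x = x}
  mul_mem' := fun {a b} ha hb q hq => by rw [map_mul, ha q hq, hb q hq]
  add_mem' := fun {a b} ha hb q hq => by rw [map_add, ha q hq, hb q hq]
  algebraMap_mem' := fun c q _ => AlgEquiv.commutes _ _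

lemma mem_ivP {x : B} : x ∈ ivP θ P ↔ ∀ g ∈ P, θ g x = x := Iff.rfl

lemma theta_mem_ivP (g : G) {x : B} (hx : x ∈ ivP θ P) : θ g x ∈ ivP θ P := by
  intro h hh
  have h1 : h * g = g * (g⁻¹ * h * g) := by group
  have h2 : g⁻¹ * h * g ∈ P := by
    have := (inferInstance : P.Normal).conj_mem h hh g⁻¹
    rwa [inv_inv] at this
  calc θ h (θ g x) = θ (h * g) x := by rw [map_mul]; rfl
    _ = θ g (θ (g⁻¹ * h * g) x) := by rw [h1, map_mul]; rfl
    _ = θ g x := by rw [hx _ h2]

/-- The action on the invariants. -/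
def actP (g : G) : ivP θ P ≃ₐ[k] ivP θ P :=
  AlgEquiv.ofAlgHom
    ((((θ g : B ≃ₐ[k] B) : B →ₐ[k] B).comp (ivP θ P).val).codRestrict (ivP θ P)
      fun x => theta_mem_ivP θ P g x.2)
    ((((θ g⁻¹ : B ≃ₐ[k] B) : B →ₐ[k] B).comp (ivP θ P).val).codRestrict (ivP θ P)
      fun x => theta_mem_ivP θ P g⁻¹ x.2)
    (AlgHom.ext fun x => by
      apply Subtype.ext
      change θ g (θ g⁻¹ (x : B)) = x
      rw [← AlgEquiv.mul_apply, ← map_mul, mul_inv_cancel, map_one]
      rfl)
    (AlgHom.ext fun x => by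
      apply Subtype.ext
      change θ g⁻¹ (θ g (x : B)) = x
      rw [← AlgEquiv.mul_apply, ← map_mul, inv_mul_cancel, map_one]
      rfl)

lemma coe_actP (g : G) (x : ivP θ P) : ((actP θ P g x : ivP θ P) : B) = θ g x := rfl

/-- The action on the invariants. -/
def homP : G →* (ivP θ P ≃ₐ[k] ivP θ P) where
  toFun := actP θ P
  map_one' := by
    ext x
    change θ 1 (x : B) = x
    rw [map_one]
    rfl
  map_mul' g h := by
    ext x
    change θ (g * h) (x : B) = θ g (θ h x)
    rw [map_mul]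
    rfl

/-- The action of the quotient group on the invariants. -/
def homQ : (G ⧸ P) →* (ivP θ P ≃ₐ[k] ivP θ P) :=
  QuotientGroup.lift P (homP θ P) fun g hg => by
    ext x
    exact x.2 g hg

lemma homQ_mk (g : G) (x : ivP θ P) : ((homQ θ P (QuotientGroup.mk g) x : ivP θ P) : B) =
    θ g x := rfl

/-- Quotients by groups with a normal subgroup with abelian tame quotient. -/
theorem concl_ivP (hab : ∀ g h : G, g * h * g⁻¹ * h⁻¹ ∈ P) [HasEnoughRootsOfUnity k (Monoid.exponent (G ⧸ P))]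
    (hQ : (P.index : k) ≠ 0) {F : ℕ → Ideal B} (hF : IsFilt F)
    (hG : Good k (isFilt_restr hF (ivP θ P))) (hne : restr F (ivP θ P) 1 ≠ ⊥)
    (hst : ∀ g d, ∀ x ∈ F d, θ g x ∈ F d) (D : Subalgebra k B)
    (hD : ∀ b, b ∈ D ↔ ∀ g, θ g b = b) :
    IsVariety (X := Spec (CommRingCat.of D))
      (Spec.map (CommRingCat.ofHom (algebraMap k D))) ∧
    HasResolution (X := Spec (CommRingCat.of D))
      (Spec.map (CommRingCat.ofHom (algebraMap k D))) := by
  let _ : CommGroup (G ⧸ P) :=
    { (inferInstance : Group (G ⧸ P)) with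
      mul_comm := fun a b => by
        obtain ⟨g, rfl⟩ := QuotientGroup.mk_surjective a
        obtain ⟨h, rfl⟩ := QuotientGroup.mk_surjective b
        rw [← QuotientGroup.mk_mul, ← QuotientGroup.mk_mul, QuotientGroup.eq]
        have h1 : (g * h)⁻¹ * (h * g) = h⁻¹ * g⁻¹ * h⁻¹⁻¹ * g⁻¹⁻¹ := by group
        rw [h1]
        exact hab _ _ }
  have hQ' : (Nat.card (G ⧸ P) : k) ≠ 0 := hQ
  obtain ⟨h1, h2⟩ := concl_ivQ (homQ θ P) (isFilt_restr hF (ivP θ P)) hQ' hG hne (by
    intro q d x hx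
    obtain ⟨g, rfl⟩ := QuotientGroup.mk_surjective q
    rw [mem_restr, homQ_mk]
    exact hst g d x hx)
  let e : ivQ (homQ θ P) ≃ₐ[k] D :=
    AlgEquiv.ofBijective
      (((ivP θ P).val.comp (ivQ (homQ θ P)).val).codRestrict D fun x => (hD _).2 fun g => by
        have h3 := congrArg (fun z : ivP θ P => (z : B)) (x.2 (QuotientGroup.mk g))
        exact h3)
      ⟨fun x y hxy => by
        apply Subtype.ext
        apply Subtype.ext
        exact congrArg (fun z : D => (z : B)) hxy, fun y => by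
        have h2 := (hD _).1 y.2
        refine ⟨⟨⟨y, fun g _ => h2 g⟩, fun q => ?_⟩, rfl⟩
        obtain ⟨g, rfl⟩ := QuotientGroup.mk_surjective q
        apply Subtype.ext
        rw [homQ_mk]
        exact h2 g⟩
  have hft'' : Algebra.FiniteType k D := Algebra.FiniteType.equiv h1 e
  exact ⟨isVariety_spec, hasResolution_congr e h2⟩

end normal

end Pool.Agent.Y177.Dg
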