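import Pool.Agent.Y177.Dg.Act

/-! Linear actions of semidirect products. -/

set_option autoImplicit false
set_option linter.unusedSectionVars false

universe u v

namespace Pool.Agent.Y177.Dg

open AlgebraicGeometry CategoryTheory Polynomial Pool.Agent.H920R2 Pool.Agent.H519R3.RS
  Pool.Agent.Y177.Ga Pool.Agent.Y177.Tor

section conv

variable {k B : Type u} [Field k] [CommRing B] [Algebra k B] {Λ : Type}
  [AddCommGroup Λ] [Fintype Λ] [DecidableEq Λ] {P : Λ → B →ₗ[k] B} (h : PG P)

include h

lemma PG.conv (i : Λ) (a b : B) : P i (a * b) = ∑ l, P l a * P (i - l) b := by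
  have h1 : a * b = ∑ l, P l a * b := by rw [← Finset.sum_mul, h.sum]
  conv_lhs => rw [h1, map_sum]
  refine Finset.sum_congr rfl fun l _ => ?_
  have h2 := h.mul_left (h.idem l a) (i - l) b
  rwa [add_sub_cancel] at h2

/-- A filtration generated by homogeneous elements is homogeneous. -/
lemma hom_of_gens {G : B → ℕ → Prop} (hG : ∀ b w, G b w → ∀ i, P i b ∈ Gf G w) (d : ℕ) :
    ∀ c ∈ Gf G d, ∀ i, P i c ∈ Gf G d := by
  let W : ℕ → Ideal B := fun d =>
    { carrier := {b | ∀ i, P i b ∈ Gf G d}
      zero_mem' := fun i => by rw [map_zero]; exact Ideal.zero_mem _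
      add_mem' := fun {a b} ha hb i => by
        rw [map_add]; exact Ideal.add_mem _ (ha i) (hb i)
      smul_mem' := fun c {b} hb i => by
        rw [smul_eq_mul, h.conv]
        exact Ideal.sum_mem _ fun l _ => Ideal.mul_mem_left _ _ (hb _) }
  have h1 : Gf G d ≤ W d := by
    refine Gf_le G ?_ ?_ ?_ ?_ d
    · rw [Ideal.eq_top_iff_one]
      intro i
      rw [Gf_zero]; trivial
    · intro a b hab x hx i
      exact Gf_anti G _ _ hab (hx i)
    · intro a b
      refine Ideal.mul_le.2 fun x hx y hy i => ?_
      rw [h.conv]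
      exact Ideal.sum_mem _ fun l _ => Gf_mul G _ _ (Ideal.mul_mem_mul (hx _) (hy _))
    · intro b w hb i
      exact hG b w hb i
  exact fun c hc => h1 hc

variable {ρ : B →ₐ[k] B[X]} {β : Λ}

lemma rho_mul {a b : B} (ha : ∀ i j, (ρ (P i a)).coeff j = P (i + j • β) ((ρ a).coeff j))
    (hb : ∀ i j, (ρ (P i b)).coeff j = P (i + j • β) ((ρ b).coeff j)) (i : Λ) (j : ℕ) :
    (ρ (P i (a * b))).coeff j = P (i + j • β) ((ρ (a * b)).coeff j) := by
  rw [h.conv, map_sum, finsetSum_coeff, map_mul, coeff_mul, map_sum]
  simp only [map_mul, coeff_mul, ha, hb]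
  rw [Finset.sum_comm]
  refine Finset.sum_congr rfl fun x hx => ?_
  rw [h.conv]
  refine Fintype.sum_equiv (Equiv.addRight (x.1 • β)) _ _ fun l => ?_
  rw [Equiv.coe_addRight]
  have h1 : i + j • β - (l + x.1 • β) = i - l + x.2 • β := by
    rw [← Finset.HasAntidiagonal.mem_antidiagonal.1 hx, add_smul]
    abel
  rw [h1]

end conv

section mv

variable {k : Type u} [Field k] {n : ℕ} {Λ : Type} [AddCommGroup Λ] [Fintype Λ] [DecidableEq Λ]
  (w : Fin n → Λ)

/-- The projections of the polynomial ring given by weights of the variables. -/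
noncomputable def pw (k : Type u) [Field k] (w : Fin n → Λ) (i : Λ) :
    MvPolynomial (Fin n) k →ₗ[k] MvPolynomial (Fin n) k :=
  MvPolynomial.weightedHomogeneousComponent w i

lemma pg_pw : PG (pw k w) where
  sum x := by
    ext d
    rw [MvPolynomial.coeff_sum]
    simp only [pw, MvPolynomial.coeff_weightedHomogeneousComponent]
    rw [Finset.sum_ite_eq]
    simp
  orth i j x := by
    ext d
    simp only [pw, MvPolynomial.coeff_weightedHomogeneousComponent]
    by_cases h1 : i = j
    · subst h1
      simp only [if_pos, MvPolynomial.coeff_weightedHomogeneousComponent]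
      split_ifs <;> rfl
    · rw [if_neg h1]
      split_ifs with h2 h3
      · exact absurd (h2.symm.trans h3) h1
      · simp
      · simp
  mul i j x y hx hy := by
    have h1 : MvPolynomial.IsWeightedHomogeneous w x i := by
      rw [← hx]; exact MvPolynomial.weightedHomogeneousComponent_isWeightedHomogeneous _ _
    have h2 : MvPolynomial.IsWeightedHomogeneous w y j := by
      rw [← hy]; exact MvPolynomial.weightedHomogeneousComponent_isWeightedHomogeneous _ _
    exact MvPolynomial.IsWeightedHomogeneous.weightedHomogeneousComponent_same (h1.mul h2)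

lemma pw_eq_iff (i : Λ) (x : MvPolynomial (Fin n) k) :
    pw k w i x = x ↔ MvPolynomial.IsWeightedHomogeneous w x i := by
  constructor
  · intro hx
    rw [← hx]; exact MvPolynomial.weightedHomogeneousComponent_isWeightedHomogeneous _ _
  · exact MvPolynomial.IsWeightedHomogeneous.weightedHomogeneousComponent_same

/-- The projections of the space of linear forms. -/
noncomputable def pv (k : Type u) [Field k] (w : Fin n → Λ) (i : Λ) :
    (Fin n → k) →ₗ[k] (Fin n → k) where
  toFun v := fun t => if w t = i then v t else 0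
  map_add' u v := by
    funext t
    change (if w t = i then u t + v t else 0) = (if w t = i then u t else 0) +
      (if w t = i then v t else 0)
    split_ifs
    · rfl
    · rw [add_zero]
  map_smul' c v := by
    funext t
    change (if w t = i then c * v t else 0) = c * (if w t = i then v t else 0)
    split_ifs
    · rfl
    · rw [mul_zero]

lemma pw_X (i : Λ) (t : Fin n) : pw k w i (MvPolynomial.X t) =
    if w t = i then MvPolynomial.X t else 0 := by
  split_ifs with h1
  · rw [pw_eq_iff, ← h1]
    exact MvPolynomial.isWeightedHomogeneous_X k w t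
  · have h2 : pw k w (w t) (MvPolynomial.X t) = MvPolynomial.X t := by
      rw [pw_eq_iff]
      exact MvPolynomial.isWeightedHomogeneous_X k w t
    exact (pg_pw w).ne (fun h => h1 h.symm) h2

lemma pw_ln (i : Λ) (v : Fin n → k) : pw k w i (ln k n v) = ln k n (pv k w i v) := by
  change pw k w i (∑ t, v t • (MvPolynomial.X t : MvPolynomial (Fin n) k)) =
    ∑ t, (if w t = i then v t else 0) • (MvPolynomial.X t : MvPolynomial (Fin n) k)
  rw [map_sum]
  refine Finset.sum_congr rfl fun t _ => ?_
  rw [map_smul, pw_X]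
  split_ifs
  · rfl
  · rw [smul_zero, zero_smul]

variable {p : ℕ} {N : Module.End k (Fin n → k)} {β : Λ}
  (hNβ : ∀ i v, pv k w (i + β) (N v) = N (pv k w i v))

include hNβ in
lemma pv_pow (m : ℕ) (i : Λ) (v : Fin n → k) :
    pv k w (i + m • β) ((N ^ m) v) = (N ^ m) (pv k w i v) := by
  induction m generalizing i with
  | zero => rw [zero_smul, add_zero]; rfl
  | succ m ih =>
    rw [pow_succ', succ_nsmul, ← add_assoc]
    change pv k w (i + m • β + β) (N ((N ^ m) v)) = N ((N ^ m) (pv k w i v))
    rw [hNβ, ih]

include hNβ in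
lemma rho_pw (hN : N ^ p = 0) (i : Λ) (b : MvPolynomial (Fin n) k) (j : ℕ) :
    (ex p N (pw k w i b)).coeff j = pw k w (i + j • β) ((ex p N b).coeff j) := by
  have key : ∀ b : MvPolynomial (Fin n) k, ∀ i j, (ex p N (pw k w i b)).coeff j =
      pw k w (i + j • β) ((ex p N b).coeff j) := by
    intro b
    induction b using MvPolynomial.induction_on with
    | C c =>
      intro i j
      have h0 : pw k w 0 (MvPolynomial.C c) = MvPolynomial.C c := by
        rw [pw_eq_iff]
        exact MvPolynomial.isWeightedHomogeneous_C w c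
      have h1 : ex p N (MvPolynomial.C c) = Polynomial.C (MvPolynomial.C c) :=
        (ex p N).commutes c
      rw [h1, coeff_C]
      by_cases hi : i = 0
      · subst hi
        rw [h0, h1, coeff_C]
        split_ifs with h2
        · rw [h2, zero_smul, add_zero, h0]
        · rw [map_zero]
      · rw [(pg_pw w).ne hi h0, map_zero, coeff_zero]
        split_ifs with h2
        · rw [h2, zero_smul, add_zero, (pg_pw w).ne hi h0]
        · rw [map_zero]
    | add a b ha hb =>
      intro i j
      rw [map_add, map_add, map_add, coeff_add, coeff_add, map_add, ha, hb]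
    | mul_X a t ha =>
      refine rho_mul (pg_pw w) ha ?_
      intro i j
      rw [← ln_single, pw_ln, coeff_ex hN, coeff_ex hN, pw_ln]
      congr 1
      rw [map_smul, pv_pow w hNβ]
  exact key b i j

include hNβ in
lemma hom_Fl (d : ℕ) : ∀ c ∈ Fl p N d, ∀ i, pw k w i c ∈ Fl p N d := by
  refine hom_of_gens (pg_pw w) ?_ d
  intro b m hb i
  rcases gl_cases hb with rfl | ⟨v, rfl⟩
  · rw [map_zero]; exact Ideal.zero_mem _
  · rw [pw_ln]
    have h1 := pv_pow w hNβ m (i - m • β) v
    rw [sub_add_cancel] at h1
    rw [h1]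
    exact ln_mem _ _

end mv

section triv

variable {k B : Type u} [Field k] [CommRing B] [IsDomain B] [Algebra k B]

lemma isFilt_triv : IsFilt (fun _ => (⊤ : Ideal B)) where
  zero := rfl
  anti := fun _ _ _ => le_rfl
  mul := fun _ _ => le_top

lemma good_triv [Algebra.Smooth k B] : Good k (isFilt_triv (B := B)) := by
  refine good_of_centre isFilt_triv ?_
  exact
    { zero := rfl
      anti := fun _ _ _ => le_rfl
      mul := fun _ _ => le_top
      coord := fun P hP hFP => absurd (top_le_iff.1 hFP) hP.ne_top }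

end triv

section main

variable {k : Type u} [Field k] {n : ℕ} {Λ : Type} [AddCommGroup Λ] [Fintype Λ] [DecidableEq Λ]
  (w : Fin n → Λ) {p : ℕ} [hp : Fact p.Prime] [CharP k p] {N : Module.End k (Fin n → k)}

/-- The quotients of a vector space by semidirect products. -/
theorem lin_semi_main (hN : N ^ p = 0) (β : Λ) (hNβ : ∀ i v, pv k w (i + β) (N v) = N (pv k w i v))
    (r : ℕ) (A : AddSubgroup k) [Fintype A]
    (hA : ∀ j, (∏ a : A, (X - C (a : k))).coeff j ≠ 0 → j • β = β)
    (D : Subalgebra k (MvPolynomial (Fin n) k))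
    (hD : ∀ b, b ∈ D ↔ b ∈ frs (ex p N) (p ^ r) ⊓ inv (ex p N) A ∧ pw k w 0 b = b) :
    IsVariety (X := Spec (CommRingCat.of D))
      (Spec.map (CommRingCat.ofHom (algebraMap k D))) ∧
    HasResolution (X := Spec (CommRingCat.of D))
      (Spec.map (CommRingCat.ofHom (algebraMap k D))) := by
  have _ : CharP (MvPolynomial (Fin n) k) p :=
    charP_of_injective_algebraMap (algebraMap k _).injective p
  have _ : Algebra.Smooth k (MvPolynomial (Fin n) k) :=
    { formallySmooth := inferInstanceAs (Algebra.FormallySmooth k (MvPolynomial _ k))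
      finitePresentation := inferInstanceAs (Algebra.FinitePresentation k (MvPolynomial _ k)) }
  by_cases hne : Fl p N 1 = ⊥
  · have h1 : ∀ b j, 0 < j → (ex p N b).coeff j = 0 := by
      intro b j hj
      have h2 := isFilt_Fl.anti _ _ (show 1 ≤ j by omega) (coeff_mem_Fl hN b j)
      rwa [hne, Ideal.mem_bot] at h2
    have h2 : frs (ex p N) (p ^ r) ⊓ inv (ex p N) A = ⊤ := by
      rw [eq_top_iff]
      intro b _
      refine ⟨fun j hj _ => h1 b j hj, fun a _ => ?_⟩
      have h3 : ex p N b = C b := by
        ext j : 1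
        rw [coeff_C]
        split_ifs with h4
        · rw [h4, (isAct_ex hN).zero]
        · exact h1 b j (Nat.pos_of_ne_zero h4)
      rw [sg_apply, h3, eval_C]
    rw [h2] at hD
    have hGt := good_triv (k := k) (B := MvPolynomial (Fin n) k)
    obtain ⟨h3, h4⟩ := good_top isFilt_triv hGt (by simp) (C := ⊤) rfl
    exact concl_zr isFilt_triv h3 h4 (pg_pw w) (fun _ _ _ => trivial) (fun _ _ _ _ => trivial) D hD
  · have hG := good_of_centre isFilt_Fl (centre_Fl hN)
    exact semi_main (p := p) (isAct_ex hN) isFilt_Fl (l := 1) (div_Fl hN) (lead_Fl hN)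
      one_pos hG hne r A (fun _ P _ hP => fix_Fl hN P hP)
      (fun a _ ha P _ hP => fixA_Fl hN a ha P hP) (pg_pw w) β
      (fun i b j => rho_pw w hNβ hN i b j) (hom_Fl w hNβ) hA D hD

end main

end Pool.Agent.Y177.Dg
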