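import Pool.Agent.Y177.Dg.TorG
import Pool.Agent.H920R2.Cy4
import Pool.Agent.W372.Et.AffMain
import Pool.Agent.W125.ET.Crit1

/-! The canonical filtration of an automorphism of order `p`. -/

set_option autoImplicit false
set_option linter.unusedSectionVars false

universe u v

namespace Pool.Agent.Y177.Dg

open AlgebraicGeometry CategoryTheory Pool.Agent.H920R2 Pool.Agent.H519R3.RS
  Pool.Agent.Y177.Tor

section gens

variable {B : Type u} [CommRing B]

/-- The difference operator of an endomorphism. -/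
def dd (σ : B → B) (b : B) : B := σ b - b

/-- The generators of the canonical filtration. -/
def Gc (p : ℕ) (σ : B → B) (b : B) (w : ℕ) : Prop := w < p ∧ ∃ a, b = (dd σ)^[w] a

variable {k : Type u} [Field k] [Algebra k B] {p : ℕ} (σ : B ≃ₐ[k] B)

lemma dd_iter_eq (n : ℕ) (b : B) : (dd σ)^[n] b = ((σ.toLinearMap - 1) ^ n) b := by
  induction n with
  | zero => rfl
  | succ n ih =>
    rw [Function.iterate_succ_apply', ih, pow_succ']
    rfl

lemma pow_iter (n : ℕ) (b : B) : (σ.toLinearMap ^ n) b = σ^[n] b := by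
  induction n with
  | zero => rfl
  | succ n ih =>
    rw [Function.iterate_succ_apply', ← ih, pow_succ']
    rfl

lemma dd_p (hp : p.Prime) (hpk : (p : k) = 0) (hσ : ∀ b, σ^[p] b = b) (b : B) :
    (dd σ)^[p] b = 0 := by
  have _ : Fact p.Prime := ⟨hp⟩
  rw [dd_iter_eq]
  have hc : Commute σ.toLinearMap (1 : Module.End k B) := Commute.one_right _
  by_cases hB : Nontrivial B
  · have _ : CharP k p := (CharP.charP_iff_prime_eq_zero hp).2 hpk
    have _ : CharP (Module.End k B) p := charP_of_injective_algebraMap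
      (algebraMap k (Module.End k B)).injective p
    rw [sub_pow_char_of_commute _ hc, one_pow, LinearMap.sub_apply, pow_iter, hσ]
    exact sub_self b
  · rw [not_nontrivial_iff_subsingleton] at hB
    exact Subsingleton.elim _ _

/-- The automorphisms which normalize preserve the canonical filtration. -/
lemma stab_Gc (g : B ≃ₐ[k] B) (e : ℕ) (hge : ∀ b, g (σ b) = σ^[e] (g b)) (d : ℕ) :
    ∀ b ∈ Gf (Gc p σ) d, g b ∈ Gf (Gc p σ) d := by
  have hle : Gf (Gc p σ) d ≤ (Gf (Gc p σ) d).comap (g : B →+* B) := by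
    refine Gf_le (W := fun d => (Gf (Gc p σ) d).comap (g : B →+* B)) _ ?_ ?_ ?_ ?_ d
    · rw [Gf_zero, Ideal.comap_top]
    · intro a b hab x hx
      exact Gf_anti _ _ _ hab hx
    · intro a b
      refine Ideal.mul_le.2 fun x hx y hy => ?_
      change g (x * y) ∈ Gf (Gc p σ) (a + b)
      rw [map_mul]
      exact mul_mem_Gf _ hx hy
    · rintro b w ⟨hw, a, rfl⟩
      refine gen_mem _ ⟨hw, ((∑ i ∈ Finset.range e, σ.toLinearMap ^ i) ^ w) (g a), ?_⟩
      change g ((dd σ)^[w] a) = _
      have hU : (σ.toLinearMap : Module.End k B) ^ e - 1 =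
          (σ.toLinearMap - 1) * (∑ i ∈ Finset.range e, σ.toLinearMap ^ i) :=
        (mul_geom_sum _ e).symm
      have h1 : ∀ (n : ℕ) (x : B), g ((dd σ)^[n] x) =
          (((σ.toLinearMap : Module.End k B) ^ e - 1) ^ n) (g x) := by
        intro n
        induction n with
        | zero => intro x; rfl
        | succ n ih =>
          intro x
          rw [Function.iterate_succ_apply, ih, pow_succ]
          change _ = (((σ.toLinearMap : Module.End k B) ^ e - 1) ^ n)
            (((σ.toLinearMap : Module.End k B) ^ e) (g x) - g x)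
          congr 1
          rw [pow_iter, ← hge, ← map_sub]
          rfl
      rw [h1, hU, dd_iter_eq]
      have hcomm : Commute (σ.toLinearMap - 1 : Module.End k B)
          (∑ i ∈ Finset.range e, σ.toLinearMap ^ i) := by
        refine Commute.sum_right _ _ _ fun i _ => ?_
        exact ((Commute.refl _).pow_right i).sub_left (Commute.one_left _)
      rw [hcomm.mul_pow]
      rfl
  exact fun b hb => hle hb

lemma dd_raise (hp : p.Prime) (hpk : (p : k) = 0) (hσ : ∀ b, σ^[p] b = b) (d : ℕ) (a : B)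
    (ha : a ∈ Gf (Gc p σ) d) : σ a - a ∈ Gf (Gc p σ) (d + 1) := by
  refine sigma_raise (Gc p σ) σ ?_ ?_ d a ha
  · intro b
    exact gen_mem _ ⟨hp.one_lt, b, rfl⟩
  · rintro _ w ⟨hw, b, rfl⟩
    have h1 : σ ((dd σ)^[w] b) - (dd σ)^[w] b = (dd σ)^[w + 1] b := by
      rw [Function.iterate_succ_apply']
      rfl
    rw [h1]
    rcases Nat.lt_or_ge (w + 1) p with h2 | h2
    · exact gen_mem _ ⟨h2, b, rfl⟩
    · have h3 : w + 1 = p := by omega
      rw [h3, dd_p σ hp hpk hσ]
      exact Ideal.zero_mem _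

lemma dd_fix (P : Ideal B) (hP : ∀ a, σ a - a ∈ P) : Gf (Gc p σ) 1 ≤ P := by
  have h1 := Gf_le (G := Gc p σ) (W := fun d => if d = 0 then ⊤ else P) (if_pos rfl) ?_ ?_ ?_ 1
  · exact h1
  · intro a b hab
    by_cases ha : a = 0
    · simp [ha]
    · simp [ha, show b ≠ 0 by omega]
  · intro a b
    by_cases ha : a = 0
    · subst ha
      rw [zero_add]
      exact Ideal.mul_le.2 fun x _ y hy => Ideal.mul_mem_left _ _ hy
    · simp only [if_neg ha, if_neg (show a + b ≠ 0 by omega)]
      exact Ideal.mul_le.2 fun x hx y _ => Ideal.mul_mem_right _ _ hx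
  · rintro _ w ⟨hw, b, rfl⟩
    by_cases h0 : w = 0
    · simp [h0]
    · rw [if_neg h0]
      obtain ⟨n, rfl⟩ := Nat.exists_eq_succ_of_ne_zero h0
      rw [Function.iterate_succ_apply']
      exact hP _

lemma dd_lead (d : ℕ) (hd : 1 ≤ d) (a : B) (ha : a ∈ Gf (Gc p σ) d) :
    ∃ N : ℕ, a ^ N ∈ leadI (fun c => σ c - c) (Gf (Gc p σ)) 1 (N * d) := by
  refine lead_of_gens (Gc p σ) σ ?_ d hd a ha
  rintro _ w ⟨hw, b, rfl⟩ hw1
  refine ⟨1, ?_⟩
  obtain ⟨n, rfl⟩ := Nat.exists_eq_succ_of_ne_zero (show w ≠ 0 by omega)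
  have h1 := ldI_gen (Gc p σ) σ (m := 1 * (n + 1)) (e := n) (c := (dd σ)^[n] b) (b := 1)
    (gen_mem _ ⟨by omega, b, rfl⟩) (by
      have h2 : 1 * (n + 1) - (n + 1) = 0 := by omega
      rw [h2, Gf_zero]
      trivial)
  rw [pow_one, Nat.succ_eq_add_one, Function.iterate_succ_apply']
  rw [one_mul (σ _ - _)] at h1
  exact h1

lemma isFilt_Gc : IsFilt (Gf (Gc p σ)) := ⟨Gf_zero _, Gf_anti _, Gf_mul _⟩

end gens

section rees

variable {k B L : Type u} [Field k] [CommRing B] [Algebra k B] [Field L] [Algebra k L]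
  {p : ℕ} (σ : B ≃ₐ[k] B) (g : B →ₐ[k] L) (τ : L ≃ₐ[k] L) (hτ : ∀ b, τ (g b) = g (σ b))

include hτ in
lemma del_iter (n : ℕ) (b : B) : (del τ)^[n] (g b) = g ((dd σ)^[n] b) := by
  induction n with
  | zero => rfl
  | succ n ih =>
    rw [Function.iterate_succ_apply', Function.iterate_succ_apply', ih]
    change τ (g _) - g _ = g (σ _ - _)
    rw [hτ, map_sub]

include hτ in
/-- The two descriptions of the Rees algebra. -/
theorem rG_eq_RS (hp : 0 < p) : rG g (isFilt_Gc (p := p) σ) = RS τ p g.range := by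
  classical
  apply le_antisymm
  · intro f hf
    rw [eq_sum_hm f]
    refine Subalgebra.sum_mem _ fun d _ => ?_
    obtain ⟨b, hb, hb'⟩ := hf d
    rw [← hb']
    have hneg : ∀ n : ℕ, hm (-(n : ℤ)) 1 ∈ RS τ p g.range := by
      intro n
      have h1 : hm (-(n : ℤ)) (1 : L) = hm (-1) 1 ^ n := by
        rw [hm_pow, one_pow]
        congr 1
        ring
      rw [h1]
      exact Subalgebra.pow_mem _ (RS_s τ p _) n
    have key : ∀ n : ℕ, ∀ b ∈ Gf (Gc p σ) n, hm (n : ℤ) (g b) ∈ RS τ p g.range := by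
      intro n b hb
      unfold Gf at hb
      induction hb using Submodule.span_induction with
      | mem y hy =>
        obtain ⟨t, ht, hd, rfl⟩ := hy
        have h1 : hm (((t.map Prod.snd).sum : ℕ) : ℤ) (g (t.map Prod.fst).prod) ∈
            RS τ p g.range := by
          clear hd
          induction t with
          | nil =>
            simp only [List.map_nil, List.sum_nil, List.prod_nil, map_one, Nat.cast_zero]
            exact RS_b τ p _ hp g.range.one_mem
          | cons q t ih =>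
            rw [List.map_cons, List.map_cons, List.sum_cons, List.prod_cons, map_mul]
            have h2 : hm ((q.2 + (t.map Prod.snd).sum : ℕ) : ℤ)
                (g q.1 * g (t.map Prod.fst).prod) = hm (q.2 : ℤ) (g q.1) *
                hm (((t.map Prod.snd).sum : ℕ) : ℤ) (g (t.map Prod.fst).prod) := by
              rw [hm_mul]
              push_cast
              rfl
            rw [h2]
            refine Subalgebra.mul_mem _ ?_ (ih fun q' hq' => ht q' (by simp [hq']))
            obtain ⟨hw, a, ha⟩ := ht q (by simp)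
            rw [ha, ← del_iter σ g τ hτ]
            exact RS_del τ p _ hw ⟨a, rfl⟩
        have h2 : hm (n : ℤ) (g (t.map Prod.fst).prod) =
            hm (-(((t.map Prod.snd).sum - n : ℕ) : ℤ)) 1 *
            hm (((t.map Prod.snd).sum : ℕ) : ℤ) (g (t.map Prod.fst).prod) := by
          rw [hm_mul, one_mul]
          congr 1
          omega
        rw [h2]
        exact Subalgebra.mul_mem _ (hneg _) h1
      | zero => rw [map_zero, hm_zero]; exact Subalgebra.zero_mem _
      | add x y _ _ hx hy => rw [map_add, hm_add]; exact Subalgebra.add_mem _ hx hy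
      | smul r x _ hx =>
        have h1 : hm (n : ℤ) (g (r • x)) = hm 0 (g r) * hm (n : ℤ) (g x) := by
          rw [hm_mul, zero_add, smul_eq_mul, map_mul]
        rw [h1]
        exact Subalgebra.mul_mem _ (RS_b τ p _ hp ⟨r, rfl⟩) hx
    rcases lt_or_ge d 0 with hd | hd
    · obtain ⟨n, hn⟩ := Int.eq_ofNat_of_zero_le (a := -d) (by omega)
      have h1 : hm d (g b) = hm (-(n : ℤ)) 1 * hm 0 (g b) := by
        rw [hm_mul, one_mul, add_zero]
        congr 1
        omega
      rw [h1]
      exact Subalgebra.mul_mem _ (hneg n) (RS_b τ p _ hp ⟨b, rfl⟩)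
    · obtain ⟨n, rfl⟩ := Int.eq_ofNat_of_zero_le hd
      exact key n b hb
  · unfold RS
    rw [Algebra.adjoin_le_iff]
    rintro f (hf | ⟨a, c, ⟨b, rfl⟩, ha, rfl⟩)
    · rw [hf]
      exact s_rG g _
    · change hm (a : ℤ) ((del τ)^[a] (g b)) ∈ _
      rw [del_iter σ g τ hτ]
      refine hm_mem_rG g _ ?_
      rw [Int.toNat_natCast]
      exact gen_mem _ ⟨ha, b, rfl⟩

end rees

section main

open Pool.Agent.W559.Mg Pool.Agent.W559.Et MvPolynomial

variable {k : Type u} [Field k] {B : Type u} [CommRing B] [IsDomain B] [Algebra k B] {p : ℕ}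

/-- The canonical filtration of a locally linear automorphism of order `p` is good. -/
theorem good_Gc (hp : p.Prime) (hpk : (p : k) = 0) [Algebra.Smooth k B] (σ : B ≃ₐ[k] B)
    (hσ : ∀ b, σ^[p] b = b) (hL : LocLin (σ : B →ₐ[k] B)) :
    Good k (isFilt_Gc (p := p) σ) := by
  classical
  let K := FractionRing B
  let ι : B →ₐ[k] K := IsScalarTower.toAlgHom k B K
  have hι : Function.Injective ι := IsFractionRing.injective B K
  let τ : K ≃ₐ[k] K := IsFractionRing.fieldEquivOfAlgEquiv k K K σ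
  have hτ : ∀ b, τ (ι b) = ι (σ b) := fun b =>
    IsFractionRing.fieldEquivOfAlgEquiv_algebraMap k K K σ b
  have hiter : ∀ (n : ℕ) (b : B), τ^[n] (ι b) = ι (σ^[n] b) := by
    intro n
    induction n with
    | zero => intro b; rfl
    | succ n ih => intro b; rw [Function.iterate_succ_apply, Function.iterate_succ_apply, hτ, ih]
  have hfrac : ∀ x : K, ∃ b b', ι b' ≠ 0 ∧ x = ι b / ι b' := by
    intro x
    obtain ⟨a, c, hc, rfl⟩ := IsFractionRing.div_surjective (A := B) x
    refine ⟨a, c, ?_, rfl⟩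
    intro h0
    have : c = 0 := hι (by rw [h0, map_zero])
    exact nonZeroDivisors.ne_zero hc this
  have hdiv : ∀ (n : ℕ) (y z : K), τ^[n] (y / z) = τ^[n] y / τ^[n] z := by
    intro n
    induction n with
    | zero => intro y z; rfl
    | succ n ih => intro y z; rw [Function.iterate_succ_apply, map_div₀, ih,
        Function.iterate_succ_apply, Function.iterate_succ_apply]
  have hτp : ∀ x, τ^[p] x = x := by
    intro x
    obtain ⟨b, b', -, rfl⟩ := hfrac x
    rw [hdiv, hiter, hiter, hσ, hσ]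
  have hLL := Pool.Agent.W372.Et.ll_of_locLin ι hι (σ : B →ₐ[k] B) (τ : K →ₐ[k] K) hτ hL
  have hsmB : Algebra.Smooth k ι.range := Algebra.Smooth.of_equiv (AlgEquiv.ofInjective ι hι)
  have hB : ∀ c ∈ ι.range, τ c ∈ ι.range := by
    rintro _ ⟨b, rfl⟩
    exact ⟨σ b, (hτ b).symm⟩
  have hsm : Algebra.Smooth k (RS τ p ι.range) := by
    refine smooth_RS τ hp hpk ι.range hsmB hB hτp ?_
    intro q hq hqB
    obtain ⟨f, hf, hfq, hσf, m, x, T, hx, hT⟩ := hLL q hq (fun c hc h => hqB c hc)
    refine ⟨f, hf, hfq, hσf, Fin m, inferInstance, x, T, hx, ?_, ?_⟩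
    · have h1 : ∀ n : ℕ, ∀ v : Fin m → k, (⇑τ)^[n] (∑ i, v i • (x i : K)) =
          ∑ i, (T ^ n) v i • (x i : K) := by
        intro n
        induction n with
        | zero => intro v; rfl
        | succ n ih =>
          intro v
          have h2 : τ (∑ i, v i • (x i : K)) = ∑ i, T v i • (x i : K) := hT v
          rw [Function.iterate_succ_apply, h2, ih, pow_succ]
          rfl
      refine LinearMap.ext fun v => ?_
      have h2 := h1 p v
      rw [hτp] at h2
      have h4 : (T ^ p) v - v = 0 := by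
        refine Pool.Agent.W125.ET.lin_indep x hx _ ?_
        have h5 : ∀ i, ((T ^ p) v - v) i • (x i : K) =
            (T ^ p) v i • (x i : K) - v i • (x i : K) := by
          intro i
          rw [Pi.sub_apply, sub_smul]
        rw [Finset.sum_congr rfl fun i _ => h5 i, Finset.sum_sub_distrib, ← h2, sub_self]
      rw [sub_eq_zero.1 h4]
      rfl
    · intro v s hs
      rw [Finset.eq_univ_iff_forall.2 hs]
      exact hT v
  have hsm' : Algebra.Smooth k (rG ι (isFilt_Gc (p := p) σ)) := by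
    rw [rG_eq_RS σ ι τ hτ hp.pos]
    exact hsm
  exact (good_iff ι _ hι).2 ⟨inferInstance, fun e η he he0 hη =>
    smooth_loc hsm' he (isUnit_hm hη)⟩

/-- Quotients by groups with a locally linear normal subgroup of order `p`. -/
theorem loc_group (hp : p.Prime) (hpk : (p : k) = 0) [Algebra.Smooth k B]
    {G : Type} [Group G] [Finite G]
    (θ : G →* (B ≃ₐ[k] B)) (P : Subgroup G) [P.Normal] (hP : Nat.card P ∣ p)
    (hab : ∀ g h : G, g * h * g⁻¹ * h⁻¹ ∈ P)
    [HasEnoughRootsOfUnity k (Monoid.exponent (G ⧸ P))] (hQ : (P.index : k) ≠ 0)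
    (hL : ∀ g ∈ P, LocLin (θ g : B →ₐ[k] B)) (D : Subalgebra k B)
    (hD : ∀ b, b ∈ D ↔ ∀ g, θ g b = b) :
    IsVariety (X := Spec (CommRingCat.of D))
      (Spec.map (CommRingCat.ofHom (algebraMap k D))) ∧
    HasResolution (X := Spec (CommRingCat.of D))
      (Spec.map (CommRingCat.ofHom (algebraMap k D))) := by
  have _ : Algebra.FiniteType k B := inferInstance
  obtain ⟨g0, hg0, hgen⟩ : ∃ g0 ∈ P, ∀ h ∈ P, ∃ n : ℕ, h = g0 ^ n := by
    have hcyc : IsCyclic P := by
      rcases (Nat.dvd_prime hp).1 hP with h1 | h1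
      · have : Subsingleton P := (Nat.card_eq_one_iff_unique.1 h1).1
        infer_instance
      · have _ : Fact p.Prime := ⟨hp⟩
        exact isCyclic_of_prime_card h1
    obtain ⟨g0, hg0⟩ := hcyc.exists_generator
    refine ⟨g0, g0.2, fun h hh => ?_⟩
    obtain ⟨n, hn⟩ := mem_powers_iff_mem_zpowers.2 (hg0 ⟨h, hh⟩)
    exact ⟨n, congrArg Subtype.val hn.symm⟩
  have hg0p : g0 ^ p = 1 := by
    obtain ⟨n, hn⟩ := hP
    have h1 : (⟨g0, hg0⟩ : P) ^ Nat.card P = 1 := pow_card_eq_one'
    have h2 : g0 ^ Nat.card P = 1 := congrArg Subtype.val h1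
    rw [hn, pow_mul, h2, one_pow]
  have hpow : ∀ (n : ℕ) b, θ (g0 ^ n) b = (θ g0)^[n] b := by
    intro n
    induction n with
    | zero => intro b; rw [pow_zero, map_one]; rfl
    | succ n ih =>
      intro b
      rw [pow_succ', map_mul, Function.iterate_succ_apply', ← ih]
      rfl
  have hσ : ∀ b, (θ g0)^[p] b = b := fun b => by rw [← hpow, hg0p, map_one]; rfl
  have hfix : fixedAlg (θ g0) = ivP θ P := by
    ext b
    rw [mem_fixedAlg, mem_ivP]
    constructor
    · intro hb h hh
      obtain ⟨n, rfl⟩ := hgen h hh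
      rw [hpow]
      exact Function.iterate_fixed hb n
    · intro hb
      exact hb g0 hg0
  by_cases htriv : ∀ b, θ g0 b = b
  · have h2 : ivP θ P = ⊤ := by
      rw [← hfix, eq_top_iff]
      intro b _
      exact mem_fixedAlg.2 (htriv b)
    obtain ⟨h3, h4⟩ := good_top isFilt_triv (good_triv (k := k) (B := B)) (by simp) h2
    exact concl_ivP θ P hab hQ isFilt_triv h3 h4 (fun _ _ _ _ => trivial) D hD
  · push Not at htriv
    obtain ⟨b0, hb0⟩ := htriv
    have hF := isFilt_Gc (p := p) (θ g0)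
    have hne : Gf (Gc p (θ g0)) 1 ≠ ⊥ := by
      intro h3
      have h4 : θ g0 b0 - b0 ∈ Gf (Gc p (θ g0)) 1 := gen_mem _ ⟨hp.one_lt, b0, rfl⟩
      rw [h3, Submodule.mem_bot, sub_eq_zero] at h4
      exact hb0 h4
    obtain ⟨h1, h2⟩ := good_fixed hp hpk (θ g0) hσ hF (good_Gc hp hpk (θ g0) hσ (hL g0 hg0)) hne
      one_pos (dd_raise (θ g0) hp hpk hσ) (fun P' _ h => dd_fix (θ g0) P' h)
      (dd_lead (θ g0))
    rw [hfix] at h2
    have h1' : Good k (isFilt_restr hF (ivP θ P)) := hfix ▸ h1
    refine concl_ivP θ P hab hQ hF h1' h2 (fun g d x hx => ?_) D hD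
    obtain ⟨e, he⟩ := hgen (g * g0 * g⁻¹) ((inferInstance : P.Normal).conj_mem g0 hg0 g)
    refine stab_Gc (θ g0) (θ g) e (fun b => ?_) d x hx
    rw [← hpow, ← he]
    calc θ g (θ g0 b) = θ (g * g0) b := by rw [map_mul]; rfl
      _ = θ (g * g0 * g⁻¹ * g) b := by rw [inv_mul_cancel_right]
      _ = θ (g * g0 * g⁻¹) (θ g b) := by rw [map_mul θ (g * g0 * g⁻¹)]; rfl

end main

end Pool.Agent.Y177.Dg
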