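import Pool.Agent.Y177.Dg.Loc
import Pool.Agent.W382.Et.AffPerm
import Pool.Agent.W930.ET.Perm

/-! Permutation groups with a normal subgroup of order `p`. -/

set_option autoImplicit false
set_option linter.unusedSectionVars false

universe u v

namespace Pool.Agent.Y177.Dg

open AlgebraicGeometry CategoryTheory TensorProduct Pool.Agent.H920R2 Pool.Agent.W559.Et

variable (k A : Type u) [Field k] [CommRing A] [Algebra k A] {n : ℕ}

/-- The permutation of the factors of the algebra `⨂ A`: it maps `⨂ a_i` to `⨂ a_{π i}`. -/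
noncomputable def perm (π : Equiv.Perm (Fin n)) :
    (⨂[k] _ : Fin n, A) →ₐ[k] (⨂[k] _ : Fin n, A) :=
  PiTensorProduct.liftAlgHom
    ((PiTensorProduct.tprod k : MultilinearMap k (fun _ : Fin n => A) _).domDomCongr π)
    (by
      rw [MultilinearMap.domDomCongr_apply, PiTensorProduct.one_def]
      rfl)
    (by
      intro x y
      rw [MultilinearMap.domDomCongr_apply, MultilinearMap.domDomCongr_apply,
        MultilinearMap.domDomCongr_apply, PiTensorProduct.tprod_mul_tprod]
      rfl)

theorem perm_tprod (π : Equiv.Perm (Fin n)) (a : Fin n → A) :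
    perm k A π (PiTensorProduct.tprod k a) = PiTensorProduct.tprod k fun i => a (π i) :=
  PiTensorProduct.lift.tprod a

lemma perm_single (π : Equiv.Perm (Fin n)) (i : Fin n) (a : A) :
    perm k A π (PiTensorProduct.singleAlgHom (R := k) (A := fun _ : Fin n => A) i a) =
      PiTensorProduct.singleAlgHom (R := k) (A := fun _ : Fin n => A) (π⁻¹ i) a := by
  change perm k A π (PiTensorProduct.tprod k (MonoidHom.mulSingle _ i a)) =
    PiTensorProduct.tprod k (MonoidHom.mulSingle _ (π⁻¹ i) a)
  rw [perm_tprod]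
  congr 1
  funext l
  rw [MonoidHom.mulSingle_apply, MonoidHom.mulSingle_apply]
  by_cases hl : l = π⁻¹ i
  · have h1 : π l = i := by
      rw [hl]
      exact Equiv.apply_symm_apply π i
    rw [h1, hl, Pi.mulSingle_eq_same, Pi.mulSingle_eq_same]
  · rw [Pi.mulSingle_eq_of_ne hl, Pi.mulSingle_eq_of_ne]
    intro h
    apply hl
    rw [← h]
    exact (Equiv.symm_apply_apply π l).symm

lemma perm_mul (π π' : Equiv.Perm (Fin n)) :
    (perm k A π).comp (perm k A π') = perm k A (π' * π) := by
  apply (isCoprod_pi (k := k) (A := fun _ : Fin n => A)).ext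
  intro i a
  rw [AlgHom.comp_apply, perm_single, perm_single, perm_single, mul_inv_rev]
  rfl

lemma perm_one : perm k A (1 : Equiv.Perm (Fin n)) = AlgHom.id k _ := by
  apply (isCoprod_pi (k := k) (A := fun _ : Fin n => A)).ext
  intro i a
  rw [perm_single, inv_one]
  rfl

/-- The action of the permutations. -/
noncomputable def permH : Equiv.Perm (Fin n) →*
    ((⨂[k] _ : Fin n, A) ≃ₐ[k] (⨂[k] _ : Fin n, A)) where
  toFun π := AlgEquiv.ofAlgHom (perm k A π⁻¹) (perm k A π)
    (by rw [perm_mul, mul_inv_cancel, perm_one]) (by rw [perm_mul, inv_mul_cancel, perm_one])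
  map_one' := by
    ext x
    change perm k A 1⁻¹ x = x
    rw [inv_one, perm_one]
    rfl
  map_mul' π π' := by
    ext x
    change perm k A (π * π')⁻¹ x = perm k A π⁻¹ (perm k A π'⁻¹ x)
    rw [mul_inv_rev, ← perm_mul]
    rfl

lemma permH_apply (π : Equiv.Perm (Fin n)) (x : ⨂[k] _ : Fin n, A) :
    permH k A π x = perm k A π⁻¹ x := rfl

variable {k A}

/-- Quotients of powers by permutation groups with a normal subgroup of order `p`. -/
theorem perm_group {p : ℕ} (hp : p.Prime) (hpk : (p : k) = 0) [IsDomain A] [Algebra.Smooth k A]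
    [IsDomain (⨂[k] _ : Fin n, A)] (G : Subgroup (Equiv.Perm (Fin n))) (P : Subgroup G) [P.Normal]
    (hP : Nat.card P ∣ p) (hab : ∀ g h : G, g * h * g⁻¹ * h⁻¹ ∈ P)
    [HasEnoughRootsOfUnity k (Monoid.exponent (G ⧸ P))] (hQ : (P.index : k) ≠ 0)
    (D : Subalgebra k (⨂[k] _ : Fin n, A)) (hD : ∀ b, b ∈ D ↔ ∀ π ∈ G, perm k A π b = b) :
    IsVariety (X := Spec (CommRingCat.of D))
      (Spec.map (CommRingCat.ofHom (algebraMap k D))) ∧
    HasResolution (X := Spec (CommRingCat.of D))
      (Spec.map (CommRingCat.ofHom (algebraMap k D))) := by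
  have hj := isCoprod_pi (k := k) (A := fun _ : Fin n => A)
  have hsm : Algebra.Smooth k (⨂[k] _ : Fin n, A) := by
    have h1 : Algebra.FormallySmooth k (⨂[k] _ : Fin n, A) :=
      coprod_formallySmooth hj fun _ => inferInstance
    have h2 : Algebra.FiniteType k (⨂[k] _ : Fin n, A) := coprod_finiteType hj fun _ => inferInstance
    exact ⟨h1, Algebra.FinitePresentation.of_finiteType.1 inferInstance⟩
  refine loc_group (p := p) hp hpk ((permH k A).comp G.subtype) P hP hab hQ ?_ D ?_
  · intro g _
    refine Pool.Agent.W382.Et.AffPerm.main Pool.Agent.W930.ET.perm k A n inferInstance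
      (permH k A (g : Equiv.Perm (Fin n))) g ?_
    intro i a
    rw [permH_apply, perm_single, inv_inv]
  · intro b
    rw [hD]
    constructor
    · intro h g
      exact h _ (G.inv_mem g.2)
    · intro h π hπ
      have h1 := h ⟨π⁻¹, G.inv_mem hπ⟩
      change perm k A (π⁻¹)⁻¹ b = b at h1
      rwa [inv_inv] at h1

end Pool.Agent.Y177.Dg
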