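import Mathlib

/-! Gradings by finite groups, given by projections. -/

set_option autoImplicit false
set_option linter.unusedSectionVars false

universe u v

namespace Pool.Agent.Y177.Dg

section pg

variable {k : Type u} {C : Type v} [Field k] [CommRing C] [Algebra k C] {Λ : Type}
  [AddCommGroup Λ] [Fintype Λ] [DecidableEq Λ]

/-- Projections to the components of a grading. -/
structure PG (p : Λ → C →ₗ[k] C) : Prop where
  sum : ∀ x, ∑ i, p i x = x
  orth : ∀ i j x, p i (p j x) = if i = j then p j x else 0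
  mul : ∀ i j x y, p i x = x → p j y = y → p (i + j) (x * y) = x * y

variable {p : Λ → C →ₗ[k] C} (h : PG p)

include h

lemma PG.idem (i : Λ) (x : C) : p i (p i x) = p i x := by rw [h.orth, if_pos rfl]

lemma PG.ne {i j : Λ} (hij : i ≠ j) {x : C} (hx : p j x = x) : p i x = 0 := by
  rw [← hx, h.orth, if_neg hij]

lemma PG.mul_left {i : Λ} {b : C} (hb : p i b = b) (j : Λ) (x : C) :
    p (i + j) (b * x) = b * p j x := by
  have h1 : b * x = ∑ l, b * p l x := by rw [← Finset.mul_sum, h.sum]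
  rw [h1, map_sum, Finset.sum_eq_single j]
  · exact h.mul i j b (p j x) hb (h.idem j x)
  · intro l _ hl
    have h2 := h.mul i l b (p l x) hb (h.idem l x)
    exact h.ne (fun h3 => hl (add_left_cancel h3).symm) h2
  · simp

lemma PG.mul0 {b : C} (hb : p 0 b = b) (i : Λ) (x : C) : p i (b * x) = b * p i x := by
  have h1 := h.mul_left hb i x
  rwa [zero_add] at h1

lemma PG.one : p 0 1 = 1 := by
  have h1 : ∀ j y, p j y = y → y * p 0 1 = y := by
    intro j y hy
    have h2 := h.mul_left hy 0 1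
    rw [add_zero, mul_one, hy] at h2
    exact h2.symm
  have key : ∀ y, y * p 0 1 = y := by
    intro y
    conv_rhs => rw [← h.sum y]
    conv_lhs => rw [← h.sum y, Finset.sum_mul]
    exact Finset.sum_congr rfl fun i _ => h1 i _ (h.idem i y)
  have h2 := key 1
  rwa [one_mul] at h2

lemma PG.pow {i : Λ} {x : C} (hx : p i x = x) (n : ℕ) : p (n • i) (x ^ n) = x ^ n := by
  induction n with
  | zero => rw [zero_smul, pow_zero, h.one]
  | succ n ih => rw [succ_nsmul, pow_succ]; exact h.mul _ _ _ _ ih hx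

/-- The part of degree zero. -/
def zr (h : PG p) : Subalgebra k C where
  carrier := {x | p 0 x = x}
  mul_mem' := fun {a b} ha hb => by
    have h1 := h.mul 0 0 a b ha hb
    rwa [add_zero] at h1
  add_mem' := fun {a b} ha hb => by
    change p 0 (a + b) = a + b
    rw [map_add, Set.mem_setOf.1 ha, Set.mem_setOf.1 hb]
  algebraMap_mem' := fun c => by
    change p 0 (algebraMap k C c) = algebraMap k C c
    rw [Algebra.algebraMap_eq_smul_one, map_smul, h.one]

omit h in
lemma mem_zr {h : PG p} {x : C} : x ∈ zr h ↔ p 0 x = x := Iff.rfl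

lemma PG.pow_zr {i : Λ} {x : C} (hx : p i x = x) : x ^ Fintype.card Λ ∈ zr h := by
  have h1 := h.pow hx (Fintype.card Λ)
  rw [card_nsmul_eq_zero] at h1
  exact h1

lemma PG.isIntegral (x : C) : IsIntegral (zr h) x := by
  rw [← h.sum x]
  refine IsIntegral.sum _ fun i _ => ?_
  refine IsIntegral.of_pow (n := Fintype.card Λ) Fintype.card_pos ?_
  exact isIntegral_algebraMap (x := (⟨_, h.pow_zr (h.idem i x)⟩ : zr h))

/-- The opposite component of a unit. -/
lemma PG.inv {i : Λ} {x y : C} (hx : p i x = x) (hxy : x * y = 1) : p (-i) y = y := by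
  have h1 := h.mul_left hx (-i) y
  rw [add_neg_cancel, hxy, h.one] at h1
  calc p (-i) y = (x * y) * p (-i) y := by rw [hxy, one_mul]
    _ = y * (x * p (-i) y) := by ring
    _ = y := by rw [← h1, mul_one]

end pg

section frac

variable {k : Type u} {C : Type v} [Field k] [CommRing C] [IsDomain C] [Algebra k C] {Λ : Type}
  [AddCommGroup Λ] [Fintype Λ] [DecidableEq Λ] {p : Λ → C →ₗ[k] C} (h : PG p)
  {K : Type v} [Field K] [Algebra k K] (g : C →ₐ[k] K) (hg : Function.Injective g)
  (hK : ∀ x : K, ∃ a b : C, b ≠ 0 ∧ x * g b = g a)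

include h hK in
lemma exists_rep (x : K) : ∃ a b : C, (p 0 b = b ∧ b ≠ 0) ∧ x * g b = g a := by
  obtain ⟨a, b, hb, hx⟩ := hK x
  have h1 : (Ideal.span {b}).comap (algebraMap (zr h) C) ≠ ⊥ :=
    Ideal.comap_ne_bot_of_integral_mem hb (Ideal.mem_span_singleton_self b) (h.isIntegral b)
  obtain ⟨r, hr, hr0⟩ := Submodule.exists_mem_ne_zero_of_ne_bot h1
  rw [Ideal.mem_comap, Ideal.mem_span_singleton] at hr
  obtain ⟨c, hc⟩ := hr
  refine ⟨a * c, b * c, ⟨?_, ?_⟩, ?_⟩
  · rw [← hc]; exact r.2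
  · rw [← hc]
    intro h2
    exact hr0 (Subtype.ext h2)
  · rw [map_mul, ← mul_assoc, hx, map_mul]

/-- The components of an element of the field of fractions. -/
noncomputable def qf (i : Λ) (x : K) : K :=
  g (p i (exists_rep h g hK x).choose) / g (exists_rep h g hK x).choose_spec.choose

include hg in
lemma qf_eq (i : Λ) {x : K} {a b : C} (hb : p 0 b = b) (hb0 : b ≠ 0) (hx : x * g b = g a) :
    qf h g hK i x = g (p i a) / g b := by
  obtain ⟨⟨h1, h2⟩, h3⟩ := (exists_rep h g hK x).choose_spec.choose_spec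
  unfold qf
  generalize (exists_rep h g hK x).choose_spec.choose = b' at h1 h2 h3 ⊢
  generalize (exists_rep h g hK x).choose = a' at h3 ⊢
  have e1 : g b ≠ 0 := fun h0 => hb0 ((map_eq_zero_iff g hg).1 h0)
  have e2 : g b' ≠ 0 := fun h0 => h2 ((map_eq_zero_iff g hg).1 h0)
  rw [div_eq_div_iff e2 e1, ← map_mul, ← map_mul]
  congr 1
  have h4 : b * a' = b' * a := by
    apply hg
    rw [map_mul, map_mul, ← h3, ← hx]
    ring
  have h5 := congrArg (p i) h4
  rw [h.mul0 hb, h.mul0 h1] at h5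
  rw [mul_comm, h5, mul_comm]

/-- The projections on the field of fractions. -/
noncomputable def qK (i : Λ) : K →ₗ[k] K where
  toFun := qf h g hK i
  map_add' := by
    intro x y
    obtain ⟨a, b, ⟨hb, hb0⟩, hx⟩ := exists_rep h g hK x
    obtain ⟨a', b', ⟨hb', hb0'⟩, hx'⟩ := exists_rep h g hK y
    have e1 : g b ≠ 0 := fun h0 => hb0 ((map_eq_zero_iff g hg).1 h0)
    have e2 : g b' ≠ 0 := fun h0 => hb0' ((map_eq_zero_iff g hg).1 h0)
    have h1 : p 0 (b * b') = b * b' := by rw [h.mul0 hb, hb']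
    rw [qf_eq h g hg hK i hb hb0 hx, qf_eq h g hg hK i hb' hb0' hx',
      qf_eq h g hg hK i (a := b' * a + b * a') h1 (mul_ne_zero hb0 hb0')
        (by rw [map_mul, map_add, map_mul, map_mul, ← hx, ← hx']; ring), map_add, h.mul0 hb,
      h.mul0 hb', map_add, map_mul, map_mul, map_mul]
    field_simp
  map_smul' := by
    intro c x
    obtain ⟨a, b, ⟨hb, hb0⟩, hx⟩ := exists_rep h g hK x
    rw [qf_eq h g hg hK i hb hb0 hx, qf_eq h g hg hK i (a := c • a) hb hb0
      (by rw [smul_mul_assoc, hx, map_smul]), map_smul, map_smul, RingHom.id_apply,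
      smul_div_assoc]

lemma qK_eq (i : Λ) {x : K} {a b : C} (hb : p 0 b = b) (hb0 : b ≠ 0) (hx : x * g b = g a) :
    qK h g hg hK i x = g (p i a) / g b := qf_eq h g hg hK i hb hb0 hx

lemma qK_g (i : Λ) (c : C) : qK h g hg hK i (g c) = g (p i c) := by
  rw [qK_eq h g hg hK i (a := c) (b := 1) h.one one_ne_zero (by rw [map_one, mul_one]), map_one,
    div_one]

theorem pg_qK : PG (qK h g hg hK) where
  sum x := by
    obtain ⟨a, b, ⟨hb, hb0⟩, hx⟩ := exists_rep h g hK x
    have e1 : g b ≠ 0 := fun h0 => hb0 ((map_eq_zero_iff g hg).1 h0)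
    simp only [qK_eq h g hg hK _ hb hb0 hx]
    rw [← Finset.sum_div, ← map_sum, h.sum, div_eq_iff e1, hx]
  orth i j x := by
    obtain ⟨a, b, ⟨hb, hb0⟩, hx⟩ := exists_rep h g hK x
    have e1 : g b ≠ 0 := fun h0 => hb0 ((map_eq_zero_iff g hg).1 h0)
    rw [qK_eq h g hg hK j hb hb0 hx, qK_eq h g hg hK i (a := p j a) hb hb0
      (div_mul_cancel₀ _ e1), h.orth]
    split_ifs
    · rfl
    · rw [map_zero, zero_div]
  mul i j x y hx hy := by
    obtain ⟨a, b, ⟨hb, hb0⟩, h1⟩ := exists_rep h g hK x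
    obtain ⟨a', b', ⟨hb', hb0'⟩, h1'⟩ := exists_rep h g hK y
    have e1 : g b ≠ 0 := fun h0 => hb0 ((map_eq_zero_iff g hg).1 h0)
    have e2 : g b' ≠ 0 := fun h0 => hb0' ((map_eq_zero_iff g hg).1 h0)
    rw [qK_eq h g hg hK i hb hb0 h1] at hx
    rw [qK_eq h g hg hK j hb' hb0' h1'] at hy
    have h2 : p 0 (b * b') = b * b' := by rw [h.mul0 hb, hb']
    have h3 : x * y * g (b * b') = g (p i a * p j a') := by
      rw [← hx, ← hy, map_mul, map_mul]
      field_simp
    rw [qK_eq h g hg hK (i + j) h2 (mul_ne_zero hb0 hb0') h3,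
      h.mul i j _ _ (h.idem i a) (h.idem j a'), ← hx, ← hy, map_mul, map_mul]
    field_simp

end frac

end Pool.Agent.Y177.Dg
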