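import Pool.Agent.Y177.Dg.Atl

/-! Resolution of quotients by diagonalizable groups. -/

set_option autoImplicit false
set_option linter.unusedSectionVars false

universe u v

namespace Pool.Agent.Y177.Dg

open AlgebraicGeometry CategoryTheory AddMonoidAlgebra Pool.Agent.H920R2 Pool.Agent.H519R3.RS
  Pool.Agent.W559.Mg

section nest

/-- The groups of degrees which can be removed. -/
def NR (G : Type) [AddCommGroup G] : Prop :=
  TwoUniqueSums G ∧ Module.Finite ℤ G ∧ Module.Free ℤ G ∧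
  ∀ (k A K : Type u) [Field k] [CommRing A] [IsDomain A] [Algebra k A] [Field K] [Algebra k K]
    (g : A →ₐ[k] K) (_ : Function.Injective g) (T : Type u) [Finite T] (E : ℕ)
    (C : T → Subalgebra k (ML K G)) (H : T → K), MA g E C H →
      HasResolution (X := Spec (CommRingCat.of A))
        (Spec.map (CommRingCat.ofHom (algebraMap k A)))

lemma nr_unit : NR.{u} Unit := by
  refine ⟨inferInstance, inferInstance, inferInstance, ?_⟩
  intro k A K _ _ _ _ _ _ g hg T _ E C H h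
  exact hasResolution_base hg h

lemma nr_prod {G : Type} [AddCommGroup G] (hG : NR.{u} G) : NR.{u} (ℤ × G) := by
  obtain ⟨h1, h2, h3, h4⟩ := hG
  refine ⟨inferInstance, inferInstance, inferInstance, ?_⟩
  intro k A K _ _ _ _ _ _ g hg T _ E C H h
  have : IsDomain (ML K G) := NoZeroDivisors.to_isDomain _
  obtain ⟨T1, hT1, E1, C1, H1, h1⟩ := ma_step h
  exact h4 k A K g hg T1 E1 C1 H1 h1

lemma exists_nr {Λ : Type} [AddCommGroup Λ] (s : List Λ) :
    ∃ (G : Type) (_ : AddCommGroup G) (π : G →+ Λ), NR.{u} G ∧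
      π.range = AddSubgroup.closure {x | x ∈ s} := by
  induction s with
  | nil =>
    refine ⟨Unit, inferInstance, 0, nr_unit, ?_⟩
    have : {x : Λ | x ∈ ([] : List Λ)} = ∅ := by ext x; simp
    rw [this, AddSubgroup.closure_empty, eq_bot_iff]
    rintro _ ⟨x, rfl⟩
    exact rfl
  | cons a s ih =>
    obtain ⟨G, _, π, hG, hπ⟩ := ih
    refine ⟨ℤ × G, inferInstance, (zmultiplesHom Λ a).coprod π, nr_prod hG, ?_⟩
    have h1 : {x | x ∈ a :: s} = {a} ∪ {x | x ∈ s} := by ext x; simp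
    rw [h1, AddSubgroup.closure_union, ← hπ, ← AddSubgroup.zmultiples_eq_closure]
    apply le_antisymm
    · rintro _ ⟨⟨n, x⟩, rfl⟩
      rw [AddMonoidHom.coprod_apply]
      exact AddSubgroup.add_mem_sup ⟨n, rfl⟩ ⟨x, rfl⟩
    · rw [sup_le_iff]
      constructor
      · rintro _ ⟨n, rfl⟩
        refine ⟨(n, 0), ?_⟩
        rw [AddMonoidHom.coprod_apply, map_zero, add_zero]
        rfl
      · rintro _ ⟨x, rfl⟩
        refine ⟨(0, x), ?_⟩
        rw [AddMonoidHom.coprod_apply, map_zero, zero_add]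

lemma proj_ker {G Λ : Type} [AddCommGroup G] [AddCommGroup Λ] [Module.Finite ℤ G]
    [Module.Free ℤ G] (π : G →+ Λ) : Module.Projective ℤ π.ker := by
  have h1 : Module.Free ℤ (LinearMap.ker π.toIntLinearMap) := inferInstance
  let e : LinearMap.ker π.toIntLinearMap ≃ₗ[ℤ] π.ker :=
    AddEquiv.toIntLinearEquiv
      { toFun := fun x => ⟨x.1, x.2⟩
        invFun := fun x => ⟨x.1, x.2⟩
        left_inv := fun _ => rfl
        right_inv := fun _ => rfl
        map_add' := fun _ _ => rfl }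
  have h2 : Module.Free ℤ π.ker := Module.Free.of_equiv e
  infer_instance

end nest

section supp

variable {k : Type u} {C : Type v} [Field k] [CommRing C] [IsDomain C] [Algebra k C] {Λ : Type}
  [AddCommGroup Λ] [Fintype Λ] [DecidableEq Λ] {p : Λ → C →ₗ[k] C} (h : PG p)

/-- The degrees which occur. -/
def supp (h : PG p) : AddSubgroup Λ where
  carrier := {i | ∃ c, c ≠ 0 ∧ p i c = c}
  add_mem' := by
    rintro i j ⟨a, ha0, ha⟩ ⟨b, hb0, hb⟩
    exact ⟨a * b, mul_ne_zero ha0 hb0, h.mul i j a b ha hb⟩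
  zero_mem' := ⟨1, one_ne_zero, h.one⟩
  neg_mem' := by
    rintro i ⟨a, ha0, ha⟩
    refine ⟨a ^ (Fintype.card Λ - 1), pow_ne_zero _ ha0, ?_⟩
    have h1 := h.pow ha (Fintype.card Λ - 1)
    have h2 : (Fintype.card Λ - 1) • i = -i := by
      rw [eq_neg_iff_add_eq_zero, ← succ_nsmul, Nat.sub_add_cancel Fintype.card_pos,
        card_nsmul_eq_zero]
    rwa [h2] at h1

lemma mem_supp {i : Λ} : i ∈ supp h ↔ ∃ c, c ≠ 0 ∧ p i c = c := Iff.rfl

end supp

section main

variable {k C K : Type u} [Field k] [CommRing C] [IsDomain C] [Algebra k C] [Field K]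
  [Algebra k K] {Λ : Type} [AddCommGroup Λ] [Fintype Λ] [DecidableEq Λ] {p : Λ → C →ₗ[k] C}
  (h : PG p) (g : C →ₐ[k] K) (hg : Function.Injective g) {q : Λ → K →ₗ[k] K} (hq : PG q)
  (hqg : ∀ i c, q i (g c) = g (p i c)) {F : ℕ → Ideal C} (hF : IsFilt F)
  (hom : ∀ d, ∀ c ∈ F d, ∀ i, p i c ∈ F d)

include hg hq hqg hom in
/-- Invariant homogeneous elements which generate the irrelevant ideal up to radical. -/
lemma exists_gens (hG : GoodE g hF) :
    ∃ (T : Type u) (_ : Fintype T) (e : T → ℕ) (η : T → K) (hR : ∀ t, hm (e t) (η t) ∈ rG g hF),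
      (∀ t, 0 < e t) ∧ (∀ t, η t ≠ 0) ∧ (∀ t, q 0 (η t) = η t) ∧
      ∀ (d : ℕ) (a : K) (h : hm d a ∈ rG g hF), 0 < d → ∃ N : ℕ,
      (⟨hm d a, h⟩ : rG g hF) ^ N ∈
        Ideal.span (Set.range fun t => (⟨hm (e t) (η t), hR t⟩ : rG g hF)) := by
  classical
  set R := rG g hF with hR
  have hft := hG.ft
  have hRn : IsNoetherianRing R := Algebra.FiniteType.isNoetherianRing k R
  let S : Set R := {x | ∃ (e : ℕ) (η : K) (he : hm e η ∈ R), 0 < e ∧ η ≠ 0 ∧ x = ⟨hm e η, he⟩}
  have hfg : (Ideal.span S).FG := IsNoetherian.noetherian _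
  obtain ⟨T0, hT0S, hT0⟩ := (Submodule.fg_span_iff_fg_span_finset_subset S).1 hfg
  choose e η he he0 hη0 hxeq using fun t : {x // x ∈ T0} => hT0S t.2
  let T := {t : {x // x ∈ T0} × Λ // q t.2 (η t.1) ≠ 0}
  set N := Fintype.card Λ with hN
  have hN0 : 0 < N := Fintype.card_pos
  have hq' : ∀ (t : {x // x ∈ T0}) (i : Λ), hm (e t) (q i (η t)) ∈ R := by
    intro t i
    have h1 := PL_rG g hqg hF hom i _ (he t)
    rwa [PL_hm] at h1
  have hcast : ∀ t : T, (((N * e t.1.1 : ℕ)) : ℤ) = (N : ℤ) * (e t.1.1 : ℤ) := fun t => by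
    push_cast; ring
  have hRt : ∀ t : T, hm ((N * e t.1.1 : ℕ) : ℤ) (q t.1.2 (η t.1.1) ^ N) ∈ R := by
    intro t
    rw [hcast, ← hm_pow]
    exact R.pow_mem (hq' _ _) _
  refine ⟨T, inferInstance, fun t => N * e t.1.1, fun t => q t.1.2 (η t.1.1) ^ N, hRt,
    fun t => Nat.mul_pos hN0 (he0 _), fun t => pow_ne_zero _ t.2, fun t => ?_, ?_⟩
  · exact hq.pow_zr (hq.idem _ _)
  · intro d a ha hd
    set J : Ideal R := Ideal.span (Set.range fun t : T =>
      (⟨hm ((N * e t.1.1 : ℕ) : ℤ) (q t.1.2 (η t.1.1) ^ N), hRt t⟩ : R)) with hJ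
    have h1 : Ideal.span S ≤ J.radical := by
      have h2 : (Ideal.span S : Ideal R) = Ideal.span (T0 : Set R) := hT0
      rw [h2, Ideal.span_le]
      intro x hx
      have h3 : x = ∑ i, (⟨hm (e ⟨x, hx⟩) (q i (η ⟨x, hx⟩)), hq' _ _⟩ : R) := by
        refine (hxeq ⟨x, hx⟩).trans ?_
        apply Subtype.ext
        rw [AddSubmonoidClass.coe_finsetSum]
        change hm _ _ = ∑ i, hm ((e ⟨x, hx⟩ : ℕ) : ℤ) (q i (η ⟨x, hx⟩))
        have h4 : ∀ s : Finset Λ, (∑ i ∈ s, hm ((e ⟨x, hx⟩ : ℕ) : ℤ) (q i (η ⟨x, hx⟩))) =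
            hm ((e ⟨x, hx⟩ : ℕ) : ℤ) (∑ i ∈ s, q i (η ⟨x, hx⟩)) := by
          intro s
          induction s using Finset.induction_on with
          | empty => rw [Finset.sum_empty, Finset.sum_empty, hm_zero]
          | insert i s hi ih => rw [Finset.sum_insert hi, Finset.sum_insert hi, ih, hm_add]
        rw [h4, hq.sum]
      rw [SetLike.mem_coe, h3]
      refine Ideal.sum_mem _ fun i _ => ?_
      by_cases h5 : q i (η ⟨x, hx⟩) = 0
      · have h6 : (⟨hm (e ⟨x, hx⟩) (q i (η ⟨x, hx⟩)), hq' _ _⟩ : R) = 0 := by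
          apply Subtype.ext
          change hm _ _ = 0
          rw [h5, hm_zero]
        rw [h6]
        exact Ideal.zero_mem _
      · refine ⟨N, Ideal.subset_span ⟨⟨⟨⟨x, hx⟩, i⟩, h5⟩, ?_⟩⟩
        apply Subtype.ext
        change hm ((N * e ⟨x, hx⟩ : ℕ) : ℤ) (q i (η ⟨x, hx⟩) ^ N) =
          hm (e ⟨x, hx⟩) (q i (η ⟨x, hx⟩)) ^ N
        rw [hm_pow]
        congr 1
    by_cases ha0 : a = 0
    · refine ⟨1, ?_⟩
      have h2 : (⟨hm d a, ha⟩ : R) = 0 := by
        apply Subtype.ext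
        change hm (d : ℤ) a = 0
        rw [ha0, hm_zero]
      rw [h2, pow_one]
      exact Ideal.zero_mem _
    · have h2 : (⟨hm d a, ha⟩ : R) ∈ J.radical :=
        h1 (Ideal.subset_span ⟨d, a, ha, hd, ha0, rfl⟩)
      exact h2

end main

section main

variable {k C : Type u} [Field k] [CommRing C] [IsDomain C] [Algebra k C] {Λ : Type}
  [AddCommGroup Λ] [Fintype Λ] [DecidableEq Λ] {p : Λ → C →ₗ[k] C}
  (h : PG p) {F : ℕ → Ideal C} (hF : IsFilt F)
  (hom : ∀ d, ∀ c ∈ F d, ∀ i, p i c ∈ F d)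

include hom in
/-- **Theorem A.** Resolution of the quotient of a good filtered ring by a finite diagonalizable
group scheme. -/
theorem hasResolution_zr (hG : Good k hF) (hne : F 1 ≠ ⊥) :
    HasResolution (X := Spec (CommRingCat.of (Dg.zr h)))
      (Spec.map (CommRingCat.ofHom (algebraMap k (Dg.zr h)))) := by
  classical
  let K := FractionRing C
  let g : C →ₐ[k] K := IsScalarTower.toAlgHom k C K
  have hg : Function.Injective g := IsFractionRing.injective C K
  have hK : ∀ x : K, ∃ a b : C, b ≠ 0 ∧ x * g b = g a := by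
    intro x
    obtain ⟨a, b, hb, rfl⟩ := IsFractionRing.div_surjective (A := C) x
    have hb0 : b ≠ 0 := nonZeroDivisors.ne_zero hb
    refine ⟨a, b, hb0, ?_⟩
    change algebraMap C K a / algebraMap C K b * algebraMap C K b = algebraMap C K a
    refine div_mul_cancel₀ _ ?_
    intro h0
    exact hb0 (hg (h0.trans (map_zero g).symm))
  have hq := pg_qK h g hg hK
  have hqg : ∀ i c, qK h g hg hK i (g c) = g (p i c) := fun i c => qK_g h g hg hK i c
  have hGE : GoodE g hF := (good_iff g hF hg).1 hG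
  obtain ⟨T, _, e, η, hR, he0, hη0, hη, rad⟩ := exists_gens g hg hq hqg hF hom hGE
  obtain ⟨L, _, π, hNR, hπ⟩ := exists_nr.{u} (supp h : Set Λ).toFinset.toList
  obtain ⟨hL1, hL2, hL3, hL4⟩ := id hNR
  have hrange : π.range = supp h := by
    rw [hπ]
    have h1 : {x | x ∈ (supp h : Set Λ).toFinset.toList} = (supp h : Set Λ) := by
      ext x
      simp
    rw [h1, AddSubgroup.closure_eq]
  have hproj := proj_ker π
  have hfg : AddMonoid.FG L := by
    have h1 : AddGroup.FG L := Module.Finite.iff_addGroup_fg.1 hL2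
    infer_instance
  have hma := ma_of_gens h g hg hq hqg hF hom π
    (fun i c hc hc0 => by rw [hrange]; exact ⟨c, hc0, hc⟩)
    (fun μ => by
      have h1 : π μ ∈ supp h := by rw [← hrange]; exact ⟨μ, rfl⟩
      exact h1) hGE hne he0 hη0 hη hR rad
  obtain ⟨-, -, -, h4⟩ := nr_prod hNR
  exact h4 k (Dg.zr h) K (gz h g) (hg.comp Subtype.val_injective) T _ _ _ hma

end main

end Pool.Agent.Y177.Dg
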